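import Pool.Agent.Helper1.LL.Defs

set_option autoImplicit false

open MeasureTheory Filter Topology
open scoped ENNReal

noncomputable section

namespace Pool.Agent.Helper63.LL

open Pool.Agent.Helper1.LL

theorem ball_second_moment (d : ℕ) (hd : 1 ≤ d) (r : ℝ) (hr : 0 ≤ r) :
    ∫⁻ k in Metric.ball (0 : Sp d) r, ENNReal.ofReal (‖k‖ ^ 2) =
      ENNReal.ofReal ((d : ℝ) / (d + 2) * volume.real (Metric.ball (0 : Sp d) 1) * r ^ (d + 2)) := by
  have hnt : Nontrivial (Sp d) := by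
    apply Module.nontrivial_of_finrank_pos (R := ℝ)
    rw [finrank_euclideanSpace_fin]; omega
  have hint : IntegrableOn (fun k : Sp d => ‖k‖ ^ 2) (Metric.ball (0 : Sp d) r) :=
    (ContinuousOn.integrableOn_compact (isCompact_closedBall (0 : Sp d) r)
      (by fun_prop)).mono_set Metric.ball_subset_closedBall
  rw [← ofReal_integral_eq_lintegral_ofReal hint (ae_of_all _ fun k => by positivity)]
  congr 1
  have h1 : ∫ x in Metric.ball (0 : Sp d) r, ‖x‖ ^ 2 =
      ∫ x : Sp d, (Set.indicator (Set.Iio r) (fun y : ℝ => y ^ 2)) ‖x‖ := by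
    rw [← integral_indicator measurableSet_ball]
    congr 1
    ext x
    by_cases hx : ‖x‖ < r <;> simp [Set.indicator, hx]
  rw [h1, integral_fun_norm_addHaar, finrank_euclideanSpace_fin]
  have h2 : ∫ y in Set.Ioi (0 : ℝ), y ^ (d - 1) • Set.indicator (Set.Iio r) (fun y : ℝ => y ^ 2) y =
      r ^ (d + 2) / (d + 2) := by
    have h3 : (fun y : ℝ => y ^ (d - 1) • Set.indicator (Set.Iio r) (fun y : ℝ => y ^ 2) y) =
        Set.indicator (Set.Iio r) fun y : ℝ => y ^ (d + 1) := by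
      ext y
      by_cases hy : y < r
      · simp only [Set.indicator, Set.mem_Iio, hy, if_true, smul_eq_mul]
        rw [← pow_add]
        congr 1
        omega
      · simp [Set.indicator, hy]
    rw [h3, setIntegral_indicator measurableSet_Iio, Set.Ioi_inter_Iio,
      ← integral_Ioc_eq_integral_Ioo, ← intervalIntegral.integral_of_le hr, integral_pow]
    push_cast
    rw [zero_pow (by omega), sub_zero]
    ring_nf
  rw [h2, nsmul_eq_mul, smul_eq_mul]
  field_simp

theorem bathtub_aux (d : ℕ) (m : Sp d → ℝ≥0∞) (hm : Measurable m)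
    (hm1 : ∀ k, m k ≤ 1) (r : ℝ) (hr : 0 ≤ r)
    (hM : ∫⁻ k, m k = volume (Metric.ball (0 : Sp d) r)) :
    ∫⁻ k in Metric.ball (0 : Sp d) r, ENNReal.ofReal (‖k‖ ^ 2) ≤
      ∫⁻ k, ENNReal.ofReal (‖k‖ ^ 2) * m k := by
  have hfin : ∫⁻ k in Metric.ball (0 : Sp d) r, m k ≠ ⊤ := by
    have : ∫⁻ k in Metric.ball (0 : Sp d) r, m k ≤ ∫⁻ k, m k := setLIntegral_le_lintegral _ _
    refine ne_top_of_le_ne_top ?_ this
    rw [hM]
    exact measure_ball_lt_top.ne
  have hsplit : ∫⁻ k, m k = (∫⁻ k in Metric.ball (0 : Sp d) r, m k) +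
      ∫⁻ k in (Metric.ball (0 : Sp d) r)ᶜ, m k :=
    (lintegral_add_compl m (measurableSet_ball (x := (0 : Sp d)) (ε := r)) (μ := volume)).symm
  have hone : ∫⁻ k in Metric.ball (0 : Sp d) r, (m k + (1 - m k)) =
      volume (Metric.ball (0 : Sp d) r) := by
    rw [← setLIntegral_one]
    congr 1
    ext k
    exact add_tsub_cancel_of_le (hm1 k)
  rw [lintegral_add_left hm, ← hM, hsplit] at hone
  have hcomp : ∫⁻ k in Metric.ball (0 : Sp d) r, (1 - m k) =
      ∫⁻ k in (Metric.ball (0 : Sp d) r)ᶜ, m k := (ENNReal.add_right_inj hfin).1 hone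
  have hmeas : Measurable fun k : Sp d => ENNReal.ofReal (‖k‖ ^ 2) := by fun_prop
  calc ∫⁻ k in Metric.ball (0 : Sp d) r, ENNReal.ofReal (‖k‖ ^ 2)
      = ∫⁻ k in Metric.ball (0 : Sp d) r, (ENNReal.ofReal (‖k‖ ^ 2) * m k +
          ENNReal.ofReal (‖k‖ ^ 2) * (1 - m k)) := by
        congr 1
        ext k
        rw [← mul_add, add_tsub_cancel_of_le (hm1 k), mul_one]
    _ = (∫⁻ k in Metric.ball (0 : Sp d) r, ENNReal.ofReal (‖k‖ ^ 2) * m k) +
          ∫⁻ k in Metric.ball (0 : Sp d) r, ENNReal.ofReal (‖k‖ ^ 2) * (1 - m k) :=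
        lintegral_add_left (hmeas.mul hm) _
    _ ≤ (∫⁻ k in Metric.ball (0 : Sp d) r, ENNReal.ofReal (‖k‖ ^ 2) * m k) +
          ∫⁻ k in Metric.ball (0 : Sp d) r, ENNReal.ofReal (r ^ 2) * (1 - m k) := by
        refine add_le_add le_rfl ?_
        refine setLIntegral_mono (by fun_prop) fun k hk => ?_
        have : ‖k‖ < r := by simpa using hk
        gcongr
    _ = (∫⁻ k in Metric.ball (0 : Sp d) r, ENNReal.ofReal (‖k‖ ^ 2) * m k) +
          ENNReal.ofReal (r ^ 2) * ∫⁻ k in (Metric.ball (0 : Sp d) r)ᶜ, m k := by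
        rw [lintegral_const_mul _ (by fun_prop), hcomp]
    _ = (∫⁻ k in Metric.ball (0 : Sp d) r, ENNReal.ofReal (‖k‖ ^ 2) * m k) +
          ∫⁻ k in (Metric.ball (0 : Sp d) r)ᶜ, ENNReal.ofReal (r ^ 2) * m k := by
        rw [lintegral_const_mul _ hm]
    _ ≤ (∫⁻ k in Metric.ball (0 : Sp d) r, ENNReal.ofReal (‖k‖ ^ 2) * m k) +
          ∫⁻ k in (Metric.ball (0 : Sp d) r)ᶜ, ENNReal.ofReal (‖k‖ ^ 2) * m k := by
        refine add_le_add le_rfl ?_
        refine setLIntegral_mono (hmeas.mul hm) fun k hk => ?_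
        have : r ≤ ‖k‖ := by simpa using hk
        gcongr
    _ = ∫⁻ k, ENNReal.ofReal (‖k‖ ^ 2) * m k := lintegral_add_compl _ measurableSet_ball

/-- H2. Bathtub principle on `ℝ^d`: `0 ≤ m ≤ 1`. -/
theorem bathtub (d : ℕ) (hd : 1 ≤ d) (m : Sp d → ℝ≥0∞) (hm : Measurable m) (hm1 : ∀ k, m k ≤ 1) :
    ENNReal.ofReal (((d : ℝ) / (d + 2)) *
        (volume.real (Metric.ball (0 : Sp d) 1)) ^ (-(2 : ℝ) / d)) *
      (∫⁻ k, m k) ^ (1 + 2 / d : ℝ) ≤ ∫⁻ k, ENNReal.ofReal (‖k‖ ^ 2) * m k := by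
  have hd0 : (0 : ℝ) < d := by exact_mod_cast hd
  have hnt : Nontrivial (Sp d) := by
    apply Module.nontrivial_of_finrank_pos (R := ℝ)
    rw [finrank_euclideanSpace_fin]; omega
  have hmeas : Measurable fun k : Sp d => ENNReal.ofReal (‖k‖ ^ 2) := by fun_prop
  set B := volume.real (Metric.ball (0 : Sp d) 1) with hB
  have hBpos : 0 < B := by
    rw [hB]
    exact ENNReal.toReal_pos (Metric.measure_ball_pos _ _ one_pos).ne' measure_ball_lt_top.ne
  by_cases htop : ∫⁻ k, m k = ⊤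
  · -- infinite mass
    have h1 : ∫⁻ k in Metric.ball (0 : Sp d) 1, m k ≠ ⊤ := by
      have : ∫⁻ k in Metric.ball (0 : Sp d) 1, m k ≤ ∫⁻ k in Metric.ball (0 : Sp d) 1, 1 :=
        setLIntegral_mono (by fun_prop) fun k _ => hm1 k
      refine ne_top_of_le_ne_top ?_ this
      rw [setLIntegral_one]
      exact measure_ball_lt_top.ne
    have h2 : ∫⁻ k in (Metric.ball (0 : Sp d) 1)ᶜ, m k = ⊤ := by
      by_contra hc
      have h3 := (lintegral_add_compl m (measurableSet_ball (x := (0 : Sp d)) (ε := 1)) (μ := volume))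
      rw [htop] at h3
      exact ENNReal.add_ne_top.2 ⟨h1, hc⟩ h3
    have h4 : ∫⁻ k, ENNReal.ofReal (‖k‖ ^ 2) * m k = ⊤ := by
      refine top_le_iff.1 ?_
      calc (⊤ : ℝ≥0∞) = ∫⁻ k in (Metric.ball (0 : Sp d) 1)ᶜ, m k := h2.symm
        _ ≤ ∫⁻ k in (Metric.ball (0 : Sp d) 1)ᶜ, ENNReal.ofReal (‖k‖ ^ 2) * m k := by
            refine setLIntegral_mono (hmeas.mul hm) fun k hk => ?_
            have h5 : 1 ≤ ‖k‖ := by simpa using hk
            have h6 : (1 : ℝ≥0∞) ≤ ENNReal.ofReal (‖k‖ ^ 2) := by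
              rw [← ENNReal.ofReal_one]
              exact ENNReal.ofReal_le_ofReal (by nlinarith)
            calc m k = 1 * m k := (one_mul _).symm
              _ ≤ _ := by gcongr
        _ ≤ _ := setLIntegral_le_lintegral _ _
    rw [h4]
    exact le_top
  · set M := (∫⁻ k, m k).toReal with hM
    have hM0 : 0 ≤ M := ENNReal.toReal_nonneg
    set r := (M / B) ^ (1 / d : ℝ) with hr
    have hr0 : 0 ≤ r := by positivity
    have hrd : r ^ d = M / B := by
      rw [hr, ← Real.rpow_natCast, ← Real.rpow_mul (by positivity)]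
      rw [one_div_mul_cancel hd0.ne', Real.rpow_one]
    have hvol : ∫⁻ k, m k = volume (Metric.ball (0 : Sp d) r) := by
      rw [Measure.addHaar_ball volume (0 : Sp d) hr0, finrank_euclideanSpace_fin, hrd]
      have h1 : volume (Metric.ball (0 : Sp d) 1) = ENNReal.ofReal B := by
        rw [hB, measureReal_def, ENNReal.ofReal_toReal measure_ball_lt_top.ne]
      rw [h1, ← ENNReal.ofReal_mul (by positivity), div_mul_cancel₀ _ hBpos.ne', hM,
        ENNReal.ofReal_toReal htop]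
    refine le_trans (le_of_eq ?_) (bathtub_aux d m hm hm1 r hr0 hvol)
    rw [ball_second_moment d hd r hr0, ← ENNReal.ofReal_toReal htop, ← hM,
      ENNReal.ofReal_rpow_of_nonneg hM0 (by positivity), ← ENNReal.ofReal_mul (by positivity)]
    congr 1
    rw [← hB]
    have h1 : r ^ (d + 2) = (M / B) ^ (1 + 2 / d : ℝ) := by
      rw [hr, ← Real.rpow_natCast, ← Real.rpow_mul (by positivity)]
      congr 1
      push_cast
      field_simp
    rw [h1, Real.div_rpow hM0 hBpos.le]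
    have h2 : B ^ (1 + 2 / d : ℝ) = B * B ^ (2 / d : ℝ) := by
      rw [Real.rpow_add hBpos, Real.rpow_one]
    have h3 : B ^ (-(2 : ℝ) / d) = (B ^ (2 / d : ℝ))⁻¹ := by
      rw [← Real.rpow_neg hBpos.le]
      congr 1
      ring
    rw [h2, h3]
    have h4 : 0 < B ^ (2 / d : ℝ) := by positivity
    field_simp

end Pool.Agent.Helper63.LL
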