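import Pool.Agent.Helper63.LL_H1
import Pool.Agent.Helper63.LL_H2

/-!
Task H of the Levy-Lieb project: `Pool.Agent.Helper63.LL.pauli` and `Pool.Agent.Helper63.LL.bathtub`.
-/
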