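import Mathlib

set_option autoImplicit false

/-!
Basic facts on binary strings used in the refutation of
`C = psi(x, K) + O(1)`: binary value of a string, Kraft's inequality for finite
sets without comparable members, counting strings of small plain complexity.
-/

namespace Pool.Agent.Helper63.CK

/-- binary strings -/
abbrev Str := List Bool

/-- the value of a bit -/
def bv (b : Bool) : ℕ := cond b 1 0

/-- the number whose binary expansion (most significant bit first) is the string -/
def val (p : Str) : ℕ := p.foldl (fun a b => 2 * a + bv b) 0

theorem foldl_val (q : Str) : ∀ a : ℕ,
    q.foldl (fun a b => 2 * a + bv b) a = a * 2 ^ q.length + val q := by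
  induction q with
  | nil => intro a; simp [val]
  | cons b q ih =>
    intro a
    have h1 := ih (2 * a + bv b)
    have h2 := ih (bv b)
    simp only [List.foldl_cons, List.length_cons, val] at *
    rw [h1]
    simp only [Nat.mul_zero, Nat.zero_add]
    rw [h2]
    ring

theorem val_append (p q : Str) : val (p ++ q) = val p * 2 ^ q.length + val q := by
  unfold val
  rw [List.foldl_append]
  exact foldl_val q _

theorem val_nil : val [] = 0 := rfl

theorem bv_le (b : Bool) : bv b ≤ 1 := by cases b <;> simp [bv]

theorem val_cons (b : Bool) (p : Str) : val (b :: p) = bv b * 2 ^ p.length + val p := by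
  have := val_append [b] p
  simpa [val] using this

theorem val_lt (p : Str) : val p < 2 ^ p.length := by
  induction p with
  | nil => simp [val]
  | cons b p ih =>
    rw [val_cons, List.length_cons, pow_succ]
    have := bv_le b
    nlinarith [Nat.mul_le_mul_right (2 ^ p.length) this]

theorem exists_val : ∀ (n a : ℕ), a < 2 ^ n → ∃ p : Str, p.length = n ∧ val p = a := by
  intro n
  induction n with
  | zero => intro a ha; refine ⟨[], rfl, ?_⟩; simp at ha; simp [val, ha]
  | succ n ih =>
    intro a ha
    obtain ⟨p, hp, hv⟩ := ih (a / 2) (by rw [pow_succ] at ha; omega)
    refine ⟨p ++ [decide (a % 2 = 1)], by simp [hp], ?_⟩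
    rw [val_append, hv]
    by_cases h : a % 2 = 1
    · simp [val, bv, h]; omega
    · simp [val, bv, h]; omega

theorem val_inj : ∀ (p q : Str), p.length = q.length → val p = val q → p = q := by
  intro p
  induction p with
  | nil => intro q h _; exact (List.length_eq_zero_iff.mp h.symm).symm
  | cons b p ih =>
    intro q h hv
    cases q with
    | nil => simp at h
    | cons b' q =>
      simp only [List.length_cons, add_left_inj] at h
      rw [val_cons, val_cons, h] at hv
      have h1 := val_lt p
      have h2 := val_lt q
      rw [h] at h1
      have hb : bv b = bv b' := by
        rcases Nat.lt_trichotomy (bv b) (bv b') with hlt | heq | hgt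
        · exfalso
          have : bv b + 1 ≤ bv b' := hlt
          nlinarith [Nat.mul_le_mul_right (2 ^ q.length) this]
        · exact heq
        · exfalso
          have : bv b' + 1 ≤ bv b := hgt
          nlinarith [Nat.mul_le_mul_right (2 ^ q.length) this]
      have hbb : b = b' := by cases b <;> cases b' <;> simp_all [bv]
      subst hbb
      rw [ih q h (by omega)]

/-- unary strings, used as the outputs of our machines -/
def X (n : ℕ) : Str := (List.range n).map fun _ => true

theorem X_inj {m n : ℕ} (h : X m = X n) : m = n := by
  have := congrArg List.length h
  simpa [X] using this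

/-- counting: at most `2^(k+1)` strings have a program of length at most `k` -/
theorem card_le_of_programs (T : Finset Str) (f : Str → Str) (k : ℕ)
    (hlen : ∀ x ∈ T, (f x).length ≤ k) (hinj : ∀ x ∈ T, ∀ y ∈ T, f x = f y → x = y) :
    T.card ≤ 2 ^ (k + 1) := by
  have h1 : (T.image (fun x => 2 ^ (f x).length + val (f x))).card = T.card := by
    apply Finset.card_image_of_injOn
    intro x hx y hy hxy
    apply hinj x hx y hy
    simp only at hxy
    have hl : (f x).length = (f y).length := by
      have hx1 := val_lt (f x)
      have hy1 := val_lt (f y)
      rcases Nat.lt_trichotomy (f x).length (f y).length with h | h | h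
      · exfalso
        have : 2 ^ ((f x).length + 1) ≤ 2 ^ (f y).length := Nat.pow_le_pow_right (by norm_num) h
        rw [pow_succ] at this
        omega
      · exact h
      · exfalso
        have : 2 ^ ((f y).length + 1) ≤ 2 ^ (f x).length := Nat.pow_le_pow_right (by norm_num) h
        rw [pow_succ] at this
        omega
    apply val_inj _ _ hl
    rw [hl] at hxy
    omega
  rw [← h1]
  have h2 : T.image (fun x => 2 ^ (f x).length + val (f x)) ⊆ Finset.range (2 ^ (k + 1)) := by
    intro n hn
    rw [Finset.mem_image] at hn
    obtain ⟨x, hx, rfl⟩ := hn
    rw [Finset.mem_range]
    have h3 := val_lt (f x)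
    have h4 : 2 ^ (f x).length ≤ 2 ^ k := Nat.pow_le_pow_right (by norm_num) (hlen x hx)
    rw [pow_succ]
    omega
  simpa using Finset.card_le_card h2

/-- Kraft's inequality for a finite set of strings no two of which are comparable -/
theorem kraft (P : Finset Str) (hP : ∀ p ∈ P, ∀ q ∈ P, p <+: q → p = q) :
    ∑ p ∈ P, (1 / 2 : ℝ) ^ p.length ≤ 1 := by
  by_cases h0 : ([] : Str) ∈ P
  · have : P = {[]} := by
      ext q
      rw [Finset.mem_singleton]
      constructor
      · intro hq; exact (hP [] h0 q hq List.nil_prefix).symm
      · rintro rfl; exact h0
    rw [this]; simp
  · have hud : InformationTheory.UniquelyDecodable (P : Set Str) := by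
      intro L₁
      induction L₁ with
      | nil =>
        intro L₂ _ h2 hf
        cases L₂ with
        | nil => rfl
        | cons w L =>
          exfalso
          apply h0
          have hw := h2 w (by simp)
          have : w = [] := by
            simp only [List.flatten_nil, List.flatten_cons] at hf
            exact (List.append_eq_nil_iff.mp hf.symm).1
          rw [this] at hw
          exact_mod_cast hw
      | cons w L ih =>
        intro L₂ h1 h2 hf
        cases L₂ with
        | nil =>
          exfalso
          apply h0
          have hw := h1 w (by simp)
          have : w = [] := by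
            simp only [List.flatten_nil, List.flatten_cons] at hf
            exact (List.append_eq_nil_iff.mp hf).1
          rw [this] at hw
          exact_mod_cast hw
        | cons w' L' =>
          simp only [List.flatten_cons] at hf
          have hw : w ∈ P := by exact_mod_cast h1 w (by simp)
          have hw' : w' ∈ P := by exact_mod_cast h2 w' (by simp)
          have hc : w <+: w' ∨ w' <+: w :=
            List.prefix_or_prefix_of_prefix (l₃ := w ++ L.flatten) (List.prefix_append _ _)
              (by rw [hf]; exact List.prefix_append _ _)
          have hww : w = w' := by
            rcases hc with h | h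
            · exact hP w hw w' hw' h
            · exact (hP w' hw' w hw h).symm
          subst hww
          rw [ih L' (fun v hv => h1 v (by simp [hv])) (fun v hv => h2 v (by simp [hv]))
            (List.append_cancel_left hf)]
    have := InformationTheory.kraft_mcmillan_inequality hud
    simpa using this

end Pool.Agent.Helper63.CK
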