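import Mathlib
import Pool.Agent.Helper63.CKBasic

set_option autoImplicit false

/-!
The strategy: definitions and primitive recursiveness.
-/

namespace Pool.Agent.Helper63.CK

open Classical

/-- what has been enumerated so far: pairs (program, output) of `U` and of `V`, and
triples ((string, number), value) of `psi` -/
abbrev Data := (List (Str × Str) × List (Str × Str)) × List ((Str × ℕ) × ℕ)

def pO (D : ℕ) : ℕ := 2 * D + 1
def pE (D : ℕ) : ℕ := 2 * D + 8
def pH (c D : ℕ) : ℕ := 4 * D + 2 * c + 12
def pn (c D i : ℕ) : ℕ := pH c D * (pE D * i)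
def plam (c D i j : ℕ) : ℕ := pH c D * (pE D * i + (pE D - j))
def pell (c D i j : ℕ) : ℕ := plam c D i j + pO D + 2 * c + 1
def pQ (c D : ℕ) : ℕ := 2 ^ ((pE D + 1) * pH c D) + 3

/-- index of the `y`-th string of group `g` of round `i` -/
def idx (i g y : ℕ) : ℕ := Nat.pair i (Nat.pair g y)

/-- some program for `x` in the list has length at most `k` -/
def cle (L : List (Str × Str)) (x : Str) (k : ℕ) : Prop := ∃ e ∈ L, e.2 = x ∧ e.1.length ≤ k

/-- all programs for `x` in the list have length at least `k - c` -/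
def cge (L : List (Str × Str)) (x : Str) (k c : ℕ) : Prop := ∀ e ∈ L, e.2 = x → k ≤ e.1.length + c

/-- at this stage the current value `k` of `K(x)` is at most `B`, `psi(x,k)` is known and is within
`c` of the current value of `C(x)` -/
def okx (c B : ℕ) (d : Data) (x : Str) : Prop :=
  ∃ t ∈ d.2, t.1.1 = x ∧ t.1.2 ≤ B ∧ cle d.1.2 x t.1.2 ∧ cge d.1.2 x t.1.2 0 ∧
    cle d.1.1 x (t.2 + c) ∧ cge d.1.1 x t.2 c

/-- the strings of the current group have all been answered -/
def ready (c D : ℕ) (d : Data) (i g j : ℕ) : Prop :=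
  ∀ y ∈ List.range (2 ^ pn c D i), okx c (pQ c D + pn c D i + pO D - g) d (X (idx i g y)) ∧
    (j = 0 ∨ cle d.1.1 (X (idx i g y)) (plam c D i (j - 1) + pO D))

/-- the number of strings of the group whose current plain complexity is at most the threshold -/
noncomputable def lowCount (c D : ℕ) (d : Data) (i g j : ℕ) : ℕ :=
  ((List.range (2 ^ pn c D i)).filter fun y => decide (cle d.1.1 (X (idx i g y)) (pell c D i j))).length

def lowE (c D : ℕ) (d : Data) (i g j : ℕ) : Prop :=
  2 ^ pn c D i ≤ 2 ^ pE D * lowCount c D d i g j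

/-- requests made when the group passes stage `j` -/
def reqs (c D i g j : ℕ) : List (ℕ × ℕ) :=
  (List.range (2 ^ pn c D i)).map fun y => (plam c D i j, idx i g y)

/-- configuration: round, group, stage, codeword number; and the list of requests for the plain
machine -/
abbrev State := (ℕ × ℕ × ℕ × ℕ) × List (ℕ × ℕ)

noncomputable def stepFn (c D : ℕ) (d : Data) (st : State) : State :=
  if ready c D d st.1.1 st.1.2.1 st.1.2.2.1 then
    if lowE c D d st.1.1 st.1.2.1 st.1.2.2.1 then
      ((st.1.1, st.1.2.1 + 1, 0, st.1.2.2.2 / 2 + 1), st.2)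
    else
      (if st.1.2.2.1 + 1 = pE D then (st.1.1 + 1, 0, 0, (st.1.2.2.2 + 1) * 2 ^ st.1.2.1)
        else (st.1.1, st.1.2.1, st.1.2.2.1 + 1, st.1.2.2.2),
        st.2 ++ reqs c D st.1.1 st.1.2.1 st.1.2.2.1)
  else st

/-- state of the strategy with parameter `D` at time `s`, given the stage-wise data -/
noncomputable def stt (c : ℕ) (dat : ℕ → Data) (D s : ℕ) : State :=
  Nat.rec ((0, 0, 0, 0), []) (fun s st => stepFn c D (dat s) st) s

section Prim

variable {α β : Type*} [Primcodable α] [Primcodable β]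

theorem prim_ex {L : α → List β} {R : α → β → Prop} (hL : Primrec L)
    (hR : PrimrecPred fun p : α × β => R p.1 p.2) : PrimrecPred fun a => ∃ b ∈ L a, R a b :=
  (PrimrecRel.exists_mem_list (R := fun b a => R a b)
    (hR.comp (Primrec.snd.pair Primrec.fst))).comp hL Primrec.id

theorem prim_all {L : α → List β} {R : α → β → Prop} (hL : Primrec L)
    (hR : PrimrecPred fun p : α × β => R p.1 p.2) : PrimrecPred fun a => ∀ b ∈ L a, R a b :=
  (PrimrecRel.forall_mem_list (R := fun b a => R a b)
    (hR.comp (Primrec.snd.pair Primrec.fst))).comp hL Primrec.id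

theorem prim_imp {p q : α → Prop} (hp : PrimrecPred p) (hq : PrimrecPred q) :
    PrimrecPred fun a => p a → q a :=
  (hp.not.or hq).of_eq fun a => by tauto

theorem prim_count {L : α → List β} {R : α → β → Prop} (hL : Primrec L)
    (hR : PrimrecPred fun p : α × β => R p.1 p.2) :
    Primrec fun a => ((L a).filter fun b => decide (R a b)).length :=
  Primrec.list_length.comp
    ((PrimrecRel.listFilter (R := fun b a => R a b)
      (hR.comp (Primrec.snd.pair Primrec.fst))).comp hL Primrec.id)

theorem prim_pow {f g : α → ℕ} (hf : Primrec f) (hg : Primrec g) :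
    Primrec fun a => f a ^ g a :=
  (Primrec₂.unpaired'.1 Nat.Primrec.pow).comp hf hg

theorem prim_add {f g : α → ℕ} (hf : Primrec f) (hg : Primrec g) :
    Primrec fun a => f a + g a := Primrec.nat_add.comp hf hg

theorem prim_sub {f g : α → ℕ} (hf : Primrec f) (hg : Primrec g) :
    Primrec fun a => f a - g a := Primrec.nat_sub.comp hf hg

theorem prim_mul {f g : α → ℕ} (hf : Primrec f) (hg : Primrec g) :
    Primrec fun a => f a * g a := Primrec.nat_mul.comp hf hg

theorem prim_pO : Primrec pO :=
  prim_add (prim_mul (.const 2) .id) (.const 1)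

theorem prim_pE : Primrec pE :=
  prim_add (prim_mul (.const 2) .id) (.const 8)

theorem prim_pH (c : ℕ) : Primrec (pH c) :=
  prim_add (prim_add (prim_mul (.const 4) .id) (.const (2 * c))) (.const 12)

theorem prim_pn (c : ℕ) {D i : α → ℕ} (hD : Primrec D) (hi : Primrec i) :
    Primrec fun a => pn c (D a) (i a) :=
  prim_mul ((prim_pH c).comp hD) (prim_mul (prim_pE.comp hD) hi)

theorem prim_plam (c : ℕ) {D i j : α → ℕ} (hD : Primrec D) (hi : Primrec i) (hj : Primrec j) :
    Primrec fun a => plam c (D a) (i a) (j a) :=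
  prim_mul ((prim_pH c).comp hD)
    (prim_add (prim_mul (prim_pE.comp hD) hi) (prim_sub (prim_pE.comp hD) hj))

theorem prim_pell (c : ℕ) {D i j : α → ℕ} (hD : Primrec D) (hi : Primrec i) (hj : Primrec j) :
    Primrec fun a => pell c (D a) (i a) (j a) :=
  prim_add (prim_add (prim_add (prim_plam c hD hi hj) (prim_pO.comp hD)) (.const (2 * c)))
    (.const 1)

theorem prim_pQ (c : ℕ) {D : α → ℕ} (hD : Primrec D) : Primrec fun a => pQ c (D a) :=
  prim_add (prim_pow (.const 2)
    (prim_mul (prim_add (prim_pE.comp hD) (.const 1)) ((prim_pH c).comp hD))) (.const 3)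

theorem prim_idx {i g y : α → ℕ} (hi : Primrec i) (hg : Primrec g) (hy : Primrec y) :
    Primrec fun a => idx (i a) (g a) (y a) :=
  Primrec₂.natPair.comp hi (Primrec₂.natPair.comp hg hy)

theorem prim_X : Primrec X :=
  Primrec.list_map Primrec.list_range (Primrec₂.const true)

theorem prim_cle {L : α → List (Str × Str)} {x : α → Str} {k : α → ℕ} (hL : Primrec L)
    (hx : Primrec x) (hk : Primrec k) : PrimrecPred fun a => cle (L a) (x a) (k a) := by
  apply prim_ex hL
  exact (Primrec.eq.comp (Primrec.snd.comp Primrec.snd) (hx.comp Primrec.fst)).and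
    (Primrec.nat_le.comp (Primrec.list_length.comp (Primrec.fst.comp Primrec.snd))
      (hk.comp Primrec.fst))

theorem prim_cge {L : α → List (Str × Str)} {x : α → Str} {k c : α → ℕ} (hL : Primrec L)
    (hx : Primrec x) (hk : Primrec k) (hc : Primrec c) :
    PrimrecPred fun a => cge (L a) (x a) (k a) (c a) := by
  apply prim_all hL
  exact prim_imp (Primrec.eq.comp (Primrec.snd.comp Primrec.snd) (hx.comp Primrec.fst))
    (Primrec.nat_le.comp (hk.comp Primrec.fst)
      (prim_add (Primrec.list_length.comp (Primrec.fst.comp Primrec.snd)) (hc.comp Primrec.fst)))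

theorem prim_okx (c : ℕ) {B : α → ℕ} {d : α → Data} {x : α → Str} (hB : Primrec B)
    (hd : Primrec d) (hx : Primrec x) : PrimrecPred fun a => okx c (B a) (d a) (x a) := by
  apply prim_ex (Primrec.snd.comp hd)
  have h1 : Primrec fun p : α × ((Str × ℕ) × ℕ) => (d p.1).1.1 :=
    Primrec.fst.comp (Primrec.fst.comp (hd.comp Primrec.fst))
  have h2 : Primrec fun p : α × ((Str × ℕ) × ℕ) => (d p.1).1.2 :=
    Primrec.snd.comp (Primrec.fst.comp (hd.comp Primrec.fst))
  have hx' : Primrec fun p : α × ((Str × ℕ) × ℕ) => x p.1 := hx.comp Primrec.fst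
  have hk : Primrec fun p : α × ((Str × ℕ) × ℕ) => p.2.1.2 :=
    Primrec.snd.comp (Primrec.fst.comp Primrec.snd)
  have hy : Primrec fun p : α × ((Str × ℕ) × ℕ) => p.2.2 := Primrec.snd.comp Primrec.snd
  exact (Primrec.eq.comp (Primrec.fst.comp (Primrec.fst.comp Primrec.snd)) hx').and
    ((Primrec.nat_le.comp hk (hB.comp Primrec.fst)).and
    ((prim_cle h2 hx' hk).and ((prim_cge h2 hx' hk (.const 0)).and
    ((prim_cle h1 hx' (prim_add hy (.const c))).and (prim_cge h1 hx' hy (.const c))))))

theorem prim_ready (c : ℕ) {D i g j : α → ℕ} {d : α → Data} (hD : Primrec D) (hd : Primrec d)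
    (hi : Primrec i) (hg : Primrec g) (hj : Primrec j) :
    PrimrecPred fun a => ready c (D a) (d a) (i a) (g a) (j a) := by
  apply prim_all (Primrec.list_range.comp (prim_pow (.const 2) (prim_pn c hD hi)))
  have hx : Primrec fun p : α × ℕ => X (idx (i p.1) (g p.1) p.2) :=
    prim_X.comp (prim_idx (hi.comp Primrec.fst) (hg.comp Primrec.fst) Primrec.snd)
  have hd' : Primrec fun p : α × ℕ => d p.1 := hd.comp Primrec.fst
  refine (prim_okx c ?_ hd' hx).and ((Primrec.eq.comp (hj.comp Primrec.fst) (.const 0)).or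
    (prim_cle (Primrec.fst.comp (Primrec.fst.comp hd')) hx ?_))
  · exact (prim_sub (prim_add (prim_add (prim_pQ c hD) (prim_pn c hD hi)) (prim_pO.comp hD))
      hg).comp Primrec.fst
  · exact (prim_add (prim_plam c hD hi (prim_sub hj (.const 1))) (prim_pO.comp hD)).comp
      Primrec.fst

theorem prim_lowE (c : ℕ) {D i g j : α → ℕ} {d : α → Data} (hD : Primrec D) (hd : Primrec d)
    (hi : Primrec i) (hg : Primrec g) (hj : Primrec j) :
    PrimrecPred fun a => lowE c (D a) (d a) (i a) (g a) (j a) := by
  have hx : Primrec fun p : α × ℕ => X (idx (i p.1) (g p.1) p.2) :=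
    prim_X.comp (prim_idx (hi.comp Primrec.fst) (hg.comp Primrec.fst) Primrec.snd)
  have hd' : Primrec fun p : α × ℕ => d p.1 := hd.comp Primrec.fst
  have hn := prim_pow (.const 2) (prim_pn c hD hi)
  refine Primrec.nat_le.comp hn (prim_mul (prim_pow (.const 2) (prim_pE.comp hD)) ?_)
  exact prim_count (Primrec.list_range.comp hn)
    (prim_cle (Primrec.fst.comp (Primrec.fst.comp hd')) hx
      ((prim_pell c hD hi hj).comp Primrec.fst))

theorem prim_reqs (c : ℕ) {D i g j : α → ℕ} (hD : Primrec D)
    (hi : Primrec i) (hg : Primrec g) (hj : Primrec j) :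
    Primrec fun a => reqs c (D a) (i a) (g a) (j a) :=
  Primrec.list_map (Primrec.list_range.comp (prim_pow (.const 2) (prim_pn c hD hi)))
    (((prim_plam c hD hi hj).comp Primrec.fst).pair
      (prim_idx (hi.comp Primrec.fst) (hg.comp Primrec.fst) Primrec.snd))

theorem prim_stepFn (c : ℕ) {D : α → ℕ} {d : α → Data} {st : α → State} (hD : Primrec D)
    (hd : Primrec d) (hst : Primrec st) : Primrec fun a => stepFn c (D a) (d a) (st a) := by
  have hi : Primrec fun a => (st a).1.1 := Primrec.fst.comp (Primrec.fst.comp hst)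
  have hg : Primrec fun a => (st a).1.2.1 :=
    Primrec.fst.comp (Primrec.snd.comp (Primrec.fst.comp hst))
  have hj : Primrec fun a => (st a).1.2.2.1 :=
    Primrec.fst.comp (Primrec.snd.comp (Primrec.snd.comp (Primrec.fst.comp hst)))
  have ha : Primrec fun a => (st a).1.2.2.2 :=
    Primrec.snd.comp (Primrec.snd.comp (Primrec.snd.comp (Primrec.fst.comp hst)))
  have hR : Primrec fun a => (st a).2 := Primrec.snd.comp hst
  have h0 : Primrec fun _ : α => (0 : ℕ) := .const 0
  refine Primrec.ite (prim_ready c hD hd hi hg hj) (Primrec.ite (prim_lowE c hD hd hi hg hj)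
    ?_ ?_) hst
  · exact (hi.pair ((prim_add hg (.const 1)).pair (h0.pair
      (prim_add (Primrec.nat_div.comp ha (.const 2)) (.const 1))))).pair hR
  · refine (Primrec.ite (Primrec.eq.comp (prim_add hj (.const 1)) (prim_pE.comp hD)) ?_ ?_).pair
      (Primrec.list_append.comp hR (prim_reqs c hD hi hg hj))
    · exact (prim_add hi (.const 1)).pair (h0.pair (h0.pair
        (prim_mul (prim_add ha (.const 1)) (prim_pow (.const 2) hg))))
    · exact hi.pair (hg.pair ((prim_add hj (.const 1)).pair ha))

theorem prim_stt (c : ℕ) {dat : ℕ → Data} (hdat : Primrec dat) :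
    Primrec₂ (stt c dat) := by
  unfold stt
  refine Primrec.nat_rec (f := fun _ : ℕ => (((0, 0, 0, 0), []) : State))
    (g := fun D (q : ℕ × State) => stepFn c D (dat q.1) q.2) (.const _) ?_
  exact prim_stepFn c Primrec.fst (hdat.comp (Primrec.fst.comp Primrec.snd))
    (Primrec.snd.comp Primrec.snd)

end Prim

end Pool.Agent.Helper63.CK
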