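import Mathlib
import Pool.Agent.Helper63.CKDefs

set_option autoImplicit false

/-!
The two machines built from the strategy, and their coding properties.
-/

namespace Pool.Agent.Helper63.CK

open Classical

/-- effective enumeration of the graph of a partial recursive function -/
theorem exists_enum {α β : Type} [Primcodable α] [Primcodable β] {f : α →. β} (hf : Partrec f) :
    ∃ e : ℕ → Option (α × β), Primrec e ∧ ∀ a b, b ∈ f a ↔ ∃ t, e t = some (a, b) := by
  obtain ⟨cf, hcf⟩ := Nat.Partrec.Code.exists_code.1 hf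
  refine ⟨fun t => (Encodable.decode (α := α) t.unpair.2).bind fun a =>
    (Nat.Partrec.Code.evaln t.unpair.1 cf t.unpair.2).bind fun m =>
      (Encodable.decode (α := β) m).map fun b => (a, b), ?_, ?_⟩
  · refine Primrec.option_bind (Primrec.decode.comp (Primrec.snd.comp Primrec.unpair)) ?_
    refine Primrec.option_bind ?_ ?_
    · exact Nat.Partrec.Code.primrec_evaln.comp
        (((Primrec.fst.comp (Primrec.unpair.comp Primrec.fst)).pair (.const cf)).pair
          (Primrec.snd.comp (Primrec.unpair.comp Primrec.fst)))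
    · refine Primrec.option_map (Primrec.decode.comp Primrec.snd) ?_
      exact ((Primrec.snd.comp (Primrec.fst.comp Primrec.fst)).pair Primrec.snd)
  · intro a b
    constructor
    · intro h
      have h1 : Encodable.encode b ∈ Nat.Partrec.Code.eval cf (Encodable.encode a) := by
        rw [hcf]
        simp only [Encodable.encodek, Part.coe_some, Part.bind_some]
        exact Part.mem_map _ h
      obtain ⟨k, hk⟩ := Nat.Partrec.Code.evaln_complete.1 h1
      refine ⟨Nat.pair k (Encodable.encode a), ?_⟩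
      have hk' : Nat.Partrec.Code.evaln k cf (Encodable.encode a) = some (Encodable.encode b) := hk
      simp only [Nat.unpair_pair, Encodable.encodek, Option.bind_some, hk', Option.map_some]
    · rintro ⟨t, ht⟩
      simp only [Option.bind_eq_some_iff, Option.map_eq_some_iff, Prod.mk.injEq] at ht
      obtain ⟨a', ha', m, hm, b', hb', rfl, rfl⟩ := ht
      have h1 : m ∈ Nat.Partrec.Code.eval cf t.unpair.2 := Nat.Partrec.Code.evaln_sound hm
      rw [hcf] at h1
      simp only [ha', Part.coe_some, Part.bind_some, Part.mem_map_iff] at h1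
      obtain ⟨b'', hb'', rfl⟩ := h1
      rw [Encodable.encodek] at hb'
      cases hb'
      exact hb''

/-- position of the first `true` -/
def dpar (p : Str) : ℕ := p.idxOf true
/-- what follows the first `true` -/
def rest (p : Str) : Str := p.drop (dpar p + 1)

theorem dpar_mk (D : ℕ) (q : Str) : dpar (List.replicate D false ++ true :: q) = D := by
  unfold dpar
  rw [List.idxOf_append_of_notMem (by simp [List.mem_replicate])]
  simp

theorem rest_mk (D : ℕ) (q : Str) : rest (List.replicate D false ++ true :: q) = q := by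
  unfold rest
  rw [dpar_mk]
  have : List.replicate D false ++ true :: q = (List.replicate D false ++ [true]) ++ q := by simp
  rw [this, List.drop_append_of_le_length (by simp)]
  simp

theorem parse_ext (p t : Str) (h : dpar p < p.length) :
    dpar (p ++ t) = dpar p ∧ rest (p ++ t) = rest p ++ t := by
  have h1 : true ∈ p := List.idxOf_lt_length_iff.1 h
  have h2 : dpar (p ++ t) = dpar p := by
    unfold dpar
    exact List.idxOf_append_of_mem h1
  refine ⟨h2, ?_⟩
  unfold rest
  rw [h2]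
  exact List.drop_append_of_le_length h

theorem prim_dpar : Primrec dpar := by
  have h : Primrec₂ (fun (b : Bool) (l : List Bool) => l.idxOf b) := Primrec.list_idxOf
  exact h.comp (Primrec.const true) Primrec.id

theorem prim_rest : Primrec rest := by
  have h : Primrec₂ (fun (n : ℕ) (l : List Bool) => l.drop n) := Primrec.list_drop
  exact h.comp (prim_add prim_dpar (.const 1)) Primrec.id

theorem prim_val : Primrec val := by
  unfold val
  refine Primrec.list_foldl (f := fun p : Str => p) (g := fun _ => 0)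
    (h := fun _ q => 2 * q.1 + bv q.2) Primrec.id (.const 0) ?_
  exact prim_add (prim_mul (.const 2) (Primrec.fst.comp Primrec.snd))
    ((Primrec.dom_bool bv).comp (Primrec.snd.comp Primrec.snd))

section

variable (c : ℕ) (dat : ℕ → Data)

noncomputable def Mfun (p : Str) (s : ℕ) : Option Str :=
  if dpar p < p.length then
    (((stt c dat (dpar p) s).2.filter fun r => decide (r.1 = (rest p).length))[val (rest p)]?).map
      fun r => X r.2
  else none

noncomputable def Nfun (p : Str) (s : ℕ) : Option Str :=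
  if dpar p < p.length ∧
    (rest p).length + (stt c dat (dpar p) s).1.2.1 =
      pQ c (dpar p) + pn c (dpar p) (stt c dat (dpar p) s).1.1 ∧
    val (rest p) / 2 ^ pn c (dpar p) (stt c dat (dpar p) s).1.1 =
      (stt c dat (dpar p) s).1.2.2.2 then
    some (X (idx (stt c dat (dpar p) s).1.1 (stt c dat (dpar p) s).1.2.1
      (val (rest p) % 2 ^ pn c (dpar p) (stt c dat (dpar p) s).1.1)))
  else none

noncomputable def MM (p : Str) : Part Str := Nat.rfindOpt (Mfun c dat p)
noncomputable def NN (p : Str) : Part Str := Nat.rfindOpt (Nfun c dat p)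

variable {c dat}

theorem partrec_MM (hdat : Primrec dat) : Partrec (MM c dat) := by
  apply Partrec.rfindOpt
  apply Primrec.to_comp
  unfold Mfun
  have hp : Primrec fun a : Str × ℕ => a.1 := Primrec.fst
  have hD : Primrec fun a : Str × ℕ => dpar a.1 := prim_dpar.comp hp
  have hr : Primrec fun a : Str × ℕ => rest a.1 := prim_rest.comp hp
  have hst : Primrec fun a : Str × ℕ => stt c dat (dpar a.1) a.2 :=
    (prim_stt c hdat).comp hD Primrec.snd
  refine Primrec.ite (Primrec.nat_lt.comp hD (Primrec.list_length.comp hp)) ?_ (.const none)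
  refine Primrec.option_map (Primrec.list_getElem?.comp ?_ (prim_val.comp hr)) ?_
  · refine (PrimrecRel.listFilter (R := fun (r : ℕ × ℕ) (n : ℕ) => r.1 = n) ?_).comp
      (Primrec.snd.comp hst) (Primrec.list_length.comp hr)
    exact Primrec.eq.comp (Primrec.fst.comp Primrec.fst) Primrec.snd
  · exact prim_X.comp (Primrec.snd.comp Primrec.snd)

theorem partrec_NN (hdat : Primrec dat) : Partrec (NN c dat) := by
  apply Partrec.rfindOpt
  apply Primrec.to_comp
  unfold Nfun
  have hp : Primrec fun a : Str × ℕ => a.1 := Primrec.fst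
  have hD : Primrec fun a : Str × ℕ => dpar a.1 := prim_dpar.comp hp
  have hr : Primrec fun a : Str × ℕ => rest a.1 := prim_rest.comp hp
  have hst : Primrec fun a : Str × ℕ => stt c dat (dpar a.1) a.2 :=
    (prim_stt c hdat).comp hD Primrec.snd
  have hi : Primrec fun a : Str × ℕ => (stt c dat (dpar a.1) a.2).1.1 :=
    Primrec.fst.comp (Primrec.fst.comp hst)
  have hg : Primrec fun a : Str × ℕ => (stt c dat (dpar a.1) a.2).1.2.1 :=
    Primrec.fst.comp (Primrec.snd.comp (Primrec.fst.comp hst))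
  have ha : Primrec fun a : Str × ℕ => (stt c dat (dpar a.1) a.2).1.2.2.2 :=
    Primrec.snd.comp (Primrec.snd.comp (Primrec.snd.comp (Primrec.fst.comp hst)))
  have hn := prim_pow (.const 2) (prim_pn c hD hi)
  have hv := prim_val.comp hr
  refine Primrec.ite ?_ ?_ (.const none)
  · exact (Primrec.nat_lt.comp hD (Primrec.list_length.comp hp)).and
      ((Primrec.eq.comp (prim_add (Primrec.list_length.comp hr) hg)
        (prim_add (prim_pQ c hD) (prim_pn c hD hi))).and
      (Primrec.eq.comp (Primrec.nat_div.comp hv hn) ha))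
  · exact Primrec.option_some.comp (prim_X.comp (prim_idx hi hg (Primrec.nat_mod.comp hv hn)))

theorem stt_zero (D : ℕ) : stt c dat D 0 = ((0, 0, 0, 0), []) := rfl

theorem stt_succ (D s : ℕ) :
    stt c dat D (s + 1) = stepFn c D (dat s) (stt c dat D s) := rfl

/-- one step: the block is unchanged or the new block starts after the end of the old one -/
theorem step_pos (D : ℕ) (d : Data) (st : State) :
    ((stepFn c D d st).1.1 = st.1.1 ∧ (stepFn c D d st).1.2.1 = st.1.2.1 ∧
      (stepFn c D d st).1.2.2.2 = st.1.2.2.2) ∨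
    (st.1.2.2.2 + 1) * 2 ^ st.1.2.1 ≤
      (stepFn c D d st).1.2.2.2 * 2 ^ (stepFn c D d st).1.2.1 := by
  unfold stepFn
  split_ifs
  · right
    simp only
    rw [pow_succ]
    have : st.1.2.2.2 + 1 ≤ (st.1.2.2.2 / 2 + 1) * 2 := by omega
    calc (st.1.2.2.2 + 1) * 2 ^ st.1.2.1 ≤ ((st.1.2.2.2 / 2 + 1) * 2) * 2 ^ st.1.2.1 :=
          Nat.mul_le_mul_right _ this
      _ = _ := by ring
  · right
    simp
  · left
    simp
  · left
    simp

theorem pos_mono (D s k : ℕ) :
    ((stt c dat D (s + k)).1.1 = (stt c dat D s).1.1 ∧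
      (stt c dat D (s + k)).1.2.1 = (stt c dat D s).1.2.1 ∧
      (stt c dat D (s + k)).1.2.2.2 = (stt c dat D s).1.2.2.2) ∨
    ((stt c dat D s).1.2.2.2 + 1) * 2 ^ (stt c dat D s).1.2.1 ≤
      (stt c dat D (s + k)).1.2.2.2 * 2 ^ (stt c dat D (s + k)).1.2.1 := by
  induction k with
  | zero => left; simp
  | succ k ih =>
    have h := step_pos (c := c) D (dat (s + k)) (stt c dat D (s + k))
    rw [← stt_succ] at h
    rw [← add_assoc]
    rcases h with ⟨h1, h2, h3⟩ | h
    · rw [h1, h2, h3]; exact ih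
    · right
      rcases ih with ⟨i1, i2, i3⟩ | ih
      · rw [i2, i3] at h; exact h
      · refine le_trans ih (le_trans ?_ h)
        exact Nat.mul_le_mul_right _ (Nat.le_succ _)

theorem pos_mono' (D s s' : ℕ) :
    ((stt c dat D s').1.1 = (stt c dat D s).1.1 ∧
      (stt c dat D s').1.2.1 = (stt c dat D s).1.2.1 ∧
      (stt c dat D s').1.2.2.2 = (stt c dat D s).1.2.2.2) ∨
    ((stt c dat D s).1.2.2.2 + 1) * 2 ^ (stt c dat D s).1.2.1 ≤
      (stt c dat D s').1.2.2.2 * 2 ^ (stt c dat D s').1.2.1 ∨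
    ((stt c dat D s').1.2.2.2 + 1) * 2 ^ (stt c dat D s').1.2.1 ≤
      (stt c dat D s).1.2.2.2 * 2 ^ (stt c dat D s).1.2.1 := by
  rcases le_total s s' with h | h
  · obtain ⟨k, rfl⟩ := Nat.exists_eq_add_of_le h
    rcases pos_mono (c := c) (dat := dat) D s k with h | h
    · exact Or.inl h
    · exact Or.inr (Or.inl h)
  · obtain ⟨k, rfl⟩ := Nat.exists_eq_add_of_le h
    rcases pos_mono (c := c) (dat := dat) D s' k with ⟨h1, h2, h3⟩ | h
    · exact Or.inl ⟨h1.symm, h2.symm, h3.symm⟩
    · exact Or.inr (Or.inr h)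

/-- arithmetic core of the disjointness of codewords -/
theorem block_core {v t tl n n' g g' a a' : ℕ} (ht : t < 2 ^ tl) (hv : v / 2 ^ n = a)
    (hv' : (v * 2 ^ tl + t) / 2 ^ n' = a') (hlen : tl + n + g' = n' + g)
    (h : (a + 1) * 2 ^ g ≤ a' * 2 ^ g' ∨ (a' + 1) * 2 ^ g' ≤ a * 2 ^ g) : False := by
  have p1 : 0 < 2 ^ n := by positivity
  have p2 : 0 < 2 ^ n' := by positivity
  have e1 : a * 2 ^ n ≤ v := by rw [← hv]; exact Nat.div_mul_le_self _ _
  have e2 : v + 1 ≤ (a + 1) * 2 ^ n := by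
    rw [← hv]
    have := Nat.lt_div_mul_add (a := v) p1
    calc v + 1 ≤ v / 2 ^ n * 2 ^ n + 2 ^ n := this
      _ = _ := by ring
  have e3 : a' * 2 ^ n' ≤ v * 2 ^ tl + t := by rw [← hv']; exact Nat.div_mul_le_self _ _
  have e4 : v * 2 ^ tl + t < (a' + 1) * 2 ^ n' := by
    rw [← hv']
    have := Nat.lt_div_mul_add (a := v * 2 ^ tl + t) p2
    calc v * 2 ^ tl + t < (v * 2 ^ tl + t) / 2 ^ n' * 2 ^ n' + 2 ^ n' := this
      _ = _ := by ring
  have key : 2 ^ tl * 2 ^ n * 2 ^ g' = 2 ^ n' * 2 ^ g := by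
    rw [← pow_add, ← pow_add, ← pow_add, hlen]
  rcases h with h | h
  · -- a' 2^n' ≤ V' < (a+1) 2^(n+tl)
    have h1 : a' * 2 ^ n' < (a + 1) * 2 ^ n * 2 ^ tl := by
      calc a' * 2 ^ n' ≤ v * 2 ^ tl + t := e3
        _ < (v + 1) * 2 ^ tl := by rw [add_mul, one_mul]; omega
        _ ≤ (a + 1) * 2 ^ n * 2 ^ tl := Nat.mul_le_mul_right _ e2
    have h2 : a' * 2 ^ n' * 2 ^ g' < (a + 1) * 2 ^ n * 2 ^ tl * 2 ^ g' :=
      Nat.mul_lt_mul_of_pos_right h1 (by positivity)
    have h3 : (a + 1) * 2 ^ n * 2 ^ tl * 2 ^ g' = (a + 1) * 2 ^ g * 2 ^ n' := by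
      calc (a + 1) * 2 ^ n * 2 ^ tl * 2 ^ g' = (a + 1) * (2 ^ tl * 2 ^ n * 2 ^ g') := by ring
        _ = (a + 1) * (2 ^ n' * 2 ^ g) := by rw [key]
        _ = _ := by ring
    have h4 : (a + 1) * 2 ^ g * 2 ^ n' ≤ a' * 2 ^ g' * 2 ^ n' := Nat.mul_le_mul_right _ h
    have h5 : a' * 2 ^ g' * 2 ^ n' = a' * 2 ^ n' * 2 ^ g' := by ring
    omega
  · have h1 : a * 2 ^ n * 2 ^ tl < (a' + 1) * 2 ^ n' := by
      calc a * 2 ^ n * 2 ^ tl ≤ v * 2 ^ tl := Nat.mul_le_mul_right _ e1
        _ ≤ v * 2 ^ tl + t := Nat.le_add_right _ _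
        _ < _ := e4
    have h2 : a * 2 ^ n * 2 ^ tl * 2 ^ g' < (a' + 1) * 2 ^ n' * 2 ^ g' :=
      Nat.mul_lt_mul_of_pos_right h1 (by positivity)
    have h3 : a * 2 ^ n * 2 ^ tl * 2 ^ g' = a * 2 ^ g * 2 ^ n' := by
      calc a * 2 ^ n * 2 ^ tl * 2 ^ g' = a * (2 ^ tl * 2 ^ n * 2 ^ g') := by ring
        _ = a * (2 ^ n' * 2 ^ g) := by rw [key]
        _ = _ := by ring
    have h4 : (a' + 1) * 2 ^ g' * 2 ^ n' ≤ a * 2 ^ g * 2 ^ n' := Nat.mul_le_mul_right _ h
    have h5 : (a' + 1) * 2 ^ n' * 2 ^ g' = (a' + 1) * 2 ^ g' * 2 ^ n' := by ring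
    omega

/-- two comparable codewords of `Nfun` are equal and are answered in the same way -/
theorem Nfun_core {p t x x' : Str} {s s' : ℕ} (h : Nfun c dat p s = some x)
    (h' : Nfun c dat (p ++ t) s' = some x') : t = [] ∧ x = x' := by
  unfold Nfun at h h'
  split_ifs at h with h1
  obtain ⟨h1a, h1b, h1c⟩ := h1
  obtain ⟨hd, hr⟩ := parse_ext p t h1a
  rw [hd, hr] at h'
  split_ifs at h' with h2
  obtain ⟨h2a, h2b, h2c⟩ := h2
  rw [List.length_append] at h2b
  rw [val_append] at h2c
  rcases pos_mono' (c := c) (dat := dat) (dpar p) s s' with ⟨e1, e2, e3⟩ | h3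
  · rw [e1, e2] at h2b
    have ht : t = [] := List.length_eq_zero_iff.1 (by omega)
    refine ⟨ht, ?_⟩
    subst ht
    rw [Option.some.injEq] at h h'
    rw [← h, ← h', e1, e2]
    simp
  · exfalso
    exact block_core (val_lt t) h1c h2c (by omega) h3

theorem NN_dom {p : Str} (h : (NN c dat p).Dom) : ∃ s x, Nfun c dat p s = some x := by
  obtain ⟨n, a, h⟩ := Nat.rfindOpt_dom.1 h
  exact ⟨n, a, h⟩

theorem NN_pf (p q : Str) (hp : (NN c dat p).Dom) (hq : (NN c dat q).Dom) (h : p <+: q) :
    p = q := by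
  obtain ⟨s, x, h1⟩ := NN_dom hp
  obtain ⟨s', x', h2⟩ := NN_dom hq
  obtain ⟨t, rfl⟩ := h
  obtain ⟨rfl, -⟩ := Nfun_core h1 h2
  simp

theorem NN_mem {p x : Str} {s : ℕ} (h : Nfun c dat p s = some x) : x ∈ NN c dat p := by
  have hd : (NN c dat p).Dom := Nat.rfindOpt_dom.2 ⟨s, x, h⟩
  have hg := Part.get_mem hd
  obtain ⟨n, hn⟩ := Nat.rfindOpt_spec hg
  have h' : Nfun c dat (p ++ []) n = some ((NN c dat p).get hd) := by
    rw [List.append_nil]; exact hn
  obtain ⟨-, e⟩ := Nfun_core h h'
  rw [e]; exact hg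

/-- coding for the second machine -/
theorem NN_code {D s y : ℕ}
    (ha : ((stt c dat D s).1.2.2.2 + 1) * 2 ^ (stt c dat D s).1.2.1 ≤ 2 ^ pQ c D)
    (hg : (stt c dat D s).1.2.1 ≤ pQ c D)
    (hy : y < 2 ^ pn c D (stt c dat D s).1.1) :
    ∃ p : Str, p.length + (stt c dat D s).1.2.1 = D + 1 + pQ c D + pn c D (stt c dat D s).1.1 ∧
      X (idx (stt c dat D s).1.1 (stt c dat D s).1.2.1 y) ∈ NN c dat p := by
  set i := (stt c dat D s).1.1 with hi
  set g := (stt c dat D s).1.2.1 with hgg
  set a := (stt c dat D s).1.2.2.2 with haa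
  have ha' : a + 1 ≤ 2 ^ (pQ c D - g) := by
    have h1 : 2 ^ pQ c D = 2 ^ (pQ c D - g) * 2 ^ g := by
      rw [← pow_add]; congr 1; omega
    rw [h1] at ha
    exact Nat.le_of_mul_le_mul_right ha (by positivity)
  have hlt : a * 2 ^ pn c D i + y < 2 ^ (pQ c D - g + pn c D i) := by
    rw [pow_add]
    calc a * 2 ^ pn c D i + y < a * 2 ^ pn c D i + 2 ^ pn c D i := by omega
      _ = (a + 1) * 2 ^ pn c D i := by ring
      _ ≤ _ := Nat.mul_le_mul_right _ ha'
  obtain ⟨q, hq, hv⟩ := exists_val _ _ hlt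
  refine ⟨List.replicate D false ++ true :: q, ?_, ?_⟩
  · simp [hq]; omega
  · apply NN_mem (s := s)
    unfold Nfun
    rw [dpar_mk, rest_mk, ← hi, ← hgg, ← haa, hv, hq]
    have h1 : (a * 2 ^ pn c D i + y) / 2 ^ pn c D i = a := by
      rw [mul_comm, Nat.mul_add_div (by positivity), Nat.div_eq_of_lt hy, add_zero]
    have h2 : (a * 2 ^ pn c D i + y) % 2 ^ pn c D i = y := by
      rw [mul_comm, Nat.mul_add_mod, Nat.mod_eq_of_lt hy]
    rw [h1, h2, if_pos]
    refine ⟨?_, ?_, rfl⟩
    · simp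
    · omega

theorem step_reqs (D : ℕ) (d : Data) (st : State) : st.2 <+: (stepFn c D d st).2 := by
  unfold stepFn
  split_ifs
  · exact List.prefix_rfl
  · exact List.prefix_append _ _
  · exact List.prefix_append _ _
  · exact List.prefix_rfl

theorem reqs_mono (D : ℕ) {s s' : ℕ} (h : s ≤ s') : (stt c dat D s).2 <+: (stt c dat D s').2 := by
  obtain ⟨k, rfl⟩ := Nat.exists_eq_add_of_le h
  induction k with
  | zero => exact List.prefix_rfl
  | succ k ih =>
    have := step_reqs (c := c) D (dat (s + k)) (stt c dat D (s + k))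
    rw [← stt_succ] at this
    exact (ih (Nat.le_add_right _ _)).trans this

/-- coding for the first machine -/
theorem MM_code {D s lam ν : ℕ} (h : (lam, ν) ∈ (stt c dat D s).2)
    (hcount : ((stt c dat D s).2.filter fun r => decide (r.1 = lam)).length ≤ 2 ^ lam) :
    ∃ p : Str, p.length = D + 1 + lam ∧ X ν ∈ MM c dat p := by
  have h1 : (lam, ν) ∈ (stt c dat D s).2.filter fun r => decide (r.1 = lam) := by
    rw [List.mem_filter]; exact ⟨h, by simp⟩
  obtain ⟨k, hk, hk'⟩ := List.getElem_of_mem h1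
  obtain ⟨q, hq, hv⟩ := exists_val lam k (lt_of_lt_of_le hk hcount)
  refine ⟨List.replicate D false ++ true :: q, ?_, ?_⟩
  · simp [hq]; omega
  · unfold MM
    rw [Nat.rfindOpt_mono]
    · refine ⟨s, ?_⟩
      unfold Mfun
      rw [dpar_mk, rest_mk, if_pos (by simp), hq, hv]
      rw [List.getElem?_eq_getElem hk, hk']
      simp
    · intro a m n hmn ha
      unfold Mfun at ha ⊢
      split_ifs at ha ⊢ with h2
      · simp only [Option.mem_def, Option.map_eq_some_iff] at ha ⊢
        obtain ⟨r, hr, hr'⟩ := ha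
        refine ⟨r, ?_, hr'⟩
        have h3 := (reqs_mono (c := c) (dat := dat) (dpar (List.replicate D false ++ true :: q))
          hmn).filter (fun r => decide (r.1 = (rest (List.replicate D false ++ true :: q)).length))
        obtain ⟨t, ht⟩ := h3
        rw [← ht, List.getElem?_append_left]
        · exact hr
        · exact (List.getElem?_eq_some_iff.1 hr).1
      · exact ha

end

end Pool.Agent.Helper63.CK
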