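import Mathlib
import Pool.Agent.Helper63.CKMach

set_option autoImplicit false

/-!
Analysis of the strategy.
-/

namespace Pool.Agent.Helper63.CK

open Classical

/-- plain complexity at most `k` -/
def CU (U : Str →. Str) (x : Str) (k : ℕ) : Prop := ∃ p, x ∈ U p ∧ p.length ≤ k

theorem CU_mono {U : Str →. Str} {x : Str} {k k' : ℕ} (h : CU U x k) (hk : k ≤ k') :
    CU U x k' := by
  obtain ⟨p, h1, h2⟩ := h
  exact ⟨p, h1, h2.trans hk⟩

/-- group `γ` of round `i` has many strings of plain complexity at most `L` -/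
def LowG (U : Str →. Str) (c D i γ L : ℕ) : Prop :=
  ∃ T ⊆ Finset.range (2 ^ pn c D i), 2 ^ pn c D i ≤ 2 ^ pE D * T.card ∧
    ∀ y ∈ T, CU U (X (idx i γ y)) L

theorem idx_inj {i g y i' g' y' : ℕ} (h : idx i g y = idx i' g' y') : i = i' ∧ g = g' ∧ y = y' := by
  unfold idx at h
  rw [Nat.pair_eq_pair, Nat.pair_eq_pair] at h
  exact h

theorem count_low {U : Str →. Str} {c D i L : ℕ} (G : Finset ℕ)
    (hG : ∀ γ ∈ G, LowG U c D i γ L) :
    G.card * 2 ^ pn c D i ≤ 2 ^ pE D * 2 ^ (L + 1) := by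
  choose! T hT1 hT2 hT3 using hG
  set S : Finset Str := (G.sigma T).image (fun q => X (idx i q.1 q.2)) with hS
  have hcard : S.card = ∑ γ ∈ G, (T γ).card := by
    rw [hS, Finset.card_image_of_injective, Finset.card_sigma]
    rintro ⟨γ, y⟩ ⟨γ', y'⟩ h
    obtain ⟨-, rfl, rfl⟩ := idx_inj (X_inj h)
    rfl
  have hprog : ∀ x ∈ S, CU U x L := by
    intro x hx
    rw [hS, Finset.mem_image] at hx
    obtain ⟨⟨γ, y⟩, hq, rfl⟩ := hx
    rw [Finset.mem_sigma] at hq
    exact hT3 γ hq.1 y hq.2
  unfold CU at hprog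
  choose! f hf1 hf2 using hprog
  have hle : S.card ≤ 2 ^ (L + 1) := by
    apply card_le_of_programs S f L hf2
    intro x hx y hy hxy
    have h1 := hf1 x hx
    have h2 := hf1 y hy
    rw [← hxy] at h2
    exact Part.mem_unique h1 h2
  calc G.card * 2 ^ pn c D i = ∑ γ ∈ G, 2 ^ pn c D i := by simp
    _ ≤ ∑ γ ∈ G, 2 ^ pE D * (T γ).card := Finset.sum_le_sum fun γ hγ => hT2 γ hγ
    _ = 2 ^ pE D * S.card := by rw [hcard, Finset.mul_sum]
    _ ≤ _ := Nat.mul_le_mul_left _ hle

theorem pH_eq (c D : ℕ) : pH c D = pE D + pO D + 2 * c + 3 := by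
  unfold pH pE pO; omega

theorem pE_pos (D : ℕ) : 0 < pE D := by unfold pE; omega

theorem pH_pos (c D : ℕ) : 0 < pH c D := by unfold pH; omega

theorem plam_eq (c D i j : ℕ) : plam c D i j = pn c D i + pH c D * (pE D - j) := by
  unfold plam pn; ring

theorem pell_anti (c D i : ℕ) {j j' : ℕ} (h : j ≤ j') : pell c D i j' ≤ pell c D i j := by
  unfold pell
  rw [plam_eq, plam_eq]
  have : pH c D * (pE D - j') ≤ pH c D * (pE D - j) := Nat.mul_le_mul_left _ (by omega)
  omega

theorem plam_inj {c D i j j' : ℕ} (hj : j < pE D) (hj' : j' < pE D)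
    (h : plam c D i j = plam c D i j') : j = j' := by
  rw [plam_eq, plam_eq] at h
  have h1 : pH c D * (pE D - j) = pH c D * (pE D - j') := by omega
  have h2 := Nat.eq_of_mul_eq_mul_left (pH_pos c D) h1
  omega

theorem plam_ne {c D i i' j j' : ℕ} (hi : i < i') (hj' : j' < pE D) :
    plam c D i' j' ≠ plam c D i j := by
  intro h
  unfold plam at h
  have h2 := Nat.eq_of_mul_eq_mul_left (pH_pos c D) h
  have h3 : pE D * (i + 1) ≤ pE D * i' := Nat.mul_le_mul_left _ hi
  rw [mul_add] at h3
  omega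

theorem count_low_le {U : Str →. Str} {c D i k : ℕ} (G : Finset ℕ)
    (hG : ∀ γ ∈ G, LowG U c D i γ (pell c D i k)) :
    G.card + 1 ≤ 2 ^ (pH c D * (pE D - k + 1)) := by
  have h1 := count_low G hG
  have h2 : 2 ^ pE D * 2 ^ (pell c D i k + 1) =
      2 ^ (pE D + pH c D * (pE D - k) + pO D + 2 * c + 2) * 2 ^ pn c D i := by
    rw [← pow_add, ← pow_add]
    congr 1
    unfold pell
    rw [plam_eq]
    ring
  rw [h2] at h1
  have h3 : G.card ≤ 2 ^ (pE D + pH c D * (pE D - k) + pO D + 2 * c + 2) :=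
    Nat.le_of_mul_le_mul_right h1 (by positivity)
  have h4 : pH c D * (pE D - k + 1) = (pE D + pH c D * (pE D - k) + pO D + 2 * c + 2) + 1 := by
    have := pH_eq c D
    rw [mul_add, mul_one]
    omega
  rw [h4, pow_succ]
  have : 1 ≤ 2 ^ (pE D + pH c D * (pE D - k) + pO D + 2 * c + 2) := Nat.one_le_two_pow
  omega

/-- The invariant of the strategy. -/
structure Inv (c D : ℕ) (dat : ℕ → Data) (U V : Str →. Str) (ψ : Str × ℕ →. ℕ)
    (s i g j a : ℕ) (R : List (ℕ × ℕ)) : Prop where
  hj : j < pE D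
  hi : i ≤ a * 2 ^ g
  hB : ∃ P : Finset Str, (∀ p ∈ P, ∃ i' < i, ∃ ν, X (Nat.pair i' ν) ∈ V p) ∧
    (8 * ((a : ℝ) * 2 ^ g)) ≤ 2 ^ pQ c D * ∑ p ∈ P, (1 / 2 : ℝ) ^ p.length + 16 * 2 ^ g
  hC : ∃ σ : ℕ → ℕ, (∀ g' < g, σ g' < pE D ∧ LowG U c D i g' (pell c D i (σ g'))) ∧
    ∀ j0 < pE D, (R.filter fun r => decide (r.1 = plam c D i j0)).length =
      2 ^ pn c D i * (((Finset.range g).filter fun g' => j0 < σ g').card + if j0 < j then 1 else 0)
  hC' : ∀ i' > i, ∀ j0 < pE D, (R.filter fun r => decide (r.1 = plam c D i' j0)) = []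
  hD : ∃ S ⊆ Finset.range (2 ^ pn c D i),
    2 ^ pE D * (2 ^ pn c D i - S.card) ≤ j * 2 ^ pn c D i ∧
    ∀ y ∈ S, j = 0 ∨ ∃ k, k + (j - 1) ≤ pQ c D + pn c D i + pO D - g ∧
      (∃ e ∈ (dat s).1.2, e.2 = X (idx i g y) ∧ e.1.length = k) ∧
      ∃ v ∈ ψ (X (idx i g y), k), pell c D i (j - 1) < v + c
  hR : j ≠ 0 → ∀ y < 2 ^ pn c D i, (plam c D i (j - 1), idx i g y) ∈ R

section

variable {c D : ℕ} {dat : ℕ → Data} {U V : Str →. Str} {ψ : Str × ℕ →. ℕ}

theorem inv_zero : Inv c D dat U V ψ 0 0 0 0 0 [] where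
  hj := pE_pos D
  hi := by simp
  hB := ⟨∅, by simp, by simp⟩
  hC := ⟨fun _ => 0, by simp, by simp⟩
  hC' := by simp
  hD := ⟨Finset.range (2 ^ pn c D 0), subset_rfl, by simp, by simp⟩
  hR := by simp

/-- the effect of an answer: one more drop of `K` for most strings -/
theorem drop_step (hψs : ∀ s, ∀ t ∈ (dat s).2, t.2 ∈ ψ t.1)
    {s i g j : ℕ} (hr : ready c D (dat s) i g j) (hl : ¬ lowE c D (dat s) i g j)
    (hD : ∃ S ⊆ Finset.range (2 ^ pn c D i),
    2 ^ pE D * (2 ^ pn c D i - S.card) ≤ j * 2 ^ pn c D i ∧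
    ∀ y ∈ S, j = 0 ∨ ∃ k, k + (j - 1) ≤ pQ c D + pn c D i + pO D - g ∧
      (∃ e ∈ (dat s).1.2, e.2 = X (idx i g y) ∧ e.1.length = k) ∧
      ∃ v ∈ ψ (X (idx i g y), k), pell c D i (j - 1) < v + c) :
    ∃ S ⊆ Finset.range (2 ^ pn c D i),
    2 ^ pE D * (2 ^ pn c D i - S.card) ≤ (j + 1) * 2 ^ pn c D i ∧
    ∀ y ∈ S, ∃ k, k + j ≤ pQ c D + pn c D i + pO D - g ∧
      (∃ e ∈ (dat s).1.2, e.2 = X (idx i g y) ∧ e.1.length = k) ∧
      ∃ v ∈ ψ (X (idx i g y), k), pell c D i j < v + c := by
  obtain ⟨S, hS1, hS2, hS3⟩ := hD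
  set low : Finset ℕ := (Finset.range (2 ^ pn c D i)).filter fun y =>
    cle (dat s).1.1 (X (idx i g y)) (pell c D i j) with hlow
  have hlc : lowCount c D (dat s) i g j = low.card := by
    unfold lowCount
    rw [hlow, ← List.toFinset_card_of_nodup ((List.nodup_range).filter _)]
    congr 1
    ext y
    simp
  refine ⟨S \ low, Finset.sdiff_subset.trans hS1, ?_, ?_⟩
  · unfold lowE at hl
    rw [hlc] at hl
    have h1 : S.card ≤ (S \ low).card + low.card := by
      rw [← Finset.card_union_of_disjoint Finset.sdiff_disjoint]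
      exact Finset.card_le_card (by intro x hx; by_cases h : x ∈ low <;> simp [hx, h])
    have h2 : 2 ^ pn c D i - (S \ low).card ≤ (2 ^ pn c D i - S.card) + low.card := by omega
    calc 2 ^ pE D * (2 ^ pn c D i - (S \ low).card)
        ≤ 2 ^ pE D * ((2 ^ pn c D i - S.card) + low.card) := Nat.mul_le_mul_left _ h2
      _ = 2 ^ pE D * (2 ^ pn c D i - S.card) + 2 ^ pE D * low.card := by ring
      _ ≤ j * 2 ^ pn c D i + 2 ^ pn c D i := by omega
      _ = _ := by ring
  · intro y hy
    rw [Finset.mem_sdiff] at hy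
    obtain ⟨hyS, hyl⟩ := hy
    have hyN := hS1 hyS
    have hnl : ¬ cle (dat s).1.1 (X (idx i g y)) (pell c D i j) := by
      intro h; apply hyl; rw [hlow, Finset.mem_filter]; exact ⟨hyN, h⟩
    rw [Finset.mem_range] at hyN
    obtain ⟨⟨t, ht, ht1, ht2, ht3, ht4, ht5, ht6⟩, hprev⟩ := hr y (List.mem_range.2 hyN)
    have htψ : t.2 ∈ ψ (X (idx i g y), t.1.2) := by
      have := hψs s t ht
      rw [← ht1]; exact this
    refine ⟨t.1.2, ?_, ?_, t.2, htψ, ?_⟩
    · rcases Nat.eq_zero_or_pos j with hj0 | hj0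
      · rw [hj0]; simpa using ht2
      · rcases hS3 y hyS with h | ⟨k, hk1, ⟨e, he1, he2, he3⟩, v, hv1, hv2⟩
        · omega
        · rcases hprev with h | ⟨e', he1', he2', he3'⟩
          · omega
          have hle : t.1.2 ≤ k := by
            have := ht4 e he1 he2
            omega
          have hne : t.1.2 ≠ k := by
            intro h
            rw [← h] at hv1
            have hvt : v = t.2 := Part.mem_unique hv1 htψ
            have h1 := ht6 e' he1' he2'
            unfold pell at hv2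
            omega
          omega
    · obtain ⟨e, he1, he2, he3⟩ := ht3
      refine ⟨e, he1, he2, ?_⟩
      have := ht4 e he1 he2
      omega
    · obtain ⟨e, he1, he2, he3⟩ := ht5
      by_contra hcon
      apply hnl
      exact ⟨e, he1, he2, by omega⟩

theorem filter_reqs (c D i g j lam : ℕ) :
    ((reqs c D i g j).filter fun r => decide (r.1 = lam)) =
      if plam c D i j = lam then reqs c D i g j else [] := by
  unfold reqs
  split_ifs with h
  · rw [List.filter_eq_self]
    intro r hr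
    rw [List.mem_map] at hr
    obtain ⟨y, -, rfl⟩ := hr
    simp [h]
  · rw [List.filter_eq_nil_iff]
    intro r hr
    rw [List.mem_map] at hr
    obtain ⟨y, -, rfl⟩ := hr
    simp [h]

theorem length_reqs (c D i g j : ℕ) : (reqs c D i g j).length = 2 ^ pn c D i := by
  simp [reqs]

theorem inv_step (hUs : ∀ s, ∀ e ∈ (dat s).1.1, e.2 ∈ U e.1)
    (hVs : ∀ s, ∀ e ∈ (dat s).1.2, e.2 ∈ V e.1)
    (hψs : ∀ s, ∀ t ∈ (dat s).2, t.2 ∈ ψ t.1)
    (hVm : ∀ s, ∀ e ∈ (dat s).1.2, e ∈ (dat (s + 1)).1.2)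
    {s : ℕ} {st : State}
    (h : Inv c D dat U V ψ s st.1.1 st.1.2.1 st.1.2.2.1 st.1.2.2.2 st.2) :
    Inv c D dat U V ψ (s + 1) (stepFn c D (dat s) st).1.1 (stepFn c D (dat s) st).1.2.1
      (stepFn c D (dat s) st).1.2.2.1 (stepFn c D (dat s) st).1.2.2.2
      (stepFn c D (dat s) st).2 := by
  obtain ⟨⟨i, g, j, a⟩, R⟩ := st
  simp only at h
  unfold stepFn
  simp only
  by_cases hr : ready c D (dat s) i g j
  swap
  · rw [if_neg hr]
    refine ⟨h.hj, h.hi, h.hB, h.hC, h.hC', ?_, h.hR⟩
    obtain ⟨S, hS1, hS2, hS3⟩ := h.hD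
    refine ⟨S, hS1, hS2, fun y hy => ?_⟩
    rcases hS3 y hy with h0 | ⟨k, hk1, ⟨e, he1, he2⟩, hv⟩
    · exact Or.inl h0
    · exact Or.inr ⟨k, hk1, ⟨e, hVm s e he1, he2⟩, hv⟩
  rw [if_pos hr]
  by_cases hl : lowE c D (dat s) i g j
  · -- the group is stopped
    rw [if_pos hl]
    simp only
    refine ⟨pE_pos D, ?_, ?_, ?_, h.hC', ?_, by simp⟩
    · refine h.hi.trans ?_
      rw [pow_succ]
      have : a ≤ (a / 2 + 1) * 2 := by omega
      calc a * 2 ^ g ≤ ((a / 2 + 1) * 2) * 2 ^ g := Nat.mul_le_mul_right _ this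
        _ = _ := by ring
    · obtain ⟨P, hP1, hP2⟩ := h.hB
      refine ⟨P, hP1, ?_⟩
      have h1 : ((a / 2 + 1 : ℕ) : ℝ) * 2 ≤ (a : ℝ) + 2 := by
        have : (a / 2 + 1) * 2 ≤ a + 2 := by omega
        exact_mod_cast this
      have h2 : (0 : ℝ) < 2 ^ g := by positivity
      rw [pow_succ]
      have h3 : ((a / 2 + 1 : ℕ) : ℝ) * (2 ^ g * 2) ≤ ((a : ℝ) + 2) * 2 ^ g := by
        calc ((a / 2 + 1 : ℕ) : ℝ) * (2 ^ g * 2) = (((a / 2 + 1 : ℕ) : ℝ) * 2) * 2 ^ g := by ring
          _ ≤ _ := mul_le_mul_of_nonneg_right h1 h2.le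
      nlinarith
    · obtain ⟨σ, hσ1, hσ2⟩ := h.hC
      refine ⟨Function.update σ g j, ?_, ?_⟩
      · intro g' hg'
        rcases Nat.lt_succ_iff_lt_or_eq.1 hg' with hlt | heq
        · rw [Function.update_of_ne hlt.ne]; exact hσ1 g' hlt
        · rw [heq, Function.update_self]
          refine ⟨h.hj, ?_⟩
          refine ⟨(Finset.range (2 ^ pn c D i)).filter fun y =>
            cle (dat s).1.1 (X (idx i g y)) (pell c D i j), Finset.filter_subset _ _, ?_, ?_⟩
          · have hlc : lowCount c D (dat s) i g j = ((Finset.range (2 ^ pn c D i)).filter fun y =>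
                cle (dat s).1.1 (X (idx i g y)) (pell c D i j)).card := by
              unfold lowCount
              rw [← List.toFinset_card_of_nodup ((List.nodup_range).filter _)]
              congr 1
              ext y
              simp
            rw [← hlc]; exact hl
          · intro y hy
            rw [Finset.mem_filter] at hy
            obtain ⟨-, e, he1, he2, he3⟩ := hy
            refine ⟨e.1, ?_, he3⟩
            have := hUs s e he1
            rw [he2] at this
            exact this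
      · intro j0 hj0
        rw [hσ2 j0 hj0]
        congr 1
        rw [Finset.range_add_one, Finset.filter_insert]
        simp only [Function.update_self, Nat.not_lt_zero, if_false, add_zero]
        have hfe : (Finset.range g).filter (fun g' => j0 < Function.update σ g j g') =
            (Finset.range g).filter fun g' => j0 < σ g' := by
          apply Finset.filter_congr
          intro g' hg'
          rw [Finset.mem_range] at hg'
          rw [Function.update_of_ne hg'.ne]
        rw [hfe]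
        split_ifs with h1
        · rw [Finset.card_insert_of_notMem (by simp)]
        · rfl
    · exact ⟨Finset.range (2 ^ pn c D i), subset_rfl, by simp, by simp⟩
  · -- the group passes the stage
    rw [if_neg hl]
    simp only
    obtain ⟨S, hS1, hS2, hS3⟩ := drop_step hψs hr hl h.hD
    by_cases hE : j + 1 = pE D
    · -- end of the round
      rw [if_pos hE]
      simp only
      obtain ⟨P, hP1, hP2⟩ := h.hB
      have hScard : 2 ^ pn c D i ≤ 2 * S.card := by
        rw [hE] at hS2
        have h1 : 2 * pE D ≤ 2 ^ pE D := by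
          have : ∀ n : ℕ, 2 * (n + 1) ≤ 2 ^ (n + 1) := by
            intro n
            induction n with
            | zero => norm_num
            | succ n ih => rw [pow_succ]; omega
          have h2 := this (pE D - 1)
          have h3 := pE_pos D
          rwa [Nat.sub_add_cancel h3] at h2
        have h2 : pE D * (2 * (2 ^ pn c D i - S.card)) ≤ pE D * 2 ^ pn c D i := by
          calc pE D * (2 * (2 ^ pn c D i - S.card)) = 2 * pE D * (2 ^ pn c D i - S.card) := by ring
            _ ≤ 2 ^ pE D * (2 ^ pn c D i - S.card) := Nat.mul_le_mul_right _ h1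
            _ ≤ _ := hS2
        have h3 := Nat.le_of_mul_le_mul_left h2 (pE_pos D)
        omega
      have hprog : ∀ y ∈ S, ∃ e : Str, X (idx i g y) ∈ V e ∧
          e.length + g + 6 ≤ pQ c D + pn c D i := by
        intro y hy
        obtain ⟨k, hk1, ⟨e, he1, he2, he3⟩, -⟩ := hS3 y hy
        refine ⟨e.1, ?_, ?_⟩
        · have := hVs s e he1
          rw [he2] at this
          exact this
        · have h1 : j = pO D + 6 := by unfold pE at hE; unfold pO; omega
          omega
      choose! f hf1 hf2 using hprog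
      have hinj : Set.InjOn f (S : Set ℕ) := by
        intro y hy y' hy' hyy
        have h1 := hf1 y hy
        have h2 := hf1 y' hy'
        rw [hyy] at h1
        exact (idx_inj (X_inj (Part.mem_unique h1 h2))).2.2
      have hdisj : Disjoint P (S.image f) := by
        rw [Finset.disjoint_left]
        intro p hp hp'
        rw [Finset.mem_image] at hp'
        obtain ⟨y, hy, rfl⟩ := hp'
        obtain ⟨i', hi', ν, hν⟩ := hP1 _ hp
        have h1 := X_inj (Part.mem_unique hν (hf1 y hy))
        unfold idx at h1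
        rw [Nat.pair_eq_pair] at h1
        omega
      have hsum : (32 : ℝ) * 2 ^ g ≤ 2 ^ pQ c D * ∑ p ∈ S.image f, (1 / 2 : ℝ) ^ p.length := by
        rw [Finset.sum_image hinj, Finset.mul_sum]
        have hterm : ∀ y ∈ S, (64 : ℝ) * 2 ^ g / 2 ^ pn c D i ≤
            2 ^ pQ c D * (1 / 2 : ℝ) ^ (f y).length := by
          intro y hy
          have h1 := hf2 y hy
          rw [one_div, inv_pow, ← div_eq_mul_inv, div_le_div_iff₀ (by positivity) (by positivity)]
          have h2 : (2 : ℝ) ^ ((f y).length + g + 6) ≤ 2 ^ (pQ c D + pn c D i) :=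
            pow_le_pow_right₀ (by norm_num) h1
          rw [pow_add, pow_add, pow_add] at h2
          calc (64 : ℝ) * 2 ^ g * 2 ^ (f y).length = 2 ^ (f y).length * 2 ^ g * 2 ^ 6 := by ring
            _ ≤ _ := h2
        calc (32 : ℝ) * 2 ^ g = (2 ^ pn c D i / 2) * ((64 : ℝ) * 2 ^ g / 2 ^ pn c D i) := by
              field_simp; ring
          _ ≤ (S.card : ℝ) * ((64 : ℝ) * 2 ^ g / 2 ^ pn c D i) := by
              apply mul_le_mul_of_nonneg_right _ (by positivity)
              have : ((2 ^ pn c D i : ℕ) : ℝ) ≤ ((2 * S.card : ℕ) : ℝ) := by exact_mod_cast hScard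
              push_cast at this
              linarith
          _ = ∑ y ∈ S, ((64 : ℝ) * 2 ^ g / 2 ^ pn c D i) := by simp
          _ ≤ _ := Finset.sum_le_sum hterm
      refine ⟨pE_pos D, ?_, ?_, ?_, ?_, ?_, by simp⟩
      · have h1 := h.hi
        have h2 : 1 ≤ 2 ^ g := Nat.one_le_two_pow
        simp only [pow_zero, mul_one]
        rw [add_mul, one_mul]
        omega
      · refine ⟨P ∪ S.image f, ?_, ?_⟩
        · intro p hp
          rw [Finset.mem_union] at hp
          rcases hp with hp | hp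
          · obtain ⟨i', hi', ν, hν⟩ := hP1 p hp
            exact ⟨i', by omega, ν, hν⟩
          · rw [Finset.mem_image] at hp
            obtain ⟨y, hy, rfl⟩ := hp
            exact ⟨i, by omega, Nat.pair g y, hf1 y hy⟩
        · rw [Finset.sum_union hdisj, mul_add]
          push_cast
          have h2 : (0 : ℝ) < 2 ^ g := by positivity
          nlinarith
      · refine ⟨fun _ => 0, by simp, ?_⟩
        intro j0 hj0
        rw [List.filter_append, h.hC' (i + 1) (by omega) j0 hj0, filter_reqs,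
          if_neg (Ne.symm (plam_ne (by omega) hj0))]
        simp
      · intro i' hi' j0 hj0
        rw [List.filter_append, h.hC' i' (by omega) j0 hj0, filter_reqs,
          if_neg (Ne.symm (plam_ne (by omega) hj0))]
        simp
      · exact ⟨Finset.range (2 ^ pn c D (i + 1)), subset_rfl, by simp, by simp⟩
    · -- next stage of the same group
      rw [if_neg hE]
      simp only
      have hj1 : j + 1 < pE D := by have := h.hj; omega
      refine ⟨hj1, h.hi, h.hB, ?_, ?_, ?_, ?_⟩
      · obtain ⟨σ, hσ1, hσ2⟩ := h.hC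
        refine ⟨σ, hσ1, ?_⟩
        intro j0 hj0
        rw [List.filter_append, List.length_append, hσ2 j0 hj0, filter_reqs]
        by_cases hjj : j0 = j
        · subst hjj
          rw [if_pos rfl, length_reqs, if_neg (lt_irrefl _), if_pos (Nat.lt_succ_self _)]
          ring
        · rw [if_neg (fun hh => hjj (plam_inj h.hj hj0 hh).symm)]
          have : (j0 < j + 1) ↔ (j0 < j) := by omega
          simp only [this, List.length_nil, add_zero]
      · intro i' hi' j0 hj0
        rw [List.filter_append, h.hC' i' hi' j0 hj0, filter_reqs,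
          if_neg (Ne.symm (plam_ne hi' hj0))]
        simp
      · refine ⟨S, hS1, hS2, fun y hy => Or.inr ?_⟩
        obtain ⟨k, hk1, ⟨e, he1, he2⟩, hv⟩ := hS3 y hy
        exact ⟨k, by simpa using hk1, ⟨e, hVm s e he1, he2⟩, by simpa using hv⟩
      · intro _ y hy
        rw [List.mem_append]
        right
        unfold reqs
        rw [List.mem_map]
        exact ⟨y, List.mem_range.2 hy, by simp⟩

end

end Pool.Agent.Helper63.CK
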