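import Mathlib
import Pool.Agent.Helper63.CKGame

set_option autoImplicit false

/-!
Liveness of the strategy, and the final contradiction.
-/

namespace Pool.Agent.Helper63.CK

open Classical Filter

section

variable {c D : ℕ} {dat : ℕ → Data} {U V : Str →. Str} {ψ : Str × ℕ →. ℕ}

theorem inv_all (hUs : ∀ s, ∀ e ∈ (dat s).1.1, e.2 ∈ U e.1)
    (hVs : ∀ s, ∀ e ∈ (dat s).1.2, e.2 ∈ V e.1)
    (hψs : ∀ s, ∀ t ∈ (dat s).2, t.2 ∈ ψ t.1)
    (hVm : ∀ s, ∀ e ∈ (dat s).1.2, e ∈ (dat (s + 1)).1.2) (s : ℕ) :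
    Inv c D dat U V ψ s (stt c dat D s).1.1 (stt c dat D s).1.2.1 (stt c dat D s).1.2.2.1
      (stt c dat D s).1.2.2.2 (stt c dat D s).2 := by
  induction s with
  | zero => exact inv_zero
  | succ s ih => rw [stt_succ]; exact inv_step hUs hVs hψs hVm ih

theorem g_bound {s i g j a : ℕ} {R : List (ℕ × ℕ)} (h : Inv c D dat U V ψ s i g j a R) :
    g + 1 ≤ 2 ^ ((pE D + 1) * pH c D) := by
  obtain ⟨σ, hσ, -⟩ := h.hC
  have h1 := count_low_le (U := U) (c := c) (D := D) (i := i) (k := 0) (Finset.range g) (by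
    intro γ hγ
    rw [Finset.mem_range] at hγ
    obtain ⟨-, T, hT1, hT2, hT3⟩ := hσ γ hγ
    exact ⟨T, hT1, hT2, fun y hy => CU_mono (hT3 y hy) (pell_anti c D i (Nat.zero_le _))⟩)
  rw [Finset.card_range, Nat.sub_zero, mul_comm] at h1
  exact h1

theorem count_bound {s i g j a : ℕ} {R : List (ℕ × ℕ)} (h : Inv c D dat U V ψ s i g j a R)
    {j0 : ℕ} (hj0 : j0 < pE D) :
    (R.filter fun r => decide (r.1 = plam c D i j0)).length ≤ 2 ^ plam c D i j0 := by
  obtain ⟨σ, hσ, hσ2⟩ := h.hC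
  rw [hσ2 j0 hj0]
  have h1 := count_low_le (U := U) (c := c) (D := D) (i := i) (k := j0 + 1)
    ((Finset.range g).filter fun g' => j0 < σ g') (by
    intro γ hγ
    rw [Finset.mem_filter, Finset.mem_range] at hγ
    obtain ⟨-, T, hT1, hT2, hT3⟩ := hσ γ hγ.1
    exact ⟨T, hT1, hT2, fun y hy => CU_mono (hT3 y hy) (pell_anti c D i hγ.2)⟩)
  have h2 : pE D - (j0 + 1) + 1 = pE D - j0 := by omega
  rw [h2] at h1
  rw [plam_eq, pow_add]
  apply Nat.mul_le_mul_left
  refine le_trans ?_ h1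
  apply Nat.add_le_add_left
  split_ifs <;> omega

theorem a_bound (hVpf : ∀ p q : Str, (V p).Dom → (V q).Dom → p <+: q → p = q)
    {s i g j a : ℕ} {R : List (ℕ × ℕ)} (h : Inv c D dat U V ψ s i g j a R) :
    (a + 1) * 2 ^ g ≤ 2 ^ pQ c D := by
  obtain ⟨P, hP1, hP2⟩ := h.hB
  have hK := kraft P (by
    intro p hp q hq hpq
    obtain ⟨i1, -, n1, h1⟩ := hP1 p hp
    obtain ⟨i2, -, n2, h2⟩ := hP1 q hq
    exact hVpf p q (Part.dom_iff_mem.2 ⟨_, h1⟩) (Part.dom_iff_mem.2 ⟨_, h2⟩) hpq)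
  have hg := g_bound h
  have h1 : 2 ^ (g + 4) ≤ 2 ^ pQ c D := by
    apply Nat.pow_le_pow_right (by norm_num)
    unfold pQ; omega
  rw [pow_add] at h1
  have h2 : (2 : ℝ) ^ g * 16 ≤ 2 ^ pQ c D := by
    have : ((2 ^ g * 2 ^ 4 : ℕ) : ℝ) ≤ ((2 ^ pQ c D : ℕ) : ℝ) := by exact_mod_cast h1
    push_cast at this
    linarith
  have h3 : (2 : ℝ) ^ pQ c D * ∑ p ∈ P, (1 / 2 : ℝ) ^ p.length ≤ 2 ^ pQ c D := by
    calc _ ≤ (2 : ℝ) ^ pQ c D * 1 := mul_le_mul_of_nonneg_left hK (by positivity)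
      _ = _ := mul_one _
  have h4 : ((a : ℝ) + 1) * 2 ^ g ≤ 2 ^ pQ c D := by
    have e1 : ((a : ℝ) + 1) * 2 ^ g = (a : ℝ) * 2 ^ g + 2 ^ g := by ring
    have e2 : (0 : ℝ) < 2 ^ pQ c D := by positivity
    rw [e1]
    linarith
  exact_mod_cast h4

theorem eventually_ready
    (hUc : ∀ p x, x ∈ U p → ∀ᶠ s in atTop, (p, x) ∈ (dat s).1.1)
    (hVc : ∀ p x, x ∈ V p → ∀ᶠ s in atTop, (p, x) ∈ (dat s).1.2)
    (hψc : ∀ q v, v ∈ ψ q → ∀ᶠ s in atTop, (q, v) ∈ (dat s).2)
    (hUs : ∀ s, ∀ e ∈ (dat s).1.1, e.2 ∈ U e.1)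
    (hVs : ∀ s, ∀ e ∈ (dat s).1.2, e.2 ∈ V e.1)
    (hUne : ∀ x, ∃ p, x ∈ U p)
    (hmain : ∀ x : Str, ∃ y : ℕ, y ∈ ψ (x, sInf (List.length '' {p : List Bool | x ∈ V p})) ∧
            sInf (List.length '' {p : List Bool | x ∈ U p}) ≤ y + c ∧
            y ≤ sInf (List.length '' {p : List Bool | x ∈ U p}) + c)
    {i g j : ℕ}
    (h1 : ∀ y < 2 ^ pn c D i, ∃ p, X (idx i g y) ∈ V p ∧
      p.length ≤ pQ c D + pn c D i + pO D - g)
    (h2 : j ≠ 0 → ∀ y < 2 ^ pn c D i, CU U (X (idx i g y)) (plam c D i (j - 1) + pO D)) :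
    ∀ᶠ s in atTop, ready c D (dat s) i g j := by
  have key : ∀ y ∈ Finset.range (2 ^ pn c D i), ∀ᶠ s in atTop,
      okx c (pQ c D + pn c D i + pO D - g) (dat s) (X (idx i g y)) ∧
      (j = 0 ∨ cle (dat s).1.1 (X (idx i g y)) (plam c D i (j - 1) + pO D)) := by
    intro y hy
    rw [Finset.mem_range] at hy
    set x := X (idx i g y) with hx
    obtain ⟨p0, hp0, hp0l⟩ := h1 y hy
    have hVne : (List.length '' {p : List Bool | x ∈ V p}).Nonempty := ⟨_, p0, hp0, rfl⟩
    have hUne' : (List.length '' {p : List Bool | x ∈ U p}).Nonempty := by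
      obtain ⟨p, hp⟩ := hUne x; exact ⟨_, p, hp, rfl⟩
    obtain ⟨v, hv, hv1, hv2⟩ := hmain x
    obtain ⟨pV, hpV, hpV'⟩ := Nat.sInf_mem hVne
    obtain ⟨pU, hpU, hpU'⟩ := Nat.sInf_mem hUne'
    have hlast : ∀ᶠ s in atTop, (j = 0 ∨ cle (dat s).1.1 x (plam c D i (j - 1) + pO D)) := by
      by_cases hj : j = 0
      · exact Eventually.of_forall fun _ => Or.inl hj
      · obtain ⟨p, hp, hpl⟩ := h2 hj y hy
        filter_upwards [hUc p x hp] with s hs
        exact Or.inr ⟨_, hs, rfl, hpl⟩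
    filter_upwards [hUc pU x hpU, hVc pV x hpV, hψc _ v hv, hlast] with s hsU hsV hsψ hsl
    refine ⟨⟨_, hsψ, rfl, ?_, ⟨_, hsV, rfl, hpV'.le⟩, ?_, ⟨_, hsU, rfl, ?_⟩, ?_⟩, hsl⟩
    · exact (Nat.sInf_le (Set.mem_image_of_mem List.length hp0)).trans hp0l
    · intro e he hex
      have := hVs s e he
      rw [hex] at this
      exact Nat.sInf_le (Set.mem_image_of_mem List.length this)
    · simp only; rw [hpU']; exact hv1
    · intro e he hex
      have := hUs s e he
      rw [hex] at this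
      exact hv2.trans (Nat.add_le_add_right
        (Nat.sInf_le (Set.mem_image_of_mem List.length this)) c)
  have := (Filter.eventually_all_finset (Finset.range (2 ^ pn c D i))).2 key
  filter_upwards [this] with s hs
  intro y hy
  exact hs y (Finset.mem_range.2 (List.mem_range.1 hy))

/-- the measure of progress -/
def mu (c D : ℕ) (q : ℕ × ℕ × ℕ × ℕ) : ℕ :=
  (q.1 * 2 ^ ((pE D + 1) * pH c D) + q.2.1) * pE D + q.2.2.1

theorem mu_step {s : ℕ}
    (h : Inv c D dat U V ψ s (stt c dat D s).1.1 (stt c dat D s).1.2.1 (stt c dat D s).1.2.2.1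
      (stt c dat D s).1.2.2.2 (stt c dat D s).2)
    (hr : ready c D (dat s) (stt c dat D s).1.1 (stt c dat D s).1.2.1
      (stt c dat D s).1.2.2.1) :
    mu c D (stt c dat D s).1 < mu c D (stt c dat D (s + 1)).1 := by
  have hj := h.hj
  have hg := g_bound h
  rw [stt_succ]
  generalize stt c dat D s = st at *
  obtain ⟨⟨i, g, j, a⟩, R⟩ := st
  unfold stepFn mu
  simp only at *
  rw [if_pos hr]
  split_ifs with h1 h2
  · simp only
    nlinarith
  · simp only [add_zero]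
    calc (i * 2 ^ ((pE D + 1) * pH c D) + g) * pE D + j
        < (i * 2 ^ ((pE D + 1) * pH c D) + g) * pE D + pE D := by omega
      _ = (i * 2 ^ ((pE D + 1) * pH c D) + (g + 1)) * pE D := by ring
      _ ≤ (i * 2 ^ ((pE D + 1) * pH c D) + 2 ^ ((pE D + 1) * pH c D)) * pE D :=
          Nat.mul_le_mul_right _ (Nat.add_le_add_left hg _)
      _ = _ := by ring
  · simp

theorem stt_stuck {s : ℕ} (h : ∀ s' ≥ s, ¬ ready c D (dat s') (stt c dat D s).1.1
    (stt c dat D s).1.2.1 (stt c dat D s).1.2.2.1) (k : ℕ) :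
    stt c dat D (s + k) = stt c dat D s := by
  induction k with
  | zero => rfl
  | succ k ih =>
    rw [← add_assoc, stt_succ, ih]
    unfold stepFn
    rw [if_neg (h _ (Nat.le_add_right _ _))]

/-- The contradiction, for a parameter `D` for which the two coding properties hold. -/
theorem contradiction
    (hUc : ∀ p x, x ∈ U p → ∀ᶠ s in atTop, (p, x) ∈ (dat s).1.1)
    (hVc : ∀ p x, x ∈ V p → ∀ᶠ s in atTop, (p, x) ∈ (dat s).1.2)
    (hψc : ∀ q v, v ∈ ψ q → ∀ᶠ s in atTop, (q, v) ∈ (dat s).2)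
    (hUs : ∀ s, ∀ e ∈ (dat s).1.1, e.2 ∈ U e.1)
    (hVs : ∀ s, ∀ e ∈ (dat s).1.2, e.2 ∈ V e.1)
    (hψs : ∀ s, ∀ t ∈ (dat s).2, t.2 ∈ ψ t.1)
    (hVm : ∀ s, ∀ e ∈ (dat s).1.2, e ∈ (dat (s + 1)).1.2)
    (hUne : ∀ x, ∃ p, x ∈ U p)
    (hVpf : ∀ p q : Str, (V p).Dom → (V q).Dom → p <+: q → p = q)
    (hmain : ∀ x : Str, ∃ y : ℕ, y ∈ ψ (x, sInf (List.length '' {p : List Bool | x ∈ V p})) ∧
            sInf (List.length '' {p : List Bool | x ∈ U p}) ≤ y + c ∧
            y ≤ sInf (List.length '' {p : List Bool | x ∈ U p}) + c)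
    (hM : ∀ x p, x ∈ MM c dat p → ∃ q, x ∈ U q ∧ q.length ≤ p.length + D)
    (hN : ∀ x p, x ∈ NN c dat p → ∃ q, x ∈ V q ∧ q.length ≤ p.length + D) : False := by
  have hinv := inv_all (c := c) (D := D) hUs hVs hψs hVm
  -- progress is made infinitely often
  have live : ∀ s, ∃ s' ≥ s, mu c D (stt c dat D s).1 < mu c D (stt c dat D s').1 := by
    intro s
    by_contra hcon
    push Not at hcon
    have hnr : ∀ s' ≥ s, ¬ ready c D (dat s') (stt c dat D s).1.1
        (stt c dat D s).1.2.1 (stt c dat D s).1.2.2.1 := by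
      by_contra hex
      push Not at hex
      obtain ⟨s1, hs1, hr1⟩ := hex
      -- take the first such time
      have hfind : ∃ k, ready c D (dat (s + k)) (stt c dat D s).1.1
        (stt c dat D s).1.2.1 (stt c dat D s).1.2.2.1 := ⟨s1 - s, by
          rw [Nat.add_sub_cancel' hs1]; exact hr1⟩
      have hk := Nat.find_spec hfind
      have hk' := fun m hm => Nat.find_min hfind (m := m) hm
      set k := Nat.find hfind with hkdef
      have hst : ∀ m ≤ k, stt c dat D (s + m) = stt c dat D s := by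
        intro m
        induction m with
        | zero => intro _; rfl
        | succ m ih =>
          intro hm
          rw [← add_assoc, stt_succ, ih (by omega)]
          unfold stepFn
          rw [if_neg (hk' m (by omega))]
      have h1 := mu_step (hinv (s + k)) (by rw [hst k le_rfl]; exact hk)
      rw [hst k le_rfl] at h1
      exact absurd (hcon (s + k + 1) (by omega)) (by omega)
    have hI := hinv s
    have hev := eventually_ready (c := c) (D := D) hUc hVc hψc hUs hVs hUne hmain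
      (i := (stt c dat D s).1.1) (g := (stt c dat D s).1.2.1) (j := (stt c dat D s).1.2.2.1)
      (by
        intro y hy
        obtain ⟨p, hp, hpx⟩ := NN_code (a_bound hVpf hI)
          (by have := g_bound hI; unfold pQ; omega) hy
        obtain ⟨q, hq, hql⟩ := hN _ _ hpx
        refine ⟨q, hq, ?_⟩
        unfold pO
        omega)
      (by
        intro hj y hy
        have h1 := hI.hR hj y hy
        have h2 := count_bound hI (j0 := (stt c dat D s).1.2.2.1 - 1) (by have := hI.hj; omega)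
        obtain ⟨p, hp, hpx⟩ := MM_code h1 h2
        obtain ⟨q, hq, hql⟩ := hM _ _ hpx
        refine ⟨q, hq, ?_⟩
        unfold pO
        omega)
    obtain ⟨s2, hs2⟩ := (hev.and (eventually_ge_atTop s)).exists
    exact hnr s2 hs2.2 hs2.1
  -- hence the measure is unbounded
  have unb : ∀ n, ∃ s, n ≤ mu c D (stt c dat D s).1 := by
    intro n
    induction n with
    | zero => exact ⟨0, Nat.zero_le _⟩
    | succ n ih =>
      obtain ⟨s, hs⟩ := ih
      obtain ⟨s', -, hs'⟩ := live s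
      exact ⟨s', by omega⟩
  obtain ⟨s, hs⟩ := unb ((2 ^ pQ c D * 2 ^ ((pE D + 1) * pH c D) +
    2 ^ ((pE D + 1) * pH c D)) * pE D + pE D)
  have hI := hinv s
  have h1 := g_bound hI
  have h2 := hI.hj
  have h3 := a_bound hVpf hI
  have h4 : (stt c dat D s).1.1 ≤ 2 ^ pQ c D := by
    refine hI.hi.trans (le_trans ?_ h3)
    exact Nat.mul_le_mul_right _ (Nat.le_succ _)
  unfold mu at hs
  have h5 : ((stt c dat D s).1.1 * 2 ^ ((pE D + 1) * pH c D) + (stt c dat D s).1.2.1) * pE D ≤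
      (2 ^ pQ c D * 2 ^ ((pE D + 1) * pH c D) + 2 ^ ((pE D + 1) * pH c D)) * pE D := by
    apply Nat.mul_le_mul_right
    apply Nat.add_le_add
    · exact Nat.mul_le_mul_right _ h4
    · omega
  omega

end

/-- stage-wise data from three enumerations -/
def mkdat (eU eV : ℕ → Option (Str × Str)) (eP : ℕ → Option ((Str × ℕ) × ℕ)) (s : ℕ) : Data :=
  (((List.range s).filterMap eU, (List.range s).filterMap eV), (List.range s).filterMap eP)

theorem prim_mkdat {eU eV : ℕ → Option (Str × Str)} {eP : ℕ → Option ((Str × ℕ) × ℕ)}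
    (hU : Primrec eU) (hV : Primrec eV) (hP : Primrec eP) : Primrec (mkdat eU eV eP) := by
  unfold mkdat
  refine ((Primrec.listFilterMap Primrec.list_range ?_).pair
    (Primrec.listFilterMap Primrec.list_range ?_)).pair
    (Primrec.listFilterMap Primrec.list_range ?_)
  · exact hU.comp Primrec.snd
  · exact hV.comp Primrec.snd
  · exact hP.comp Primrec.snd

theorem mem_fm {α : Type} {e : ℕ → Option α} {s : ℕ} {x : α} :
    x ∈ (List.range s).filterMap e ↔ ∃ t < s, e t = some x := by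
  simp [List.mem_filterMap]

theorem ev_fm {α : Type} {e : ℕ → Option α} {x : α} (h : ∃ t, e t = some x) :
    ∀ᶠ s in atTop, x ∈ (List.range s).filterMap e := by
  obtain ⟨t, ht⟩ := h
  filter_upwards [eventually_gt_atTop t] with s hs
  exact mem_fm.2 ⟨t, hs, ht⟩

/-- The negative answer. -/
theorem main :
    ¬ (∃ U V : List Bool →. List Bool,
      Partrec U ∧
      (∀ M : List Bool →. List Bool, Partrec M →
        ∃ c : ℕ, ∀ (x p : List Bool), x ∈ M p →
          ∃ q : List Bool, x ∈ U q ∧ q.length ≤ p.length + c) ∧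
      Partrec V ∧
      (∀ p q : List Bool, (V p).Dom → (V q).Dom → p <+: q → p = q) ∧
      (∀ M : List Bool →. List Bool, Partrec M →
        (∀ p q : List Bool, (M p).Dom → (M q).Dom → p <+: q → p = q) →
        ∃ c : ℕ, ∀ (x p : List Bool), x ∈ M p →
          ∃ q : List Bool, x ∈ V q ∧ q.length ≤ p.length + c) ∧
      ∃ ψ : List Bool × ℕ →. ℕ, Partrec ψ ∧
        ∃ c : ℕ, ∀ x : List Bool,
          ∃ y : ℕ, y ∈ ψ (x, sInf (List.length '' {p : List Bool | x ∈ V p})) ∧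
            sInf (List.length '' {p : List Bool | x ∈ U p}) ≤ y + c ∧
            y ≤ sInf (List.length '' {p : List Bool | x ∈ U p}) + c) := by
  rintro ⟨U, V, hU, hUopt, hV, hVpf, hVopt, ψ, hψ, c, hmain⟩
  obtain ⟨eU, hpU, heU⟩ := exists_enum hU
  obtain ⟨eV, hpV, heV⟩ := exists_enum hV
  obtain ⟨eP, hpP, heP⟩ := exists_enum hψ
  have hdat := prim_mkdat hpU hpV hpP
  obtain ⟨cM, hcM⟩ := hUopt _ (partrec_MM (c := c) hdat)
  obtain ⟨cN, hcN⟩ := hVopt _ (partrec_NN (c := c) hdat) NN_pf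
  obtain ⟨cI, hcI⟩ := hUopt (fun p => Part.some p) Computable.id.partrec
  refine contradiction (c := c) (D := max cM cN) (dat := mkdat eU eV eP) (U := U) (V := V)
    (ψ := ψ) ?_ ?_ ?_ ?_ ?_ ?_ ?_ ?_ hVpf hmain ?_ ?_
  · intro p x hx
    exact ev_fm ((heU p x).1 hx)
  · intro p x hx
    exact ev_fm ((heV p x).1 hx)
  · intro p x hx
    exact ev_fm ((heP p x).1 hx)
  · intro s e he
    obtain ⟨t, -, ht⟩ := mem_fm.1 he
    exact (heU e.1 e.2).2 ⟨t, ht⟩
  · intro s e he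
    obtain ⟨t, -, ht⟩ := mem_fm.1 he
    exact (heV e.1 e.2).2 ⟨t, ht⟩
  · intro s e he
    obtain ⟨t, -, ht⟩ := mem_fm.1 he
    exact (heP e.1 e.2).2 ⟨t, ht⟩
  · intro s e he
    obtain ⟨t, hts, ht⟩ := mem_fm.1 he
    exact mem_fm.2 ⟨t, by omega, ht⟩
  · intro x
    obtain ⟨q, hq, -⟩ := hcI x x (Part.mem_some x)
    exact ⟨q, hq⟩
  · intro x p hx
    obtain ⟨q, hq, hql⟩ := hcM x p hx
    exact ⟨q, hq, by have := le_max_left cM cN; omega⟩
  · intro x p hx
    obtain ⟨q, hq, hql⟩ := hcN x p hx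
    exact ⟨q, hq, by have := le_max_right cM cN; omega⟩

end Pool.Agent.Helper63.CK
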