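import Mathlib

set_option autoImplicit false

namespace Pool.Agent.Helper63.GLHall

open Finset

/-- Hall's theorem in the form needed. -/
theorem hall_core {L R : Type} [Fintype L] [DecidableEq L] [Fintype R] [DecidableEq R]
    (N K : ℕ) (hL : Fintype.card L = N) (hR : Fintype.card R = N)
    (bad : L → R → Prop) [∀ l r, Decidable (bad l r)]
    (M : ℕ) (hM : ((univ : Finset (L × R)).filter (fun p => bad p.1 p.2)).card ≤ M)
    (hK : M < (K + 1) * (N - K)) (hKN : K ≤ N)
    (h1 : ∀ l, ∃ r, ¬ bad l r)
    (h2 : ∀ l l', (univ.filter (fun r => ¬ bad l r)).card ≤ K →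
      (univ.filter (fun r => ¬ bad l' r)).card ≤ K → l = l')
    (h3 : ∀ r, K + 1 ≤ (univ.filter (fun l => ¬ bad l r)).card) :
    ∃ f : L → R, Function.Injective f ∧ ∀ l, ¬ bad l (f l) := by
  classical
  have key : ∀ S : Finset L, S.card ≤ (S.biUnion (fun l => univ.filter (fun r => ¬ bad l r))).card := by
    intro S
    by_contra hlt
    push Not at hlt
    set NS := S.biUnion (fun l => univ.filter (fun r => ¬ bad l r)) with hNS
    have hsub : S ×ˢ (univ \ NS) ⊆ (univ : Finset (L × R)).filter (fun p => bad p.1 p.2) := by
      intro p hp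
      rw [mem_product] at hp
      rw [mem_filter]
      refine ⟨mem_univ _, ?_⟩
      by_contra hb
      have := (mem_sdiff.1 hp.2).2
      apply this
      rw [hNS, mem_biUnion]
      exact ⟨p.1, hp.1, by simp [hb]⟩
    have hcard := (card_le_card hsub).trans hM
    rw [card_product, card_sdiff_of_subset (subset_univ _), card_univ, hR] at hcard
    have hSpos : 0 < S.card := lt_of_le_of_lt (Nat.zero_le _) hlt
    have hSN : S.card ≤ N := hL ▸ card_le_univ S
    have hNSN : NS.card ≤ N := hR ▸ card_le_univ NS
    -- case analysis
    by_cases hsmall : S.card ≤ K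
    · obtain ⟨l0, hl0⟩ := card_pos.1 hSpos
      have hdeg : ∀ l ∈ S, (univ.filter (fun r => ¬ bad l r)).card ≤ NS.card := by
        intro l hl
        apply card_le_card
        rw [hNS]
        exact subset_biUnion_of_mem (fun l => univ.filter (fun r => ¬ bad l r)) hl
      have hS1 : S = {l0} := by
        apply eq_singleton_iff_unique_mem.2
        refine ⟨hl0, ?_⟩
        intro l hl
        apply h2
        · have := hdeg l hl
          omega
        · have := hdeg l0 hl0
          omega
      have : S.card = 1 := by rw [hS1]; simp
      have hNS0 : NS.card = 0 := by omega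
      obtain ⟨r, hr⟩ := h1 l0
      have : r ∈ NS := by
        rw [hNS, mem_biUnion]
        exact ⟨l0, hl0, by simp [hr]⟩
      rw [card_eq_zero] at hNS0
      rw [hNS0] at this
      simp at this
    · push Not at hsmall
      by_cases hlarge : N - NS.card ≤ K
      · -- pick r outside NS
        have hne : (univ \ NS).Nonempty := by
          rw [← card_pos, card_sdiff_of_subset (subset_univ _), card_univ, hR]
          omega
        obtain ⟨r, hr⟩ := hne
        have hr' : ∀ l ∈ S, bad l r := by
          intro l hl
          by_contra hb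
          apply (mem_sdiff.1 hr).2
          rw [hNS, mem_biUnion]
          exact ⟨l, hl, by simp [hb]⟩
        have hsub2 : univ.filter (fun l => ¬ bad l r) ⊆ univ \ S := by
          intro l hl
          rw [mem_filter] at hl
          rw [mem_sdiff]
          exact ⟨mem_univ _, fun hS => hl.2 (hr' l hS)⟩
        have := card_le_card hsub2
        rw [card_sdiff_of_subset (subset_univ _), card_univ, hL] at this
        have := h3 r
        omega
      · push Not at hlarge
        -- both K + 1 ≤ S.card and K + 1 ≤ N - NS.card and S.card + (N - NS.card) ≥ N + 1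
        have e1 : K + 1 ≤ S.card := hsmall
        have e2 : K + 1 ≤ N - NS.card := hlarge
        have e3 : N + 1 ≤ S.card + (N - NS.card) := by omega
        obtain ⟨p, hp⟩ := Nat.exists_eq_add_of_le e1
        obtain ⟨q, hq⟩ := Nat.exists_eq_add_of_le e2
        rw [hp, hq] at hcard
        have e4 : N - K ≤ K + 1 + p + q := by omega
        have : (K + 1) * (N - K) ≤ (K + 1 + p) * (K + 1 + q) := by
          calc (K + 1) * (N - K) ≤ (K + 1) * (K + 1 + p + q) := Nat.mul_le_mul_left _ e4
            _ ≤ (K + 1 + p) * (K + 1 + q) := by nlinarith [Nat.zero_le (p * q)]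
        omega
  obtain ⟨f, hf, hf'⟩ := (Finset.all_card_le_biUnion_card_iff_exists_injective _).1 key
  exact ⟨f, hf, fun l => by simpa using hf' l⟩

end Pool.Agent.Helper63.GLHall
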