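import Mathlib

set_option autoImplicit false

/-!
Fractional colourings, replicated graphs and the imperfection ratio.
-/

namespace Pool.Agent.Helper63.Imp

open Finset Classical

universe u v

/-- `G` has a fractional colouring meeting the demands `x` with total weight at most `t`:
nonnegative weights on the stable sets of `G`, the stable sets containing `v` having total weight
at least `x v`. -/
def FC {V : Type u} [Fintype V] (G : SimpleGraph V) (x : V → ℝ) (t : ℝ) : Prop :=
  ∃ w : Finset V → ℝ, (∀ S, 0 ≤ w S) ∧ (∀ S : Finset V, w S ≠ 0 → G.IsIndepSet (S : Set V)) ∧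
    (∀ v, x v ≤ ∑ S, if v ∈ S then w S else 0) ∧ ∑ S, w S ≤ t

/-- The fractional chromatic number. -/
noncomputable def chif {V : Type u} [Fintype V] (G : SimpleGraph V) : ℝ :=
  sInf {t : ℝ | FC G (fun _ => 1) t}

/-- The replicated graph `G_x`: every node `v` is replaced by a clique of `x v` new nodes; new
nodes coming from distinct nodes `u`, `v` are adjacent exactly when `u` and `v` are. -/
def rep {V : Type u} (G : SimpleGraph V) (x : V → ℕ) : SimpleGraph (Σ v, Fin (x v)) where
  Adj a b := a ≠ b ∧ (a.1 = b.1 ∨ G.Adj a.1 b.1)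
  symm := ⟨fun _ _ h => ⟨h.1.symm, h.2.imp Eq.symm fun h => h.symm⟩⟩
  loopless := ⟨fun _ h => h.1 rfl⟩

/-- The imperfection ratio: the supremum of `χ_f(G_x)/ω(G_x)` over the nonzero integral demand
vectors `x`. -/
noncomputable def imp {V : Type u} [Fintype V] (G : SimpleGraph V) : ℝ :=
  ⨆ x : {x : V → ℕ // x ≠ 0}, chif (rep G x.1) / ((rep G x.1).cliqueNum : ℝ)

section FCbasic

variable {V : Type u} [Fintype V] {G : SimpleGraph V} {x y : V → ℝ} {s t : ℝ}

theorem FC.mono_t (h : FC G x s) (hst : s ≤ t) : FC G x t := by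
  obtain ⟨w, h1, h2, h3, h4⟩ := h
  exact ⟨w, h1, h2, h3, h4.trans hst⟩

theorem FC.mono_x (h : FC G x s) (hxy : ∀ v, y v ≤ x v) : FC G y s := by
  obtain ⟨w, h1, h2, h3, h4⟩ := h
  exact ⟨w, h1, h2, fun v => (hxy v).trans (h3 v), h4⟩

theorem FC.nonneg (h : FC G x t) : 0 ≤ t := by
  obtain ⟨w, h1, h2, h3, h4⟩ := h
  exact (Finset.sum_nonneg fun S _ => h1 S).trans h4

/-- a fractional colouring given by an indexed family of stable sets -/
theorem FC.of_family {ι : Type*} [Fintype ι] (S : ι → Finset V) (w : ι → ℝ)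
    (hw : ∀ i, 0 ≤ w i) (hS : ∀ i, w i ≠ 0 → G.IsIndepSet (S i : Set V))
    (hx : ∀ v, x v ≤ ∑ i, if v ∈ S i then w i else 0) (ht : ∑ i, w i ≤ t) : FC G x t := by
  refine ⟨fun T => ∑ i, if S i = T then w i else 0, ?_, ?_, ?_, ?_⟩
  · intro T
    exact Finset.sum_nonneg fun i _ => by split_ifs <;> [exact hw i; exact le_rfl]
  · intro T hT
    obtain ⟨i, -, hi⟩ := Finset.exists_ne_zero_of_sum_ne_zero hT
    split_ifs at hi with h
    · rw [← h]; exact hS i hi
    · exact absurd rfl hi
  · intro v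
    refine (hx v).trans (le_of_eq ?_)
    have : ∀ T : Finset V, (if v ∈ T then ∑ i, (if S i = T then w i else 0) else 0) =
        ∑ i, if S i = T then (if v ∈ T then w i else 0) else 0 := by
      intro T
      split_ifs with h
      · rfl
      · simp
    rw [Finset.sum_congr rfl fun T _ => this T, Finset.sum_comm]
    refine Finset.sum_congr rfl fun i _ => ?_
    rw [Finset.sum_ite_eq]
    simp
  · refine le_trans (le_of_eq ?_) ht
    rw [Finset.sum_comm]
    refine Finset.sum_congr rfl fun i _ => ?_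
    rw [Finset.sum_ite_eq]
    simp

theorem FC.add {x' : V → ℝ} {t' : ℝ} (h : FC G x t) (h' : FC G x' t') :
    FC G (fun v => x v + x' v) (t + t') := by
  obtain ⟨w, h1, h2, h3, h4⟩ := h
  obtain ⟨w', h1', h2', h3', h4'⟩ := h'
  refine ⟨fun S => w S + w' S, fun S => add_nonneg (h1 S) (h1' S), ?_, ?_, ?_⟩
  · intro S hS
    by_cases h : w S = 0
    · exact h2' S (by intro h'; exact hS (by simp [h, h']))
    · exact h2 S h
  · intro v
    have : (∑ S, if v ∈ S then w S + w' S else 0) =
        (∑ S, if v ∈ S then w S else 0) + ∑ S, if v ∈ S then w' S else 0 := by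
      rw [← Finset.sum_add_distrib]
      refine Finset.sum_congr rfl fun S _ => ?_
      split_ifs <;> simp
    rw [this]
    exact add_le_add (h3 v) (h3' v)
  · rw [Finset.sum_add_distrib]
    exact add_le_add h4 h4'

theorem FC.smul {c : ℝ} (hc : 0 ≤ c) (h : FC G x t) : FC G (fun v => c * x v) (c * t) := by
  obtain ⟨w, h1, h2, h3, h4⟩ := h
  refine ⟨fun S => c * w S, fun S => mul_nonneg hc (h1 S), ?_, ?_, ?_⟩
  · intro S hS
    exact h2 S (by intro h; exact hS (by simp [h]))
  · intro v
    have : (∑ S, if v ∈ S then c * w S else 0) = c * ∑ S, if v ∈ S then w S else 0 := by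
      rw [Finset.mul_sum]
      refine Finset.sum_congr rfl fun S _ => ?_
      split_ifs <;> simp
    rw [this]
    exact mul_le_mul_of_nonneg_left (h3 v) hc
  · rw [← Finset.mul_sum]
    exact mul_le_mul_of_nonneg_left h4 hc

theorem FC.zero : FC G (fun _ => 0) 0 :=
  ⟨fun _ => 0, fun _ => le_rfl, fun _ h => absurd rfl h, fun _ => by simp, by simp⟩

theorem FC.sum {ι : Type*} (s : Finset ι) (x : ι → V → ℝ) (t : ι → ℝ)
    (h : ∀ i ∈ s, FC G (x i) (t i)) : FC G (fun v => ∑ i ∈ s, x i v) (∑ i ∈ s, t i) := by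
  induction s using Finset.induction_on with
  | empty => simpa using FC.zero (G := G)
  | insert i s hi ih =>
    have h1 := (h i (Finset.mem_insert_self i s)).add
      (ih fun j hj => h j (Finset.mem_insert_of_mem hj))
    rw [Finset.sum_insert hi]
    refine h1.mono_x fun v => ?_
    rw [Finset.sum_insert hi]

/-- a demand that is the indicator of a stable set -/
theorem FC.indicator (S : Finset V) (hS : G.IsIndepSet (S : Set V)) :
    FC G (fun v => if v ∈ S then 1 else 0) 1 :=
  FC.of_family (fun _ : Unit => S) (fun _ => 1) (fun _ => zero_le_one) (fun _ _ => hS)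
    (fun v => by simp) (by simp)

theorem FC.of_nonneg (hx : ∀ v, 0 ≤ x v) : FC G x (∑ v, x v) := by
  have := FC.sum (G := G) Finset.univ (fun (u : V) v => x u * if v ∈ ({u} : Finset V) then 1 else 0)
    (fun u => x u * 1) (fun u _ => (FC.indicator {u} (by simp)).smul (hx u))
  refine FC.mono_x (this.mono_t (by simp)) fun v => ?_
  simp

/-- the closedness of the set of totals: the infimum is attained -/
theorem FC.closed (h : ∀ ε > 0, FC G x (t + ε)) : FC G x t := by
  set F : Set (Finset V → ℝ) := {w | (∀ S, 0 ≤ w S) ∧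
    (∀ S : Finset V, ¬ G.IsIndepSet (S : Set V) → w S = 0) ∧
    (∀ v, x v ≤ ∑ S, if v ∈ S then w S else 0) ∧ ∑ S, w S ≤ t + 1} with hF
  have hcl : IsClosed F := by
    have e1 : IsClosed {w : Finset V → ℝ | ∀ S, 0 ≤ w S} := by
      simp only [Set.ofPred_forall]
      exact isClosed_iInter fun S => isClosed_le continuous_const (continuous_apply S)
    have e2 : IsClosed {w : Finset V → ℝ |
        ∀ S : Finset V, ¬ G.IsIndepSet (S : Set V) → w S = 0} := by
      simp only [Set.ofPred_forall]
      exact isClosed_iInter fun S => isClosed_iInter fun _ =>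
        isClosed_eq (continuous_apply S) continuous_const
    have e3 : IsClosed {w : Finset V → ℝ | ∀ v, x v ≤ ∑ S, if v ∈ S then w S else 0} := by
      simp only [Set.ofPred_forall]
      refine isClosed_iInter fun v => isClosed_le continuous_const ?_
      refine continuous_finsetSum _ fun S _ => ?_
      split_ifs
      · exact continuous_apply S
      · exact continuous_const
    have e4 : IsClosed {w : Finset V → ℝ | ∑ S, w S ≤ t + 1} :=
      isClosed_le (continuous_finsetSum _ fun S _ => continuous_apply S) continuous_const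
    have e5 : F = ({w : Finset V → ℝ | ∀ S, 0 ≤ w S} ∩ {w : Finset V → ℝ |
        ∀ S : Finset V, ¬ G.IsIndepSet (S : Set V) → w S = 0}) ∩
        ({w : Finset V → ℝ | ∀ v, x v ≤ ∑ S, if v ∈ S then w S else 0} ∩
          {w : Finset V → ℝ | ∑ S, w S ≤ t + 1}) := by
      ext w; simp only [hF, Set.mem_inter_iff, Set.mem_ofPred_eq]; tauto
    rw [e5]
    exact (e1.inter e2).inter (e3.inter e4)
  have hbd : F ⊆ Set.pi Set.univ fun _ => Set.Icc (0 : ℝ) (t + 1) := by
    rintro w ⟨h1, -, -, h4⟩ S -
    exact ⟨h1 S, (Finset.single_le_sum (fun S _ => h1 S) (Finset.mem_univ S)).trans h4⟩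
  have hcpt : IsCompact F :=
    (isCompact_univ_pi fun _ => isCompact_Icc).of_isClosed_subset hcl hbd
  have hmem : ∀ ε > 0, ε ≤ 1 → ∃ w ∈ F, ∑ S, w S ≤ t + ε := by
    intro ε hε hε1
    obtain ⟨w, h1, h2, h3, h4⟩ := h ε hε
    refine ⟨w, ⟨h1, fun S hS => ?_, h3, by linarith⟩, h4⟩
    by_contra hne
    exact hS (h2 S hne)
  obtain ⟨w0, hw0, -⟩ := hmem 1 one_pos le_rfl
  obtain ⟨w, hwF, hwmin⟩ := hcpt.exists_isMinOn ⟨w0, hw0⟩
    (f := fun w : Finset V → ℝ => ∑ S, w S)
    (continuous_finsetSum _ fun S _ => continuous_apply S).continuousOn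
  refine ⟨w, hwF.1, fun S hS => ?_, hwF.2.2.1, ?_⟩
  · by_contra hne
    exact hS (hwF.2.1 S hne)
  · apply le_of_forall_pos_le_add
    intro ε hε
    obtain ⟨w', hw'F, hw'⟩ := hmem (min ε 1) (lt_min hε one_pos) (min_le_right _ _)
    have h1 : ∑ S, w S ≤ ∑ S, w' S := hwmin hw'F
    have h2 := min_le_left ε 1
    linarith

theorem chif_le_iff : chif G ≤ t ↔ FC G (fun _ => 1) t := by
  have hbdd : BddBelow {t : ℝ | FC G (fun _ => 1) t} := ⟨0, fun s hs => FC.nonneg hs⟩
  have hne : {t : ℝ | FC G (fun _ => 1) t}.Nonempty :=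
    ⟨_, FC.of_nonneg fun _ => zero_le_one⟩
  constructor
  · intro h
    apply FC.closed
    intro ε hε
    obtain ⟨s, hs, hs'⟩ := exists_lt_of_csInf_lt hne
      (lt_of_le_of_lt h (lt_add_of_pos_right t hε))
    exact FC.mono_t hs hs'.le
  · intro h
    exact csInf_le hbdd h

end FCbasic

end Pool.Agent.Helper63.Imp
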