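import Mathlib
import Pool.Agent.Helper63.ImpBasic

set_option autoImplicit false

/-!
Substitution lemmas; weighted clique numbers; lexicographic products.
-/

namespace Pool.Agent.Helper63.Imp

open Finset Classical

universe u v

section

variable {V : Type u} [Fintype V] {X : Type v} [Fintype X]

/-- expectation of a function of one coordinate under a product measure -/
theorem exp_coord {ι : Type*} {κ : Type*} [Fintype ι] [Fintype κ] (P : ι → κ → ℝ)
    (hP : ∀ i, ∑ k, P i k = 1) (i0 : ι) (f : κ → ℝ) :
    ∑ c : ι → κ, (∏ i, P i (c i)) * f (c i0) = ∑ k, P i0 k * f k := by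
  have h1 : ∀ c : ι → κ, (∏ i, P i (c i)) * f (c i0) =
      ∏ i, (P i (c i) * if i = i0 then f (c i) else 1) := by
    intro c
    rw [Finset.prod_mul_distrib]
    congr 1
    rw [Finset.prod_ite_eq' Finset.univ i0 (fun i => f (c i))]
    simp
  rw [Finset.sum_congr rfl fun c _ => h1 c]
  have h2 := Finset.prod_univ_sum (fun _ : ι => (Finset.univ : Finset κ))
    (fun i k => P i k * if i = i0 then f k else 1)
  rw [Fintype.piFinset_univ] at h2
  rw [← h2, ← Finset.mul_prod_erase Finset.univ _ (Finset.mem_univ i0)]
  simp only [if_true]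
  rw [Finset.prod_eq_one, mul_one]
  intro i hi
  rw [Finset.mem_erase] at hi
  simp [hi.1, hP i]

/-- a normalised fractional colouring -/
theorem FC.normal {G : SimpleGraph X} {x : X → ℝ} {Y : ℝ} (h : FC G x Y) :
    ∃ P : Finset X → ℝ, (∀ S, 0 ≤ P S) ∧ (∀ S : Finset X, P S ≠ 0 → G.IsIndepSet (S : Set X)) ∧
      (∀ a, x a ≤ Y * ∑ S, if a ∈ S then P S else 0) ∧ ∑ S, P S = 1 := by
  obtain ⟨w, h1, h2, h3, h4⟩ := h
  rcases (Finset.sum_nonneg fun S (_ : S ∈ Finset.univ) => h1 S).eq_or_lt with h0 | h0
  · refine ⟨fun S => if S = ∅ then 1 else 0, ?_, ?_, ?_, ?_⟩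
    · intro S; simp only; split_ifs <;> norm_num
    · intro S hS
      simp only at hS
      split_ifs at hS with h
      · rw [h]; simp
      · exact absurd rfl hS
    · intro a
      have hw : ∀ S, w S = 0 := fun S =>
        (Finset.sum_eq_zero_iff_of_nonneg fun S _ => h1 S).1 h0.symm S (Finset.mem_univ S)
      have h5 : (∑ S : Finset X, if a ∈ S then (if S = ∅ then (1 : ℝ) else 0) else 0) = 0 := by
        apply Finset.sum_eq_zero
        intro S _
        split_ifs with h6 h7
        · rw [h7] at h6; simp at h6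
        · rfl
        · rfl
      have h6 := h3 a
      simp only [hw, ite_self, Finset.sum_const_zero] at h6
      rw [h5, mul_zero]
      exact h6
    · rw [Finset.sum_ite_eq']; simp
  · set τ := ∑ S, w S with hτ
    refine ⟨fun S => w S / τ, fun S => div_nonneg (h1 S) h0.le, ?_, ?_, ?_⟩
    · intro S hS
      exact h2 S (by intro h; exact hS (by simp [h]))
    · intro a
      have h5 : (∑ S : Finset X, if a ∈ S then w S / τ else 0) =
          (∑ S : Finset X, if a ∈ S then w S else 0) / τ := by
        rw [Finset.sum_div]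
        refine Finset.sum_congr rfl fun S _ => ?_
        split_ifs <;> simp
      rw [h5]
      have h6 : 0 ≤ ∑ S : Finset X, if a ∈ S then w S else 0 :=
        Finset.sum_nonneg fun S _ => by split_ifs <;> [exact h1 S; exact le_rfl]
      calc x a ≤ ∑ S : Finset X, if a ∈ S then w S else 0 := h3 a
        _ = τ * ((∑ S : Finset X, if a ∈ S then w S else 0) / τ) := by field_simp
        _ ≤ Y * ((∑ S : Finset X, if a ∈ S then w S else 0) / τ) :=
            mul_le_mul_of_nonneg_right h4 (div_nonneg h6 h0.le)
    · rw [← Finset.sum_div, ← hτ, div_self h0.ne']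

/-- Substitution, upper bound. -/
theorem FC.substitute {H : SimpleGraph V} {G : SimpleGraph X} (π : X → V)
    (hπ : ∀ a b, G.Adj a b → π a = π b ∨ H.Adj (π a) (π b))
    {x : X → ℝ} {Y : V → ℝ} {T : ℝ} (hH : FC H Y T)
    (hB : ∀ v, FC G (fun a => if π a = v then x a else 0) (Y v)) : FC G x T := by
  obtain ⟨μ, m1, m2, m3, m4⟩ := hH
  choose P p1 p2 p3 p4 using fun v => (hB v).normal
  refine FC.of_family (ι := Finset V × (V → Finset X))
    (fun q => Finset.univ.filter fun a => π a ∈ q.1 ∧ a ∈ q.2 (π a))
    (fun q => μ q.1 * ∏ v, P v (q.2 v)) ?_ ?_ ?_ ?_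
  · intro q
    exact mul_nonneg (m1 _) (Finset.prod_nonneg fun v _ => p1 v _)
  · rintro ⟨S, c⟩ hq
    simp only at hq
    have hμ : μ S ≠ 0 := left_ne_zero_of_mul hq
    have hP : ∀ v, P v (c v) ≠ 0 := by
      intro v hv
      exact right_ne_zero_of_mul hq (Finset.prod_eq_zero (Finset.mem_univ v) hv)
    intro a ha b hb hab hadj
    simp only [Finset.coe_filter, Finset.mem_univ, true_and, Set.mem_ofPred_eq] at ha hb
    rcases hπ a b hadj with h | h
    · rw [← h] at hb
      exact p2 (π a) (c (π a)) (hP (π a)) ha.2 hb.2 hab hadj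
    · exact m2 S hμ ha.1 hb.1 (H.ne_of_adj h) h
  · intro a
    have h1 : (∑ q : Finset V × (V → Finset X),
        if a ∈ (Finset.univ.filter fun a => π a ∈ q.1 ∧ a ∈ q.2 (π a)) then
          μ q.1 * ∏ v, P v (q.2 v) else 0) =
        (∑ S, if π a ∈ S then μ S else 0) * ∑ S, if a ∈ S then P (π a) S else 0 := by
      have h2 := exp_coord P p4 (π a) (fun S => if a ∈ S then (1 : ℝ) else 0)
      have h3 : (∑ S, if a ∈ S then P (π a) S else 0) =
          ∑ S, P (π a) S * (if a ∈ S then (1 : ℝ) else 0) :=
        Finset.sum_congr rfl fun S _ => by split_ifs <;> simp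
      rw [h3, ← h2, Finset.sum_mul_sum, ← Finset.univ_product_univ, Finset.sum_product]
      refine Finset.sum_congr rfl fun S _ => Finset.sum_congr rfl fun c _ => ?_
      simp only [Finset.mem_filter, Finset.mem_univ, true_and]
      by_cases hS : π a ∈ S <;> by_cases hc : a ∈ c (π a) <;> simp [hS, hc]
    rw [h1]
    have h5 := p3 (π a) a
    simp only [if_true] at h5
    refine h5.trans ?_
    apply mul_le_mul_of_nonneg_right (m3 (π a))
    exact Finset.sum_nonneg fun S _ => by split_ifs <;> [exact p1 _ S; exact le_rfl]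
  · rw [← Finset.univ_product_univ, Finset.sum_product]
    simp only
    have h1 : ∑ c : V → Finset X, ∏ v, P v (c v) = 1 := by
      have h2 := Finset.prod_univ_sum (fun _ : V => (Finset.univ : Finset (Finset X)))
        (fun v S => P v S)
      rw [Fintype.piFinset_univ] at h2
      rw [← h2]
      exact Finset.prod_eq_one fun v _ => p4 v
    calc ∑ S, ∑ c : V → Finset X, μ S * ∏ v, P v (c v)
        = ∑ S, μ S * ∑ c : V → Finset X, ∏ v, P v (c v) :=
          Finset.sum_congr rfl fun S _ => (Finset.mul_sum _ _ _).symm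
      _ = ∑ S, μ S := by simp [h1]
      _ ≤ T := m4

/-- Substitution, lower bound. -/
theorem FC.project {H : SimpleGraph V} {G : SimpleGraph X} (π : X → V)
    (hπ : ∀ a b, H.Adj (π a) (π b) → G.Adj a b)
    {x : X → ℝ} {χ : V → ℝ} {T : ℝ} (hG : FC G x T)
    (hB : ∀ v t, FC G (fun a => if π a = v then x a else 0) t → χ v ≤ t) : FC H χ T := by
  obtain ⟨w, w1, w2, w3, w4⟩ := hG
  refine FC.of_family (ι := Finset X) (fun S => S.image π) w w1 ?_ ?_ w4
  · intro S hS u hu v hv _ hadj
    simp only [Finset.coe_image, Set.mem_image, Finset.mem_coe] at hu hv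
    obtain ⟨a, ha, rfl⟩ := hu
    obtain ⟨b, hb, rfl⟩ := hv
    have h1 := hπ a b hadj
    exact w2 S hS ha hb (G.ne_of_adj h1) h1
  · intro v
    apply hB v
    refine ⟨fun S => if v ∈ S.image π then w S else 0, ?_, ?_, ?_, ?_⟩
    · intro S; simp only; split_ifs <;> [exact w1 S; exact le_rfl]
    · intro S hS
      refine w2 S fun h => hS ?_
      simp [h]
    · intro a
      simp only
      split_ifs with h
      · refine (w3 a).trans (Finset.sum_le_sum fun S _ => ?_)
        by_cases ha : a ∈ S
        · have : v ∈ S.image π := Finset.mem_image.2 ⟨a, ha, h⟩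
          simp [ha, this]
        · simp [ha]
      · exact Finset.sum_nonneg fun S _ => by
          split_ifs <;> [exact w1 S; exact le_rfl; exact le_rfl]
    · exact le_rfl

end

/-! ### replicated graphs -/

section rep

variable {V : Type u} [Fintype V] {G : SimpleGraph V}

theorem FC_rep_iff (x : V → ℕ) (T : ℝ) :
    FC (rep G x) (fun _ => 1) T ↔ FC G (fun v => (x v : ℝ)) T := by
  constructor
  · intro h
    refine FC.project (G := rep G x) (H := G) Sigma.fst ?_ h ?_
    · intro a b hab
      refine ⟨fun h => ?_, Or.inr hab⟩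
      rw [h] at hab
      exact G.irrefl hab
    · intro v t hv
      obtain ⟨w, w1, w2, w3, w4⟩ := hv
      have h1 : (x v : ℝ) ≤ ∑ i : Fin (x v), ∑ S : Finset (Σ v, Fin (x v)),
          if (⟨v, i⟩ : Σ v, Fin (x v)) ∈ S then w S else 0 := by
        calc (x v : ℝ) = ∑ i : Fin (x v), (1 : ℝ) := by simp
          _ ≤ _ := Finset.sum_le_sum fun i _ => by
              have h := w3 ⟨v, i⟩
              simp only [if_true] at h
              refine h.trans (le_of_eq (Finset.sum_congr rfl fun S _ => ?_))
              congr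
      rw [Finset.sum_comm] at h1
      refine h1.trans (le_trans (Finset.sum_le_sum fun S _ => ?_) w4)
      by_cases hS : w S = 0
      · simp [hS]
      · have hind := w2 S hS
        by_cases hex : ∃ i : Fin (x v), (⟨v, i⟩ : Σ v, Fin (x v)) ∈ S
        · obtain ⟨i, hi⟩ := hex
          have : ∀ j : Fin (x v), (⟨v, j⟩ : Σ v, Fin (x v)) ∈ S ↔ j = i := by
            intro j
            constructor
            · intro hj
              by_contra hne
              have hne' : (⟨v, j⟩ : Σ v, Fin (x v)) ≠ ⟨v, i⟩ := by
                intro h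
                rw [Sigma.mk.injEq] at h
                exact hne (eq_of_heq h.2)
              exact hind hj hi hne' ⟨hne', Or.inl rfl⟩
            · rintro rfl; exact hi
          simp [this]
        · push Not at hex
          simp only [hex, if_false, Finset.sum_const_zero]
          exact w1 S
  · intro h
    refine FC.substitute (G := rep G x) (H := G) Sigma.fst ?_ h ?_
    · intro a b hab
      exact hab.2
    · intro v
      refine FC.of_family (ι := Fin (x v)) (fun i => {⟨v, i⟩}) (fun _ => 1) (fun _ => zero_le_one)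
        (fun i _ => by simp) ?_ (by simp)
      rintro ⟨u, j⟩
      simp only [Finset.mem_singleton]
      split_ifs with hu
      · subst hu
        have : ∀ i : Fin (x u), ((⟨u, j⟩ : Σ v, Fin (x v)) = ⟨u, i⟩) ↔ i = j := by
          intro i
          rw [Sigma.mk.injEq]
          constructor
          · rintro ⟨-, h⟩; exact (eq_of_heq h).symm
          · rintro rfl; exact ⟨rfl, HEq.rfl⟩
        simp [this]
      · exact Finset.sum_nonneg fun i _ => by split_ifs <;> norm_num

/-- weighted clique number -/
noncomputable def wcl (G : SimpleGraph V) (x : V → ℕ) : ℕ :=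
  (Finset.univ.filter fun K : Finset V => G.IsClique (K : Set V)).sup fun K => ∑ v ∈ K, x v

theorem le_wcl {x : V → ℕ} {K : Finset V} (hK : G.IsClique (K : Set V)) :
    ∑ v ∈ K, x v ≤ wcl G x :=
  Finset.le_sup (f := fun K => ∑ v ∈ K, x v) (Finset.mem_filter.2 ⟨Finset.mem_univ K, hK⟩)

theorem exists_wcl (G : SimpleGraph V) (x : V → ℕ) :
    ∃ K : Finset V, G.IsClique (K : Set V) ∧ wcl G x = ∑ v ∈ K, x v := by
  have hne : (Finset.univ.filter fun K : Finset V => G.IsClique (K : Set V)).Nonempty :=
    ⟨∅, by simp⟩
  obtain ⟨K, hK, hK'⟩ := Finset.exists_mem_eq_sup _ hne fun K => ∑ v ∈ K, x v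
  exact ⟨K, (Finset.mem_filter.1 hK).2, hK'⟩

theorem cliqueNum_rep (x : V → ℕ) : (rep G x).cliqueNum = wcl G x := by
  apply le_antisymm
  · obtain ⟨s, hs⟩ := (rep G x).exists_isNClique_cliqueNum
    rw [← hs.card_eq]
    have hK : G.IsClique ((s.image Sigma.fst : Finset V) : Set V) := by
      intro u hu v hv huv
      simp only [Finset.coe_image, Set.mem_image, Finset.mem_coe] at hu hv
      obtain ⟨a, ha, rfl⟩ := hu
      obtain ⟨b, hb, rfl⟩ := hv
      have hab : a ≠ b := fun h => huv (by rw [h])
      rcases (hs.isClique ha hb hab).2 with h | h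
      · exact absurd h huv
      · exact h
    refine le_trans ?_ (le_wcl hK)
    have h1 : s ⊆ (s.image Sigma.fst).sigma fun v => (Finset.univ : Finset (Fin (x v))) := by
      intro a ha
      rw [Finset.mem_sigma]
      exact ⟨Finset.mem_image_of_mem _ ha, Finset.mem_univ _⟩
    refine (Finset.card_le_card h1).trans ?_
    rw [Finset.card_sigma]
    simp
  · obtain ⟨K, hK, hK'⟩ := exists_wcl G x
    have h1 : (rep G x).IsClique
        ((K.sigma fun v => (Finset.univ : Finset (Fin (x v))) : Finset (Σ v, Fin (x v))) :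
          Set (Σ v, Fin (x v))) := by
      intro a ha b hb hab
      simp only [Finset.mem_coe, Finset.mem_sigma, Finset.mem_univ, and_true] at ha hb
      refine ⟨hab, ?_⟩
      by_cases h : a.1 = b.1
      · exact Or.inl h
      · exact Or.inr (hK ha hb h)
    have h2 := SimpleGraph.IsClique.card_le_cliqueNum (tc := h1)
    rw [Finset.card_sigma] at h2
    rw [hK']
    simpa using h2

theorem wcl_pos {x : V → ℕ} (hx : x ≠ 0) : 0 < wcl G x := by
  obtain ⟨v, hv⟩ := Function.ne_iff.1 hx
  have := le_wcl (G := G) (x := x) (K := {v}) (by simp)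
  simp only [Finset.sum_singleton] at this
  have h : 0 < x v := Nat.pos_of_ne_zero hv
  omega

theorem bddAbove_imp (G : SimpleGraph V) : BddAbove (Set.range fun x : {x : V → ℕ // x ≠ 0} =>
    chif (rep G x.1) / ((rep G x.1).cliqueNum : ℝ)) := by
  refine ⟨Fintype.card V, ?_⟩
  rintro _ ⟨⟨x, hx⟩, rfl⟩
  simp only
  rw [cliqueNum_rep, div_le_iff₀ (by exact_mod_cast wcl_pos hx), chif_le_iff, FC_rep_iff]
  refine (FC.of_nonneg (G := G) (x := fun v => (x v : ℝ)) fun v => Nat.cast_nonneg _).mono_t ?_
  calc ∑ v, (x v : ℝ) ≤ ∑ v : V, (wcl G x : ℝ) := Finset.sum_le_sum fun v _ => by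
        have := le_wcl (G := G) (x := x) (K := {v}) (by simp)
        simp only [Finset.sum_singleton] at this
        exact_mod_cast this
    _ = _ := by simp

theorem chif_nonneg {W : Type*} [Fintype W] (G : SimpleGraph W) : 0 ≤ chif G :=
  Real.sInf_nonneg fun _ h => FC.nonneg h

theorem imp_nonneg (G : SimpleGraph V) : 0 ≤ imp G :=
  Real.iSup_nonneg fun _ => div_nonneg (chif_nonneg _) (Nat.cast_nonneg _)

/-- The imperfection ratio is at most `t` iff all demands can be met with total at most
`t` times the weighted clique number. -/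
theorem imp_le_iff {t : ℝ} (ht : 0 ≤ t) :
    imp G ≤ t ↔ ∀ x : V → ℕ, FC G (fun v => (x v : ℝ)) (t * wcl G x) := by
  constructor
  · intro h x
    by_cases hx : x = 0
    · subst hx
      have := FC.zero (G := G)
      refine (this.mono_t (mul_nonneg ht (Nat.cast_nonneg _))).mono_x fun v => by simp
    · have h1 := (le_ciSup (bddAbove_imp G) ⟨x, hx⟩).trans h
      simp only at h1
      rw [cliqueNum_rep, div_le_iff₀ (by exact_mod_cast wcl_pos hx), chif_le_iff, FC_rep_iff] at h1
      exact h1
  · intro h
    apply Real.iSup_le _ ht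
    rintro ⟨x, hx⟩
    simp only
    rw [cliqueNum_rep, div_le_iff₀ (by exact_mod_cast wcl_pos hx), chif_le_iff, FC_rep_iff]
    exact h x

theorem imp_spec (x : V → ℕ) : FC G (fun v => (x v : ℝ)) (imp G * wcl G x) :=
  (imp_le_iff (imp_nonneg G)).1 le_rfl x

end rep

/-! ### lexicographic products -/

section lex

variable {V : Type u} {W : Type v}

/-- The lexicographic product `H[B]`: every node of `H` is replaced by a copy of `B`. -/
def lex (H : SimpleGraph V) (B : SimpleGraph W) : SimpleGraph (V × W) where
  Adj a b := H.Adj a.1 b.1 ∨ (a.1 = b.1 ∧ B.Adj a.2 b.2)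
  symm := ⟨fun _ _ h => h.imp (fun h => h.symm) fun h => ⟨h.1.symm, h.2.symm⟩⟩
  loopless := ⟨fun _ h => h.elim (fun h => H.irrefl h) fun h => B.irrefl h.2⟩

variable [Fintype V] [Fintype W] {H : SimpleGraph V} {B : SimpleGraph W}

theorem FC_fiber_iff (v : V) (x : W → ℝ) (t : ℝ) :
    FC (lex H B) (fun a => if a.1 = v then x a.2 else 0) t ↔ FC B x t := by
  constructor
  · rintro ⟨w, w1, w2, w3, w4⟩
    refine FC.of_family (ι := Finset (V × W))
      (fun S => Finset.univ.filter fun b => (v, b) ∈ S) w w1 ?_ ?_ w4
    · intro S hS a ha b hb hab hadj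
      simp only [Finset.coe_filter, Finset.mem_univ, true_and, Set.mem_ofPred_eq] at ha hb
      exact w2 S hS ha hb (by simpa using hab) (Or.inr ⟨rfl, hadj⟩)
    · intro b
      have h := w3 (v, b)
      simp only [if_true] at h
      refine h.trans (le_of_eq (Finset.sum_congr rfl fun S _ => ?_))
      simp only [Finset.mem_filter, Finset.mem_univ, true_and]
      congr
  · rintro ⟨w, w1, w2, w3, w4⟩
    refine FC.of_family (ι := Finset W) (fun S => S.image fun b => (v, b)) w w1 ?_ ?_ w4
    · intro S hS a ha b hb hab hadj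
      simp only [Finset.coe_image, Set.mem_image, Finset.mem_coe] at ha hb
      obtain ⟨a', ha', rfl⟩ := ha
      obtain ⟨b', hb', rfl⟩ := hb
      rcases hadj with h | h
      · exact H.irrefl h
      · exact w2 S hS ha' hb' (fun h => hab (by rw [h])) h.2
    · rintro ⟨u, b⟩
      simp only
      split_ifs with hu
      · subst hu
        refine (w3 b).trans (le_of_eq (Finset.sum_congr rfl fun S _ => ?_))
        have : (u, b) ∈ S.image (fun b => (u, b)) ↔ b ∈ S := by simp
        simp only [this]
      · exact Finset.sum_nonneg fun S _ => by split_ifs <;> [exact w1 S; exact le_rfl]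

theorem wcl_mul_right (x : V → ℕ) (c : ℕ) : wcl H (fun v => x v * c) = wcl H x * c := by
  apply le_antisymm
  · obtain ⟨K, hK, hK'⟩ := exists_wcl H fun v => x v * c
    rw [hK', ← Finset.sum_mul]
    exact Nat.mul_le_mul_right _ (le_wcl hK)
  · obtain ⟨K, hK, hK'⟩ := exists_wcl H x
    rw [hK', Finset.sum_mul]
    exact le_wcl (x := fun v => x v * c) hK

theorem wcl_lex (x : V × W → ℕ) :
    wcl (lex H B) x = wcl H fun h => wcl B fun b => x (h, b) := by
  apply le_antisymm
  · obtain ⟨K, hK, hK'⟩ := exists_wcl (lex H B) x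
    rw [hK']
    have h1 : H.IsClique ((K.image Prod.fst : Finset V) : Set V) := by
      intro u hu v hv huv
      simp only [Finset.coe_image, Set.mem_image, Finset.mem_coe] at hu hv
      obtain ⟨a, ha, rfl⟩ := hu
      obtain ⟨b, hb, rfl⟩ := hv
      have hab : a ≠ b := fun h => huv (by rw [h])
      rcases hK ha hb hab with h | h
      · exact h
      · exact absurd h.1 huv
    refine le_trans ?_ (le_wcl h1)
    rw [← Finset.sum_fiberwise_of_maps_to (g := Prod.fst) (t := K.image Prod.fst)
      (fun a ha => Finset.mem_image_of_mem _ ha)]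
    refine Finset.sum_le_sum fun v _ => ?_
    have h2 : B.IsClique (((K.filter fun a => a.1 = v).image Prod.snd : Finset W) : Set W) := by
      intro b hb b' hb' hbb
      simp only [Finset.coe_image, Set.mem_image, Finset.coe_filter, Set.mem_ofPred_eq] at hb hb'
      obtain ⟨a, ⟨ha, hav⟩, rfl⟩ := hb
      obtain ⟨a', ⟨ha', hav'⟩, rfl⟩ := hb'
      have hab : a ≠ a' := fun h => hbb (by rw [h])
      rcases hK ha ha' hab with h | h
      · rw [hav, hav'] at h
        exact absurd h (H.irrefl)
      · exact h.2
    refine le_trans (le_of_eq ?_) (le_wcl h2)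
    rw [Finset.sum_image]
    · refine Finset.sum_congr rfl fun a ha => ?_
      rw [Finset.mem_filter] at ha
      rw [← ha.2]
    · intro a ha a' ha' h
      simp only [Finset.coe_filter, Set.mem_ofPred_eq] at ha ha'
      exact Prod.ext (ha.2.trans ha'.2.symm) h
  · obtain ⟨K, hK, hK'⟩ := exists_wcl H fun h => wcl B fun b => x (h, b)
    rw [hK']
    choose L hL hL' using fun h : V => exists_wcl B fun b => x (h, b)
    have h1 : (lex H B).IsClique
        (((K.sigma L).image fun q : Σ _ : V, W => (q.1, q.2) : Finset (V × W)) :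
          Set (V × W)) := by
      intro a ha b hb hab
      simp only [Finset.coe_image, Set.mem_image, Finset.mem_coe, Finset.mem_sigma] at ha hb
      obtain ⟨a', ⟨ha1, ha2⟩, rfl⟩ := ha
      obtain ⟨b', ⟨hb1, hb2⟩, rfl⟩ := hb
      by_cases h : a'.1 = b'.1
      · refine Or.inr ⟨h, ?_⟩
        rw [← h] at hb2
        exact hL _ ha2 hb2 (fun h' => hab (Prod.ext h h'))
      · exact Or.inl (hK ha1 hb1 h)
    refine le_trans (le_of_eq ?_) (le_wcl h1)
    rw [Finset.sum_image, Finset.sum_sigma]
    · exact Finset.sum_congr rfl fun h _ => hL' h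
    · rintro ⟨a, b⟩ _ ⟨a', b'⟩ _ h
      simp only [Prod.mk.injEq] at h
      obtain ⟨rfl, rfl⟩ := h
      rfl

/-- The imperfection ratio is multiplicative for lexicographic products. -/
theorem imp_lex (H : SimpleGraph V) (B : SimpleGraph W) : imp (lex H B) = imp H * imp B := by
  apply le_antisymm
  · rw [imp_le_iff (mul_nonneg (imp_nonneg H) (imp_nonneg B))]
    intro x
    rw [wcl_lex]
    have h1 := imp_spec (G := H) fun h => wcl B fun b => x (h, b)
    have h2 := h1.smul (imp_nonneg B)
    refine FC.mono_t (FC.substitute (G := lex H B) (H := H) Prod.fst ?_ h2 ?_)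
      (le_of_eq (by ring))
    · rintro a b (h | h)
      · exact Or.inr h
      · exact Or.inl h.1
    · intro v
      have h3 := imp_spec (G := B) fun b => x (v, b)
      rw [← FC_fiber_iff (H := H) v] at h3
      refine h3.mono_x fun a => ?_
      split_ifs with h
      · rw [← h]
      · exact le_rfl
  · -- lower bound
    set t := imp (lex H B) with ht
    have ht0 : 0 ≤ t := imp_nonneg _
    have key : ∀ (z : V → ℕ) (w : W → ℕ),
        chif (rep H z) * chif (rep B w) ≤ t * ((wcl H z : ℝ) * wcl B w) := by
      intro z w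
      have h1 := imp_spec (G := lex H B) fun a => z a.1 * w a.2
      have h2 : wcl (lex H B) (fun a => z a.1 * w a.2) = wcl H z * wcl B w := by
        rw [wcl_lex]
        simp only
        have : ∀ h : V, wcl B (fun b => z h * w b) = z h * wcl B w := by
          intro h
          have := wcl_mul_right (H := B) w (z h)
          simp only [mul_comm (z h)]
          rw [this]
        simp only [this]
        exact wcl_mul_right z _
      rw [h2, ← ht] at h1
      push_cast at h1
      have h3 : FC H (fun v => (z v : ℝ) * chif (rep B w)) (t * ((wcl H z : ℝ) * wcl B w)) := by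
        refine FC.project (G := lex H B) (H := H) Prod.fst (fun a b h => Or.inl h) h1 ?_
        intro v s hs
        have h4 : FC (lex H B) (fun a => if a.1 = v then (fun b => (z v : ℝ) * w b) a.2 else 0)
            s := by
          refine hs.mono_x fun a => ?_
          split_ifs with h
          · rw [h]
          · exact le_rfl
        have h4 := (FC_fiber_iff (H := H) (B := B) v (fun b => (z v : ℝ) * w b) s).1 h4
        rcases Nat.eq_zero_or_pos (z v) with hz | hz
        · rw [hz]; simpa using hs.nonneg
        · have hz' : (0 : ℝ) < z v := by exact_mod_cast hz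
          have h5 := h4.smul (inv_nonneg.2 hz'.le)
          have h6 : FC B (fun b => (w b : ℝ)) ((z v : ℝ)⁻¹ * s) := by
            refine h5.mono_x fun b => le_of_eq ?_
            field_simp
          rw [← FC_rep_iff, ← chif_le_iff] at h6
          calc (z v : ℝ) * chif (rep B w) ≤ z v * ((z v : ℝ)⁻¹ * s) :=
                mul_le_mul_of_nonneg_left h6 hz'.le
            _ = s := by field_simp
      rcases (chif_nonneg (rep B w)).eq_or_lt with h0 | h0
      · rw [← h0, mul_zero]; positivity
      · have h4 := h3.smul (inv_nonneg.2 h0.le)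
        have h5 : FC H (fun v => (z v : ℝ))
            ((chif (rep B w))⁻¹ * (t * ((wcl H z : ℝ) * wcl B w))) := by
          refine h4.mono_x fun v => le_of_eq ?_
          field_simp
        rw [← FC_rep_iff, ← chif_le_iff] at h5
        calc chif (rep H z) * chif (rep B w)
            ≤ ((chif (rep B w))⁻¹ * (t * ((wcl H z : ℝ) * wcl B w))) * chif (rep B w) :=
              mul_le_mul_of_nonneg_right h5 h0.le
          _ = _ := by field_simp
    -- pass to suprema
    have h1 : ∀ w : {w : W → ℕ // w ≠ 0},
        imp H * (chif (rep B w.1) / ((rep B w.1).cliqueNum : ℝ)) ≤ t := by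
      rintro ⟨w, hw⟩
      simp only
      rw [cliqueNum_rep]
      have hwp : (0 : ℝ) < wcl B w := by exact_mod_cast wcl_pos hw
      rcases (div_nonneg (chif_nonneg (rep B w)) hwp.le).eq_or_lt with h0 | h0
      · rw [← h0, mul_zero]; exact ht0
      · rw [← le_div_iff₀ h0]
        apply Real.iSup_le _ (div_nonneg ht0 h0.le)
        rintro ⟨z, hz⟩
        simp only
        have hzp : (0 : ℝ) < wcl H z := by exact_mod_cast wcl_pos hz
        rw [cliqueNum_rep, le_div_iff₀ h0, div_mul_div_comm,
          div_le_iff₀ (mul_pos hzp hwp)]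
        exact key z w
    rcases (imp_nonneg H).eq_or_lt with h0 | h0
    · rw [← h0, zero_mul]; exact ht0
    · rw [← le_div_iff₀' h0]
      apply Real.iSup_le _ (div_nonneg ht0 h0.le)
      intro w
      rw [le_div_iff₀' h0]
      exact h1 w

end lex

end Pool.Agent.Helper63.Imp
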