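import Mathlib
import Pool.Agent.Helper63.ImpSub

set_option autoImplicit false

/-!
Triangle-free graphs, circular cliques, and Cartesian products with circular cliques.
-/

namespace Pool.Agent.Helper63.Imp

open Finset Classical SimpleGraph

universe u v

section trianglefree

variable {V : Type u} [Fintype V] {G : SimpleGraph V}

/-- The key decomposition: half-integral demands. -/
theorem FC_half {x : V → ℕ} {w k : ℕ} (hk : k < w)
    (hadj : ∀ u v, G.Adj u v → x u + x v ≤ w) {T : ℝ} (hT : FC G (fun _ => 1) T) :
    FC G (fun v => ((if k < 2 * x v then (1 : ℝ) else 0) +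
      (if 2 * w - 1 - k < 2 * x v then (1 : ℝ) else 0)) / 2) (max 1 (T / 2)) := by
  obtain ⟨μ, m1, m2, m3, m4⟩ := hT
  set τ := ∑ S, μ S with hτ
  set A : Finset V := Finset.univ.filter fun v => 2 * w - 1 - k < 2 * x v with hA
  set B : Finset V := Finset.univ.filter fun v => k < 2 * x v with hB
  have hAB : ∀ u v, u ∈ A → G.Adj u v → v ∉ B := by
    intro u v hu huv hv
    rw [hA, Finset.mem_filter] at hu
    rw [hB, Finset.mem_filter] at hv
    have h1 := hadj u v huv
    omega
  have hAsub : A ⊆ B := by
    intro v hv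
    rw [hA, Finset.mem_filter] at hv
    rw [hB, Finset.mem_filter]
    exact ⟨Finset.mem_univ _, by omega⟩
  refine FC.of_family (ι := Option (Finset V))
    (fun o => match o with
      | none => A
      | some S => A ∪ (S ∩ B))
    (fun o => match o with
      | none => max (1 - τ / 2) 0
      | some S => μ S / 2) ?_ ?_ ?_ ?_
  · rintro (_ | S)
    · exact le_max_right _ _
    · exact div_nonneg (m1 S) zero_le_two
  · rintro (_ | S) hS u hu v hv huv hadj'
    · exact hAB u v hu hadj' (hAsub hv)
    · simp only [Finset.coe_union, Finset.coe_inter, Set.mem_union, Set.mem_inter_iff,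
        Finset.mem_coe] at hu hv
      have hμ : μ S ≠ 0 := by
        intro h; apply hS; simp [h]
      rcases hu with hu | hu
      · rcases hv with hv | hv
        · exact hAB u v hu hadj' (hAsub hv)
        · exact hAB u v hu hadj' hv.2
      · rcases hv with hv | hv
        · exact hAB v u hv hadj'.symm hu.2
        · exact m2 S hμ hu.1 hv.1 huv hadj'
  · intro v
    rw [Fintype.sum_option]
    simp only
    have e1 : (∑ S, if v ∈ A ∪ (S ∩ B) then μ S / 2 else 0) =
        if v ∈ A then τ / 2 else if v ∈ B then (∑ S, if v ∈ S then μ S else 0) / 2 else 0 := by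
      split_ifs with h1 h2
      · rw [hτ, Finset.sum_div]
        exact Finset.sum_congr rfl fun S _ => by simp [h1]
      · rw [Finset.sum_div]
        refine Finset.sum_congr rfl fun S _ => ?_
        simp only [Finset.mem_union, h1, Finset.mem_inter, h2, false_or, and_true]
        split_ifs <;> simp
      · apply Finset.sum_eq_zero
        intro S _
        simp [h1, h2]
    rw [e1]
    have hAm : v ∈ A ↔ 2 * w - 1 - k < 2 * x v := by simp [hA]
    have hBm : v ∈ B ↔ k < 2 * x v := by simp [hB]
    by_cases h1 : v ∈ A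
    · have h2 := hAsub h1
      rw [if_pos (hBm.1 h2), if_pos (hAm.1 h1), if_pos h1, if_pos h1]
      have := le_max_left (1 - τ / 2) 0
      linarith
    · have h1' : ¬ (2 * w - 1 - k < 2 * x v) := fun h => h1 (hAm.2 h)
      by_cases h2 : v ∈ B
      · rw [if_pos (hBm.1 h2), if_neg h1', if_neg h1, if_neg h1, if_pos h2]
        have := m3 v
        linarith
      · have h2' : ¬ (k < 2 * x v) := fun h => h2 (hBm.2 h)
        rw [if_neg h2', if_neg h1', if_neg h1, if_neg h1, if_neg h2]
        simp
  · rw [Fintype.sum_option]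
    simp only
    rw [← Finset.sum_div, ← hτ]
    rcases le_total (1 - τ / 2) 0 with h | h
    · rw [max_eq_right h]
      have := le_max_right 1 (T / 2)
      linarith
    · rw [max_eq_left h]
      have := le_max_left 1 (T / 2)
      linarith

theorem sum_half {w n : ℕ} (hn : n ≤ w) :
    ∑ k ∈ Finset.range w, ((if k < 2 * n then (1 : ℝ) else 0) +
      (if 2 * w - 1 - k < 2 * n then (1 : ℝ) else 0)) / 2 = n := by
  have h1 : ∑ k ∈ Finset.range w, (if 2 * w - 1 - k < 2 * n then (1 : ℝ) else 0) =
      ∑ k ∈ Finset.Ico w (2 * w), if k < 2 * n then (1 : ℝ) else 0 := by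
    refine Finset.sum_nbij' (fun k => 2 * w - 1 - k) (fun k => 2 * w - 1 - k) ?_ ?_ ?_ ?_ ?_
    · intro k hk
      rw [Finset.mem_range] at hk
      rw [Finset.mem_Ico]; omega
    · intro k hk
      rw [Finset.mem_Ico] at hk
      rw [Finset.mem_range]; omega
    · intro k hk
      rw [Finset.mem_range] at hk
      omega
    · intro k hk
      rw [Finset.mem_Ico] at hk
      omega
    · intro k hk; rfl
  rw [← Finset.sum_div, Finset.sum_add_distrib, h1, Finset.range_eq_Ico,
    Finset.sum_Ico_consecutive _ (Nat.zero_le w) (by omega), ← Finset.range_eq_Ico,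
    Finset.sum_ite]
  simp only [Finset.sum_const, nsmul_eq_mul, mul_one, mul_zero, add_zero]
  have h2 : (Finset.range (2 * w)).filter (fun k => k < 2 * n) = Finset.range (2 * n) := by
    ext k
    simp only [Finset.mem_filter, Finset.mem_range]
    omega
  rw [h2, Finset.card_range]
  push_cast
  ring

/-- The imperfection ratio of a triangle-free graph. -/
theorem imp_triangleFree [Nonempty V] (hG : G.CliqueFree 3) : imp G = max 1 (chif G / 2) := by
  have hcard : ∀ K : Finset V, G.IsClique (K : Set V) → K.card ≤ 2 := by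
    intro K hK
    by_contra hcon
    push Not at hcon
    obtain ⟨L, hL, hLc⟩ := Finset.exists_subset_card_eq (s := K) (n := 3) (by omega)
    exact hG L ⟨hK.subset (by exact_mod_cast hL), hLc⟩
  apply le_antisymm
  · rw [imp_le_iff (le_trans zero_le_one (le_max_left _ _))]
    intro x
    have hT : FC G (fun _ => 1) (chif G) := chif_le_iff.1 le_rfl
    have h1 := FC.sum (G := G) (Finset.range (wcl G x))
      (fun k v => ((if k < 2 * x v then (1 : ℝ) else 0) +
        (if 2 * wcl G x - 1 - k < 2 * x v then (1 : ℝ) else 0)) / 2)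
      (fun _ => max 1 (chif G / 2))
      (fun k hk => FC_half (Finset.mem_range.1 hk) (by
        intro u v huv
        have h2 := le_wcl (G := G) (x := x) (K := {u, v}) (by
          intro a ha b hb hab
          simp only [Finset.coe_insert, Finset.coe_singleton, Set.mem_insert_iff,
            Set.mem_singleton_iff] at ha hb
          rcases ha with rfl | rfl <;> rcases hb with rfl | rfl
          · exact absurd rfl hab
          · exact huv
          · exact huv.symm
          · exact absurd rfl hab)
        rwa [Finset.sum_pair (G.ne_of_adj huv)] at h2) hT)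
    have h2 : (∑ k ∈ Finset.range (wcl G x), max 1 (chif G / 2)) =
        max 1 (chif G / 2) * wcl G x := by simp [mul_comm]
    rw [h2] at h1
    refine h1.mono_x fun v => le_of_eq ?_
    rw [sum_half]
    have := le_wcl (G := G) (x := x) (K := {v}) (by simp)
    simpa using this
  · apply max_le
    · obtain ⟨v⟩ := ‹Nonempty V›
      have h1 := imp_spec (G := G) (fun u => if u = v then 1 else 0)
      have h2 : wcl G (fun u => if u = v then 1 else 0) ≤ 1 := by
        obtain ⟨K, -, hK⟩ := exists_wcl G (fun u => if u = v then 1 else 0)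
        rw [hK, Finset.sum_ite_eq']
        split_ifs <;> omega
      obtain ⟨w, w1, w2, w3, w4⟩ := h1
      have h3 := w3 v
      simp only [if_true, Nat.cast_one] at h3
      have h4 : (∑ S, if v ∈ S then w S else 0) ≤ ∑ S, w S :=
        Finset.sum_le_sum fun S _ => by split_ifs <;> [exact le_rfl; exact w1 S]
      have h5 : imp G * (wcl G (fun u => if u = v then 1 else 0) : ℝ) ≤ imp G * 1 :=
        mul_le_mul_of_nonneg_left (by exact_mod_cast h2) (imp_nonneg G)
      linarith
    · have h1 := imp_spec (G := G) (fun _ => 1)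
      have h2 : wcl G (fun _ => 1) ≤ 2 := by
        obtain ⟨K, hK, hK'⟩ := exists_wcl G (fun _ => 1)
        rw [hK']
        simpa using hcard K hK
      have h3 : FC G (fun _ => 1) (imp G * 2) := by
        refine FC.mono_t (h1.mono_x fun v => by simp) ?_
        exact mul_le_mul_of_nonneg_left (by exact_mod_cast h2) (imp_nonneg G)
      have h4 := chif_le_iff.2 h3
      linarith

/-- The trivial lower bound by the stability number. -/
theorem FC.card_le {α : ℕ} {T : ℝ} (hT : FC G (fun _ => 1) T)
    (hα : ∀ S : Finset V, G.IsIndepSet (S : Set V) → S.card ≤ α) :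
    (Fintype.card V : ℝ) ≤ T * α := by
  obtain ⟨w, w1, w2, w3, w4⟩ := hT
  calc (Fintype.card V : ℝ) = ∑ v : V, (1 : ℝ) := by simp
    _ ≤ ∑ v : V, ∑ S, (if v ∈ S then w S else 0) := Finset.sum_le_sum fun v _ => w3 v
    _ = ∑ S : Finset V, ∑ v : V, (if v ∈ S then w S else 0) := Finset.sum_comm
    _ = ∑ S : Finset V, (S.card : ℝ) * w S := by
        refine Finset.sum_congr rfl fun S _ => ?_
        rw [Finset.sum_ite_mem]; simp
    _ ≤ ∑ S : Finset V, (α : ℝ) * w S := by
        refine Finset.sum_le_sum fun S _ => ?_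
        by_cases h : w S = 0
        · simp [h]
        · exact mul_le_mul_of_nonneg_right (by exact_mod_cast hα S (w2 S h)) (w1 S)
    _ = (α : ℝ) * ∑ S, w S := by rw [Finset.mul_sum]
    _ ≤ (α : ℝ) * T := mul_le_mul_of_nonneg_left w4 (Nat.cast_nonneg _)
    _ = _ := mul_comm _ _

end trianglefree

section circ

/-- The circular clique `K_{p/q}`: vertices are the integers modulo `p`, two of them being adjacent
when their circular distance is at least `q`. -/
def circ (p q : ℕ) : SimpleGraph (ZMod p) where
  Adj x y := x ≠ y ∧ q ≤ (x - y).val ∧ q ≤ (y - x).val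
  symm := ⟨fun _ _ h => ⟨h.1.symm, h.2.2, h.2.1⟩⟩
  loopless := ⟨fun _ h => h.1 rfl⟩

variable {p q : ℕ}

theorem val_cast_neg [NeZero p] {a : ℕ} (h0 : 0 < a) (hp : a < p) : (-(a : ZMod p)).val = p - a := by
  rw [ZMod.neg_val, ZMod.val_cast_of_lt hp, if_neg]
  intro h
  have := ZMod.val_cast_of_lt hp
  rw [h, ZMod.val_zero] at this
  omega

theorem circ_adj_of_diff [NeZero p] {x y : ZMod p} {a : ℕ} (h : x = y + a) (hq : q ≤ a) (hq0 : 0 < a)
    (hp : a + q ≤ p) (hap : a < p) : (circ p q).Adj x y := by
  have h1 : x - y = (a : ZMod p) := by rw [h]; ring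
  have h2 : y - x = -(a : ZMod p) := by rw [h]; ring
  refine ⟨?_, ?_, ?_⟩
  · intro hxy
    rw [hxy, sub_self] at h1
    have := ZMod.val_cast_of_lt hap
    rw [← h1, ZMod.val_zero] at this
    omega
  · rw [h1, ZMod.val_cast_of_lt hap]; exact hq
  · rw [h2, val_cast_neg hq0 hap]; omega

theorem not_circ_adj_of_diff {x y : ZMod p} {a : ℕ} (h : x = y + a) (ha : a < q) :
    ¬ (circ p q).Adj x y := by
  rintro ⟨-, h1, -⟩
  have h2 : x - y = (a : ZMod p) := by rw [h]; ring
  rw [h2, ZMod.val_natCast] at h1
  have := Nat.mod_le a p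
  omega

/-- the interval of `q` consecutive residues starting at `x` -/
noncomputable def itv (q : ℕ) (x : ZMod p) : Finset (ZMod p) :=
  (Finset.range q).image fun i : ℕ => x + (i : ZMod p)

theorem mem_itv {x y : ZMod p} : y ∈ itv q x ↔ ∃ i < q, y = x + (i : ZMod p) := by
  unfold itv
  simp only [Finset.mem_image, Finset.mem_range]
  constructor
  · rintro ⟨i, hi, rfl⟩; exact ⟨i, hi, rfl⟩
  · rintro ⟨i, hi, rfl⟩; exact ⟨i, hi, rfl⟩

theorem itv_indep (x : ZMod p) : (circ p q).IsIndepSet (itv q x : Set (ZMod p)) := by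
  intro a ha b hb _ hadj
  simp only [Finset.mem_coe, mem_itv] at ha hb
  obtain ⟨i, hi, rfl⟩ := ha
  obtain ⟨j, hj, rfl⟩ := hb
  rcases le_total i j with h | h
  · refine not_circ_adj_of_diff (a := j - i) ?_ (by omega) hadj.symm
    rw [Nat.cast_sub h]; ring
  · refine not_circ_adj_of_diff (a := i - j) ?_ (by omega) hadj
    rw [Nat.cast_sub h]; ring

theorem itv_card_le (x : ZMod p) : (itv q x).card ≤ q := by
  unfold itv
  exact Finset.card_image_le.trans (by simp)

variable [NeZero p]

theorem circ_cliqueFree (hpq : p < 3 * q) : (circ p q).CliqueFree 3 := by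
  intro S hS
  rw [is3Clique_iff] at hS
  obtain ⟨a, b, c, hab, hac, hbc, -⟩ := hS
  have h1 : a - c = (a - b) + (b - c) := by ring
  have h2 : c - a = (c - b) + (b - a) := by ring
  obtain ⟨hne, h3, h4⟩ := hab
  obtain ⟨hne', h5, h6⟩ := hbc
  obtain ⟨hne'', h7, h8⟩ := hac
  have e1 : (a - b).val + (b - a).val = p := by
    have : b - a = -(a - b) := by ring
    rw [this, ZMod.neg_val, if_neg (sub_ne_zero.2 hne)]
    have := (a - b).val_lt
    omega
  have e2 : (b - c).val + (c - b).val = p := by
    have : c - b = -(b - c) := by ring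
    rw [this, ZMod.neg_val, if_neg (sub_ne_zero.2 hne')]
    have := (b - c).val_lt
    omega
  have e3 : (a - c).val + (c - a).val = p := by
    have : c - a = -(a - c) := by ring
    rw [this, ZMod.neg_val, if_neg (sub_ne_zero.2 hne'')]
    have := (a - c).val_lt
    omega
  rcases lt_or_ge ((a - b).val + (b - c).val) p with h | h
  · have := ZMod.val_add_of_lt h
    rw [← h1] at this
    omega
  · have h9 : (c - b).val + (b - a).val < p ∨ (c - b).val + (b - a).val = p := by omega
    rcases h9 with h9 | h9
    · have := ZMod.val_add_of_lt h9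
      rw [← h2] at this
      omega
    · have h10 : c - a = 0 := by
        rw [h2, ← ZMod.natCast_zmod_val (c - b), ← ZMod.natCast_zmod_val (b - a), ← Nat.cast_add,
          h9, ZMod.natCast_self]
      exact hne'' (sub_eq_zero.1 h10).symm

/-- The stable sets of a circular clique: cardinality, and structure of the maximum ones. -/
theorem circ_indep (hq : 0 < q) (hpq : 2 * q ≤ p) {S : Finset (ZMod p)}
    (hS : (circ p q).IsIndepSet (S : Set (ZMod p))) :
    S.card ≤ q ∧ (S.card = q → 2 * q < p → ∃ x, S = itv q x) := by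
  rcases S.eq_empty_or_nonempty with rfl | ⟨s0, hs0⟩
  · refine ⟨by simp, fun h => ?_⟩
    simp at h; omega
  set A : Finset ℕ := (Finset.range q).filter fun a : ℕ => s0 + (a : ZMod p) ∈ S with hA
  set A' : Finset ℕ := (Finset.Ico 1 q).filter fun a : ℕ => s0 + (a : ZMod p) - (q : ZMod p) ∈ S
    with hA'
  have hcov : S ⊆ (A.image fun a : ℕ => s0 + (a : ZMod p)) ∪
      (A'.image fun a : ℕ => s0 + (a : ZMod p) - (q : ZMod p)) := by
    intro y hy
    by_cases hys : y = s0
    · apply Finset.mem_union_left
      refine Finset.mem_image.2 ⟨0, ?_, by simp [hys]⟩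
      rw [hA, Finset.mem_filter]
      exact ⟨Finset.mem_range.2 hq, by simpa using hs0⟩
    · have h1 : ¬ (circ p q).Adj y s0 := hS hy hs0 hys
      have h2 : (y - s0).val < q ∨ (s0 - y).val < q := by
        by_contra hcon
        push Not at hcon
        exact h1 ⟨hys, hcon.1, hcon.2⟩
      rcases h2 with h2 | h2
      · apply Finset.mem_union_left
        have e : s0 + (((y - s0).val : ℕ) : ZMod p) = y := by
          rw [ZMod.natCast_zmod_val]; ring
        refine Finset.mem_image.2 ⟨(y - s0).val, ?_, e⟩
        rw [hA, Finset.mem_filter, e]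
        exact ⟨Finset.mem_range.2 h2, hy⟩
      · apply Finset.mem_union_right
        have h3 : 0 < (s0 - y).val := by
          rw [Nat.pos_iff_ne_zero, Ne, ZMod.val_eq_zero, sub_eq_zero]
          exact fun h => hys h.symm
        have e : s0 + ((q - (s0 - y).val : ℕ) : ZMod p) - (q : ZMod p) = y := by
          rw [Nat.cast_sub h2.le, ZMod.natCast_zmod_val]; ring
        refine Finset.mem_image.2 ⟨q - (s0 - y).val, ?_, e⟩
        rw [hA', Finset.mem_filter, e]
        exact ⟨Finset.mem_Ico.2 ⟨by omega, by omega⟩, hy⟩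
  have hdisj : Disjoint A A' := by
    rw [Finset.disjoint_left]
    intro a ha ha'
    rw [hA, Finset.mem_filter] at ha
    rw [hA', Finset.mem_filter] at ha'
    have hadj : (circ p q).Adj (s0 + (a : ZMod p)) (s0 + (a : ZMod p) - (q : ZMod p)) :=
      circ_adj_of_diff (a := q) (by ring) le_rfl hq (by omega) (by omega)
    exact hS ha.2 ha'.2 hadj.ne hadj
  have hsub : A ∪ A' ⊆ Finset.range q := by
    intro a ha
    rw [Finset.mem_union] at ha
    rcases ha with ha | ha
    · rw [hA, Finset.mem_filter] at ha; exact ha.1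
    · rw [hA', Finset.mem_filter, Finset.mem_Ico] at ha
      exact Finset.mem_range.2 ha.1.2
  have hc1 : S.card ≤ A.card + A'.card :=
    (Finset.card_le_card hcov).trans ((Finset.card_union_le _ _).trans
      (Nat.add_le_add Finset.card_image_le Finset.card_image_le))
  have hc2 : A.card + A'.card ≤ q := by
    rw [← Finset.card_union_of_disjoint hdisj]
    simpa using Finset.card_le_card hsub
  refine ⟨hc1.trans hc2, fun hSq hpq' => ?_⟩
  have hfull : A ∪ A' = Finset.range q := by
    apply Finset.eq_of_subset_of_card_le hsub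
    rw [Finset.card_union_of_disjoint hdisj, Finset.card_range]
    omega
  have hstep : ∀ a, a + 1 < q → a ∉ A → a + 1 ∉ A := by
    intro a ha1 ha hcon
    have haA' : a ∈ A' := by
      have : a ∈ A ∪ A' := by rw [hfull]; exact Finset.mem_range.2 (by omega)
      rcases Finset.mem_union.1 this with h | h
      · exact absurd h ha
      · exact h
    rw [hA', Finset.mem_filter] at haA'
    rw [hA, Finset.mem_filter] at hcon
    have hadj : (circ p q).Adj (s0 + ((a + 1 : ℕ) : ZMod p))
        (s0 + (a : ZMod p) - (q : ZMod p)) :=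
      circ_adj_of_diff (a := q + 1) (by push_cast; ring) (by omega) (by omega) (by omega) (by omega)
    exact hS hcon.2 haA'.2 hadj.ne hadj
  have hex : ∃ m, m ∉ A := ⟨q, by rw [hA, Finset.mem_filter]; simp⟩
  set m := Nat.find hex with hm
  have hm1 : m ∉ A := Nat.find_spec hex
  have hm2 : ∀ a < m, a ∈ A := fun a ha => by
    by_contra h; exact Nat.find_min hex ha h
  have hmq : m ≤ q := Nat.find_le (by rw [hA, Finset.mem_filter]; simp)
  have hm3 : ∀ k, m + k < q → m + k ∉ A := by
    intro k
    induction k with
    | zero => intro _; exact hm1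
    | succ k ih =>
      intro hk
      exact hstep (m + k) hk (ih (by omega))
  refine ⟨s0 + (m : ZMod p) - (q : ZMod p), ?_⟩
  apply Finset.eq_of_subset_of_card_le
  · intro y hy
    rw [mem_itv]
    rcases Finset.mem_union.1 (hcov hy) with h | h
    · obtain ⟨a, ha, rfl⟩ := Finset.mem_image.1 h
      have haq : a < q := by rw [hA, Finset.mem_filter] at ha; exact Finset.mem_range.1 ha.1
      have ham : a < m := by
        by_contra hcon
        push Not at hcon
        obtain ⟨k, rfl⟩ := Nat.exists_eq_add_of_le hcon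
        exact hm3 k haq ha
      refine ⟨q - m + a, by omega, ?_⟩
      rw [Nat.cast_add, Nat.cast_sub hmq]; ring
    · obtain ⟨a, ha, rfl⟩ := Finset.mem_image.1 h
      have haq : a < q := by
        rw [hA', Finset.mem_filter, Finset.mem_Ico] at ha; exact ha.1.2
      have ham : m ≤ a := by
        by_contra hcon
        push Not at hcon
        exact Finset.disjoint_left.1 hdisj (hm2 a hcon) ha
      refine ⟨a - m, by omega, ?_⟩
      rw [Nat.cast_sub ham]; ring
  · rw [hSq]; exact itv_card_le _

theorem mem_itv_add_iff {x a k : ZMod p} :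
    a ∈ itv q (x + k) ↔ (a - x - k).val < q := by
  rw [mem_itv]
  constructor
  · rintro ⟨i, hi, rfl⟩
    have : x + k + (i : ZMod p) - x - k = (i : ZMod p) := by ring
    rw [this, ZMod.val_natCast]
    exact (Nat.mod_le _ _).trans_lt hi
  · intro h
    refine ⟨(a - x - k).val, h, ?_⟩
    rw [ZMod.natCast_zmod_val]; ring

/-- number of shifts covering a given point -/
theorem card_shifts (hqp : q ≤ p) (x a : ZMod p) :
    (Finset.univ.filter fun k : ZMod p => a ∈ itv q (x + k)).card = q := by
  have h1 : (Finset.univ.filter fun k : ZMod p => a ∈ itv q (x + k)) =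
      (Finset.range q).image fun i : ℕ => a - x - (i : ZMod p) := by
    ext k
    simp only [Finset.mem_filter, Finset.mem_univ, true_and, Finset.mem_image, Finset.mem_range]
    rw [mem_itv_add_iff]
    constructor
    · intro h
      exact ⟨_, h, by rw [ZMod.natCast_zmod_val]; ring⟩
    · rintro ⟨i, hi, rfl⟩
      have : a - x - (a - x - (i : ZMod p)) = (i : ZMod p) := by ring
      rw [this, ZMod.val_natCast]
      exact (Nat.mod_le _ _).trans_lt hi
  rw [h1, Finset.card_image_of_injOn, Finset.card_range]
  intro i hi j hj hij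
  simp only [Finset.coe_range, Set.mem_Iio] at hi hj
  have h2 : (i : ZMod p) = (j : ZMod p) := by
    have : a - x - (i : ZMod p) = a - x - (j : ZMod p) := hij
    exact sub_right_injective this
  have h3 := congrArg ZMod.val h2
  rwa [ZMod.val_cast_of_lt (by omega), ZMod.val_cast_of_lt (by omega)] at h3

theorem chif_circ (hq : 0 < q) (hpq : 2 * q ≤ p) : chif (circ p q) = (p : ℝ) / q := by
  have hq' : (0 : ℝ) < q := by exact_mod_cast hq
  apply le_antisymm
  · rw [chif_le_iff]
    refine FC.of_family (ι := ZMod p) (fun k => itv q (0 + k)) (fun _ => 1 / (q : ℝ))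
      (fun _ => by positivity) (fun k _ => itv_indep _) ?_ ?_
    · intro a
      have h1 : (∑ k : ZMod p, if a ∈ itv q (0 + k) then 1 / (q : ℝ) else 0) = 1 := by
        rw [Finset.sum_ite, Finset.sum_const, Finset.sum_const_zero, add_zero,
          card_shifts (by omega) 0 a, nsmul_eq_mul, mul_one_div, div_self hq'.ne']
      refine le_of_eq (h1.symm.trans (Finset.sum_congr rfl fun k _ => ?_))
      congr
    · rw [Finset.sum_const, Finset.card_univ, ZMod.card, nsmul_eq_mul, mul_one_div]
  · have h1 : FC (circ p q) (fun _ => 1) (chif (circ p q)) := chif_le_iff.1 le_rfl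
    have h2 := FC.card_le h1 fun S hS => (circ_indep hq hpq hS).1
    rw [ZMod.card] at h2
    rwa [div_le_iff₀ hq']

/-- imperfection ratio of the triangle-free circular cliques -/
theorem imp_circ (hq : 0 < q) (hpq : 2 * q ≤ p) (hpq' : p < 3 * q) :
    imp (circ p q) = (p : ℝ) / (2 * q) := by
  have hq' : (0 : ℝ) < q := by exact_mod_cast hq
  rw [imp_triangleFree (circ_cliqueFree hpq'), chif_circ hq hpq, max_eq_right]
  · field_simp
  · rw [le_div_iff₀ (by norm_num), le_div_iff₀ hq']
    have : ((2 * q : ℕ) : ℝ) ≤ (p : ℝ) := by exact_mod_cast hpq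
    push_cast at this
    linarith

variable {V : Type u} [Fintype V] {H : SimpleGraph V}

/-- If `H` maps to `K_{p/q}` then the Cartesian product has fractional chromatic number at most
`p/q`. -/
theorem FC_box_of_hom (hq : 0 < q) (hqp : q ≤ p) (φ : H →g circ p q) :
    FC (H □ circ p q) (fun _ => 1) ((p : ℝ) / q) := by
  have hq' : (0 : ℝ) < q := by exact_mod_cast hq
  refine FC.of_family (ι := ZMod p)
    (fun k => Finset.univ.filter fun a : V × ZMod p => a.2 ∈ itv q (φ a.1 + k))
    (fun _ => 1 / (q : ℝ)) (fun _ => by positivity) ?_ ?_ ?_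
  · rintro k - ⟨u, a⟩ ha ⟨v, b⟩ hb hab hadj
    simp only [Finset.coe_filter, Finset.mem_univ, true_and, Set.mem_ofPred_eq] at ha hb
    rw [boxProd_adj] at hadj
    rcases hadj with ⟨h, h'⟩ | ⟨h, h'⟩
    · simp only at h h'
      subst h'
      obtain ⟨i, hi, hi'⟩ := mem_itv.1 ha
      obtain ⟨j, hj, hj'⟩ := mem_itv.1 hb
      have h1 := φ.map_adj h
      have h2 : φ u + (i : ZMod p) = φ v + (j : ZMod p) := by
        have : φ u + k + (i : ZMod p) = φ v + k + (j : ZMod p) := by rw [← hi', ← hj']
        calc φ u + (i : ZMod p) = φ u + k + (i : ZMod p) - k := by ring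
          _ = φ v + k + (j : ZMod p) - k := by rw [this]
          _ = _ := by ring
      rcases le_total i j with hij | hij
      · refine not_circ_adj_of_diff (a := j - i) ?_ (by omega) h1
        rw [Nat.cast_sub hij]
        calc φ u = φ u + (i : ZMod p) - i := by ring
          _ = φ v + (j : ZMod p) - i := by rw [h2]
          _ = _ := by ring
      · refine not_circ_adj_of_diff (a := i - j) ?_ (by omega) h1.symm
        rw [Nat.cast_sub hij]
        calc φ v = φ v + (j : ZMod p) - j := by ring
          _ = φ u + (i : ZMod p) - j := by rw [h2]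
          _ = _ := by ring
    · simp only at h h'
      subst h'
      exact itv_indep _ ha hb h.ne h
  · rintro ⟨v, a⟩
    have h1 : ∀ k : ZMod p, ((v, a) ∈ (Finset.univ.filter fun a : V × ZMod p =>
        a.2 ∈ itv q (φ a.1 + k))) ↔ a ∈ itv q (φ v + k) := by
      intro k; simp
    simp only [h1]
    rw [Finset.sum_ite, Finset.sum_const, Finset.sum_const_zero, add_zero,
      card_shifts hqp (φ v) a, nsmul_eq_mul, mul_one_div, div_self hq'.ne']
  · rw [Finset.sum_const, Finset.card_univ, ZMod.card, nsmul_eq_mul, mul_one_div]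

/-- If `H` does not map to `K_{p/q}`, the fractional chromatic number of the Cartesian product is
bounded away from `p/q`. -/
theorem FC_box_of_no_hom (hq : 0 < q) (hpq : 2 * q < p) (hH : IsEmpty (H →g circ p q)) {T : ℝ}
    (hT : FC (H □ circ p q) (fun _ => 1) T) :
    (p : ℝ) * Fintype.card V ≤ T * (q * Fintype.card V - 1) := by
  have hα : ∀ S : Finset (V × ZMod p), (H □ circ p q).IsIndepSet (S : Set (V × ZMod p)) →
      S.card ≤ q * Fintype.card V - 1 := by
    intro S hS
    by_contra hcon
    push Not at hcon
    have hfib : ∀ v : V, (circ p q).IsIndepSet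
        ((Finset.univ.filter fun a => (v, a) ∈ S : Finset (ZMod p)) : Set (ZMod p)) := by
      intro v a ha b hb hab hadj
      simp only [Finset.coe_filter, Finset.mem_univ, true_and, Set.mem_ofPred_eq] at ha hb
      exact hS ha hb (by simpa using hab) (by rw [boxProd_adj]; exact Or.inr ⟨hadj, rfl⟩)
    have hsum : S.card = ∑ v : V, (Finset.univ.filter fun a : ZMod p => (v, a) ∈ S).card := by
      rw [← Finset.card_sigma]
      refine Finset.card_bij' (fun a _ => ⟨a.1, a.2⟩) (fun a _ => (a.1, a.2)) ?_ ?_ ?_ ?_
      · intro a ha; simpa using ha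
      · intro a ha; simpa using ha
      · intro a ha; rfl
      · intro a ha; rfl
    have hle : ∀ v ∈ (Finset.univ : Finset V),
        (Finset.univ.filter fun a : ZMod p => (v, a) ∈ S).card ≤ q :=
      fun v _ => (circ_indep hq hpq.le (hfib v)).1
    have htot : ∑ v : V, (Finset.univ.filter fun a : ZMod p => (v, a) ∈ S).card = 
        ∑ v : V, q := by
      apply le_antisymm (Finset.sum_le_sum hle)
      rw [← hsum]
      simp only [Finset.sum_const, Finset.card_univ, smul_eq_mul]
      rw [mul_comm]
      omega
    have heq := (Finset.sum_eq_sum_iff_of_le hle).1 htot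
    choose x hx using fun v : V => (circ_indep hq hpq.le (hfib v)).2 (heq v (Finset.mem_univ v)) hpq
    refine hH.false ⟨x, ?_⟩
    intro u v huv
    have hdis : ∀ a, a ∈ itv q (x u) → a ∈ itv q (x v) → False := by
      intro a ha hb
      rw [← hx] at ha hb
      simp only [Finset.mem_filter, Finset.mem_univ, true_and] at ha hb
      have hne : ((u, a) : V × ZMod p) ≠ (v, a) := by
        intro h; exact huv.ne (congrArg Prod.fst h)
      exact hS ha hb hne (by rw [boxProd_adj]; exact Or.inl ⟨huv, rfl⟩)
    refine ⟨?_, ?_, ?_⟩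
    · intro h
      apply hdis (x u) <;> rw [mem_itv]
      · exact ⟨0, hq, by simp⟩
      · exact ⟨0, hq, by simp [h]⟩
    · by_contra hlt
      push Not at hlt
      apply hdis (x u) <;> rw [mem_itv]
      · exact ⟨0, hq, by simp⟩
      · exact ⟨_, hlt, by rw [ZMod.natCast_zmod_val]; ring⟩
    · by_contra hlt
      push Not at hlt
      apply hdis (x v) <;> rw [mem_itv]
      · exact ⟨_, hlt, by rw [ZMod.natCast_zmod_val]; ring⟩
      · exact ⟨0, hq, by simp⟩
  have hne : Nonempty V := by
    by_contra hcon
    rw [not_nonempty_iff] at hcon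
    exact hH.false ⟨fun v => (hcon.false v).elim, fun {v} => (hcon.false v).elim⟩
  have h1 := FC.card_le hT hα
  rw [Fintype.card_prod, ZMod.card] at h1
  have h2 : 1 ≤ q * Fintype.card V := Nat.mul_pos hq Fintype.card_pos
  rw [Nat.cast_sub h2] at h1
  push_cast at h1
  linarith

end circ

end Pool.Agent.Helper63.Imp
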