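import Mathlib
import Pool.Agent.Helper63.ImpCirc

set_option autoImplicit false

/-!
Isomorphism invariance, circular cliques on `Fin p`, cycles, lexicographic powers.
-/

namespace Pool.Agent.Helper63.Imp

open Finset Classical SimpleGraph

universe u v

section iso

variable {V : Type u} {W : Type v} [Fintype V] [Fintype W] {G : SimpleGraph V} {G' : SimpleGraph W}

theorem FC.iso (e : G ≃g G') {x : V → ℝ} {t : ℝ} (h : FC G x t) :
    FC G' (fun b => x (e.symm b)) t := by
  obtain ⟨w, w1, w2, w3, w4⟩ := h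
  refine FC.of_family (ι := Finset V) (fun S => S.image e) w w1 ?_ ?_ w4
  · intro S hS a ha b hb hab hadj
    simp only [Finset.coe_image, Set.mem_image, Finset.mem_coe] at ha hb
    obtain ⟨a', ha', rfl⟩ := ha
    obtain ⟨b', hb', rfl⟩ := hb
    exact w2 S hS ha' hb' (fun h => hab (by rw [h])) (e.map_adj_iff.1 hadj)
  · intro b
    refine (w3 (e.symm b)).trans (le_of_eq (Finset.sum_congr rfl fun S _ => ?_))
    have : b ∈ S.image e ↔ e.symm b ∈ S := by
      rw [Finset.mem_image]
      constructor
      · rintro ⟨a, ha, rfl⟩; simpa using ha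
      · intro h; exact ⟨_, h, by simp⟩
    simp only [this]

theorem wcl_iso_le (e : G ≃g G') (x : W → ℕ) : wcl G (fun a => x (e a)) ≤ wcl G' x := by
  obtain ⟨K, hK, hK'⟩ := exists_wcl G fun a => x (e a)
  rw [hK']
  have h1 : G'.IsClique ((K.image e : Finset W) : Set W) := by
    intro a ha b hb hab
    simp only [Finset.coe_image, Set.mem_image, Finset.mem_coe] at ha hb
    obtain ⟨a', ha', rfl⟩ := ha
    obtain ⟨b', hb', rfl⟩ := hb
    exact e.map_adj_iff.2 (hK ha' hb' (fun h => hab (by rw [h])))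
  refine le_trans (le_of_eq ?_) (le_wcl h1)
  rw [Finset.sum_image fun a _ b _ h => e.injective h]

theorem imp_iso_le (e : G ≃g G') : imp G' ≤ imp G := by
  rw [imp_le_iff (imp_nonneg G)]
  intro x
  have h1 := (imp_spec (G := G) fun a => x (e a)).iso e
  refine FC.mono_t (h1.mono_x fun b => by simp) ?_
  exact mul_le_mul_of_nonneg_left (by exact_mod_cast wcl_iso_le e x) (imp_nonneg G)

theorem imp_iso (e : G ≃g G') : imp G = imp G' :=
  le_antisymm (imp_iso_le e.symm) (imp_iso_le e)

/-- upper bound valid also for the empty graph -/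
theorem imp_le_of_triangleFree (hG : G.CliqueFree 3) : imp G ≤ max 1 (chif G / 2) := by
  rcases isEmpty_or_nonempty V with h | h
  · have : imp G ≤ 0 := by
      rw [imp_le_iff le_rfl]
      intro x
      exact (FC.zero (G := G)).mono_x (fun v => (h.false v).elim) |>.mono_t (by simp)
    exact this.trans (le_trans zero_le_one (le_max_left _ _))
  · exact (imp_triangleFree hG).le

end iso

/-- The circular clique `K_{p/q}` on the vertices `0, …, p-1`: `i` and `j` are adjacent when
`q ≤ |i - j| ≤ p - q`. -/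
def circF (p q : ℕ) : SimpleGraph (Fin p) where
  Adj i j := i ≠ j ∧ q ≤ Nat.dist i j ∧ Nat.dist i j + q ≤ p
  symm := ⟨fun i j h => ⟨h.1.symm, by rw [Nat.dist_comm]; exact h.2.1,
    by rw [Nat.dist_comm]; exact h.2.2⟩⟩
  loopless := ⟨fun _ h => h.1 rfl⟩

theorem sub_val_aux {n : ℕ} (a b : Fin (n + 1)) :
    (a - b).val = if b.val ≤ a.val then a.val - b.val else n + 1 + a.val - b.val := by
  rw [Fin.sub_def]
  simp only
  have ha := a.isLt
  have hb := b.isLt
  split_ifs with h
  · have : n + 1 - b.val + a.val = (n + 1) + (a.val - b.val) := by omega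
    rw [this, Nat.add_mod_left, Nat.mod_eq_of_lt (by omega)]
  · have : n + 1 - b.val + a.val = n + 1 + a.val - b.val := by omega
    rw [this, Nat.mod_eq_of_lt (by omega)]

theorem circF_eq (n q : ℕ) : circF (n + 1) q = circ (n + 1) q := by
  ext a b
  change (a ≠ b ∧ q ≤ Nat.dist a b ∧ Nat.dist a b + q ≤ n + 1) ↔
    (a ≠ b ∧ q ≤ (a - b : Fin (n + 1)).val ∧ q ≤ (b - a : Fin (n + 1)).val)
  refine and_congr_right fun hab => ?_
  have hne : a.val ≠ b.val := fun h => hab (Fin.ext h)
  rw [sub_val_aux, sub_val_aux]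
  have ha := a.isLt
  have hb := b.isLt
  rcases lt_or_gt_of_ne hne with h | h
  · rw [Nat.dist_eq_sub_of_le h.le, if_neg (by omega), if_pos (by omega)]
    omega
  · rw [Nat.dist_eq_sub_of_le_right h.le, if_pos (by omega), if_neg (by omega)]
    omega

/-- the two models of a circular clique are isomorphic -/
def circIso (n q : ℕ) : circF (n + 1) q ≃g circ (n + 1) q where
  toEquiv := (Equiv.refl (Fin (n + 1)) : Fin (n + 1) ≃ ZMod (n + 1))
  map_rel_iff' := by
    intro a b
    have h := circF_eq n q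
    change (circ (n + 1) q).Adj a b ↔ (circF (n + 1) q).Adj a b
    rw [h]

theorem imp_circF {p q : ℕ} (hq : 0 < q) (hpq : 2 * q ≤ p) (hpq' : p < 3 * q) :
    imp (circF p q) = (p : ℝ) / (2 * q) := by
  obtain ⟨n, rfl⟩ : ∃ n, p = n + 1 := ⟨p - 1, by omega⟩
  rw [imp_iso (circIso n q)]
  exact imp_circ (p := n + 1) hq hpq hpq'

/-! ### cycles -/

theorem circ_cycle_adj {k : ℕ} (hk : 0 < k) {x y : ZMod (2 * k + 1)} :
    (circ (2 * k + 1) k).Adj x y ↔ x - y = (k : ZMod (2 * k + 1)) ∨ y - x = (k : ZMod (2 * k + 1)) := by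
  have hkv : ((k : ZMod (2 * k + 1))).val = k := ZMod.val_cast_of_lt (by omega)
  constructor
  · rintro ⟨hne, h1, h2⟩
    have h3 : (y - x).val = 2 * k + 1 - (x - y).val := by
      have : y - x = -(x - y) := by ring
      rw [this, ZMod.neg_val, if_neg (sub_ne_zero.2 hne)]
    have h4 : (x - y).val = k ∨ (y - x).val = k := by omega
    rcases h4 with h4 | h4
    · left; rw [← ZMod.natCast_zmod_val (x - y), h4]
    · right; rw [← ZMod.natCast_zmod_val (y - x), h4]
  · intro h
    rcases h with h | h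
    · exact circ_adj_of_diff (a := k) (by rw [← h]; ring) le_rfl hk (by omega) (by omega)
    · exact (circ_adj_of_diff (a := k) (by rw [← h]; ring) le_rfl hk (by omega) (by omega)).symm

theorem two_k {k : ℕ} : (2 : ZMod (2 * k + 1)) * (k : ZMod (2 * k + 1)) = -1 := by
  have h : ((2 * k + 1 : ℕ) : ZMod (2 * k + 1)) = 0 := ZMod.natCast_self _
  push_cast at h
  linear_combination h

theorem cycle_adj {k : ℕ} (hk : 0 < k) {x y : Fin (2 * k + 1)} :
    (cycleGraph (2 * k + 1)).Adj x y ↔
      ((show ZMod (2 * k + 1) from x) - (show ZMod (2 * k + 1) from y) = 1 ∨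
       (show ZMod (2 * k + 1) from y) - (show ZMod (2 * k + 1) from x) = 1) := by
  obtain ⟨m, rfl⟩ : ∃ m, k = m + 1 := ⟨k - 1, by omega⟩
  exact cycleGraph_adj (n := 2 * m + 1)

/-- the cycle `C_{2k+1}` is the circular clique `K_{(2k+1)/k}` -/
def cycleIso {k : ℕ} (hk : 0 < k) : cycleGraph (2 * k + 1) ≃g circ (2 * k + 1) k where
  toFun x := (k : ZMod (2 * k + 1)) * (show ZMod (2 * k + 1) from x)
  invFun y := (show Fin (2 * k + 1) from (-2 : ZMod (2 * k + 1)) * y)
  left_inv x := by
    have h : ∀ z : ZMod (2 * k + 1), (-2 : ZMod (2 * k + 1)) * ((k : ZMod (2 * k + 1)) * z) = z := by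
      intro z
      linear_combination (-z) * two_k (k := k)
    exact h x
  right_inv y := by
    change (k : ZMod (2 * k + 1)) * ((-2 : ZMod (2 * k + 1)) * y) = y
    have := two_k (k := k)
    linear_combination (-y) * this
  map_rel_iff' := by
    intro x y
    change (circ (2 * k + 1) k).Adj ((k : ZMod (2 * k + 1)) * (show ZMod (2 * k + 1) from x))
      ((k : ZMod (2 * k + 1)) * (show ZMod (2 * k + 1) from y)) ↔ _
    rw [circ_cycle_adj hk, cycle_adj hk]
    have h2 := two_k (k := k)
    have key : ∀ a b : ZMod (2 * k + 1), (k : ZMod (2 * k + 1)) * a - k * b = k ↔ a - b = 1 := by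
      intro a b
      constructor
      · intro h
        linear_combination (-2 : ZMod (2 * k + 1)) * h + (a - b - 1) * h2
      · intro h
        linear_combination (k : ZMod (2 * k + 1)) * h
    exact or_congr (key _ _) (key _ _)

/-! ### lexicographic powers -/

/-- The `r`-fold lexicographic power of a graph: sequences of length `r`, two of them being
adjacent when their entries at the first place where they differ are adjacent. -/
def lexPow {V : Type u} (G : SimpleGraph V) (r : ℕ) : SimpleGraph (Fin r → V) where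
  Adj f g := ∃ i, (∀ j < i, f j = g j) ∧ G.Adj (f i) (g i)
  symm := ⟨fun _ _ ⟨i, h1, h2⟩ => ⟨i, fun j hj => (h1 j hj).symm, h2.symm⟩⟩
  loopless := ⟨fun _ ⟨_, _, h⟩ => G.irrefl h⟩

/-- splitting off the first factor of a lexicographic power -/
def lexPowIso {V : Type u} (G : SimpleGraph V) (r : ℕ) :
    lexPow G (r + 1) ≃g lex G (lexPow G r) where
  toFun f := (f 0, fun i => f i.succ)
  invFun a := Fin.cons a.1 a.2
  left_inv f := by
    ext i
    refine Fin.cases ?_ (fun i => ?_) i <;> simp
  right_inv a := by simp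
  map_rel_iff' := by
    intro f g
    change ((G.Adj (f 0) (g 0) ∨ (f 0 = g 0 ∧ ∃ i : Fin r, (∀ j < i, f j.succ = g j.succ) ∧
      G.Adj (f i.succ) (g i.succ))) ↔ ∃ i : Fin (r + 1), (∀ j < i, f j = g j) ∧ G.Adj (f i) (g i))
    constructor
    · rintro (h | ⟨h0, i, h1, h2⟩)
      · exact ⟨0, fun j hj => absurd hj (Fin.not_lt_zero j), h⟩
      · refine ⟨i.succ, fun j hj => ?_, h2⟩
        refine Fin.cases (fun _ => h0) (fun j hj => ?_) j hj
        exact h1 j (Fin.succ_lt_succ_iff.1 hj)
    · rintro ⟨i, h1, h2⟩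
      revert h1 h2
      refine Fin.cases (fun _ h2 => Or.inl h2) (fun i h1 h2 => Or.inr ⟨?_, i, ?_, h2⟩) i
      · exact h1 0 (Fin.succ_pos i)
      · intro j hj
        exact h1 j.succ (Fin.succ_lt_succ_iff.2 hj)

theorem imp_unique {V : Type u} [Fintype V] [Nonempty V] [Subsingleton V] (G : SimpleGraph V) :
    imp G = 1 := by
  have hcf : G.CliqueFree 3 := by
    intro S hS
    have := hS.card_eq
    have h1 : S.card ≤ 1 := Finset.card_le_one.2 fun a _ b _ => Subsingleton.elim a b
    omega
  rw [imp_triangleFree hcf, max_eq_left]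
  obtain ⟨v⟩ := ‹Nonempty V›
  have h : chif G ≤ 1 := by
    rw [chif_le_iff]
    have := FC.indicator (G := G) ({v} : Finset V) (by simp)
    refine this.mono_x fun u => ?_
    rw [Subsingleton.elim u v]
    simp
  linarith

theorem imp_lexPow {V : Type u} [Fintype V] (G : SimpleGraph V) (r : ℕ) :
    imp (lexPow G r) = imp G ^ r := by
  induction r with
  | zero =>
    rw [pow_zero]
    exact imp_unique _
  | succ r ih =>
    rw [imp_iso (lexPowIso G r), imp_lex, ih, pow_succ, mul_comm]

/-- imperfection ratio of the odd cycles -/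
theorem imp_cycle {k : ℕ} (hk : 2 ≤ k) :
    imp (cycleGraph (2 * k + 1)) = ((2 * k + 1 : ℕ) : ℝ) / (2 * k) := by
  rw [imp_iso (cycleIso (by omega)), imp_circ (by omega) (by omega) (by omega)]

end Pool.Agent.Helper63.Imp
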