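import Mathlib
import Pool.Agent.Helper63.ImpIso

set_option autoImplicit false

/-!
Subdivisions and the reduction from colourability.
-/

namespace Pool.Agent.Helper63.Imp

open Finset Classical SimpleGraph

universe u v

/-- The edges of the subdivision, each written once. -/
def subRel (k : ℕ) {N : ℕ} (G : SimpleGraph (Fin N)) :
    (Fin N ⊕ (Fin N × Fin N × Fin (2 * k - 2))) →
      (Fin N ⊕ (Fin N × Fin N × Fin (2 * k - 2))) → Prop
  | .inl a, .inr (u, v, i) =>
      u < v ∧ G.Adj u v ∧ ((a = u ∧ i.val = 0) ∨ (a = v ∧ i.val + 1 = 2 * k - 2))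
  | .inr (u, v, i), .inr (u', v', j) => u < v ∧ G.Adj u v ∧ u' = u ∧ v' = v ∧ j.val = i.val + 1
  | _, _ => False

/-- The subdivision of `G` in which every edge `uv`, `u < v`, is replaced by a path with `2k-1`
edges, whose inner vertices are `(u, v, 0), …, (u, v, 2k-3)`. (The triples `(u, v, i)` for which
`u < v` is not an edge are isolated vertices.) -/
def subdiv (k : ℕ) {N : ℕ} (G : SimpleGraph (Fin N)) :
    SimpleGraph (Fin N ⊕ (Fin N × Fin N × Fin (2 * k - 2))) :=
  SimpleGraph.fromRel (subRel k G)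

section sub

variable {k N : ℕ} {G : SimpleGraph (Fin N)}

theorem sub_inl_inl {a b : Fin N} : ¬ (subdiv k G).Adj (.inl a) (.inl b) := by
  rintro ⟨-, h | h⟩ <;> exact h

theorem sub_inl_inr {a u v : Fin N} {i : Fin (2 * k - 2)} :
    (subdiv k G).Adj (.inl a) (.inr (u, v, i)) ↔
      u < v ∧ G.Adj u v ∧ ((a = u ∧ i.val = 0) ∨ (a = v ∧ i.val + 1 = 2 * k - 2)) := by
  constructor
  · rintro ⟨-, h | h⟩
    · exact h
    · exact absurd h id
  · intro h
    exact ⟨by simp, Or.inl h⟩

theorem sub_inr_inr {u v u' v' : Fin N} {i j : Fin (2 * k - 2)} :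
    (subdiv k G).Adj (.inr (u, v, i)) (.inr (u', v', j)) ↔
      u < v ∧ G.Adj u v ∧ u' = u ∧ v' = v ∧ (j.val = i.val + 1 ∨ i.val = j.val + 1) := by
  constructor
  · rintro ⟨-, ⟨h1, h2, h3, h4, h5⟩ | ⟨h1, h2, h3, h4, h5⟩⟩
    · exact ⟨h1, h2, h3, h4, Or.inl h5⟩
    · subst h3; subst h4
      exact ⟨h1, h2, rfl, rfl, Or.inr h5⟩
  · rintro ⟨h1, h2, rfl, rfl, h5⟩
    refine ⟨?_, ?_⟩
    · intro h
      simp only [Sum.inr.injEq, Prod.mk.injEq, true_and] at h
      have := congrArg Fin.val h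
      omega
    · rcases h5 with h5 | h5
      · exact Or.inl ⟨h1, h2, rfl, rfl, h5⟩
      · exact Or.inr ⟨h1, h2, rfl, rfl, h5⟩

theorem sub_cliqueFree : (subdiv k G).CliqueFree 3 := by
  intro S hS
  rw [is3Clique_iff] at hS
  obtain ⟨a, b, c, hab, hac, hbc, -⟩ := hS
  rcases a with a | ⟨u, v, i⟩ <;> rcases b with b | ⟨u', v', j⟩ <;>
    rcases c with c | ⟨u'', v'', l⟩
  · exact sub_inl_inl hab
  · exact sub_inl_inl hab
  · exact sub_inl_inl hac
  · rw [sub_inl_inr] at hab hac
    rw [sub_inr_inr] at hbc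
    obtain ⟨h1, h2, rfl, rfl, h3⟩ := hbc
    have := h1.ne
    rcases hab.2.2 with ⟨h4, h5⟩ | ⟨h4, h5⟩ <;> rcases hac.2.2 with ⟨h6, h7⟩ | ⟨h6, h7⟩
    · omega
    · exact this (h4.symm.trans h6)
    · exact this (h6.symm.trans h4)
    · omega
  · exact sub_inl_inl hbc
  · replace hab := hab.symm
    rw [sub_inl_inr] at hab hbc
    rw [sub_inr_inr] at hac
    obtain ⟨h1, h2, rfl, rfl, h3⟩ := hac
    have := h1.ne
    rcases hab.2.2 with ⟨h4, h5⟩ | ⟨h4, h5⟩ <;> rcases hbc.2.2 with ⟨h6, h7⟩ | ⟨h6, h7⟩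
    · omega
    · exact this (h4.symm.trans h6)
    · exact this (h6.symm.trans h4)
    · omega
  · replace hac := hac.symm
    replace hbc := hbc.symm
    rw [sub_inl_inr] at hac hbc
    rw [sub_inr_inr] at hab
    obtain ⟨h1, h2, rfl, rfl, h3⟩ := hab
    have := h1.ne
    rcases hac.2.2 with ⟨h4, h5⟩ | ⟨h4, h5⟩ <;> rcases hbc.2.2 with ⟨h6, h7⟩ | ⟨h6, h7⟩
    · omega
    · exact this (h4.symm.trans h6)
    · exact this (h6.symm.trans h4)
    · omega
  · rw [sub_inr_inr] at hab hac hbc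
    obtain ⟨-, -, -, -, h1⟩ := hab
    obtain ⟨-, -, -, -, h2⟩ := hac
    obtain ⟨-, -, -, -, h3⟩ := hbc
    omega

/-- walks in a cycle with prescribed displacement -/
theorem exists_walk {n : ℕ} (m : ℕ) : ∀ (x : ZMod n) (s : ℤ), |s| ≤ m → (s - m) % 2 = 0 →
    ∃ f : ℕ → ZMod n, f 0 = x ∧ f m = x + (s : ZMod n) ∧
      ∀ i < m, f (i + 1) - f i = 1 ∨ f i - f (i + 1) = 1 := by
  induction m with
  | zero =>
    intro x s hs _
    have : s = 0 := by
      have := abs_nonneg s
      exact abs_eq_zero.1 (le_antisymm (by simpa using hs) this)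
    subst this
    exact ⟨fun _ => x, rfl, by simp, by simp⟩
  | succ m ih =>
    intro x s hs hpar
    push_cast at hs hpar
    rw [abs_le] at hs
    rcases le_or_gt s 0 with h | h
    · obtain ⟨f, h1, h2, h3⟩ := ih (x - 1) (s + 1) (by rw [abs_le]; omega) (by omega)
      refine ⟨fun i => if i = 0 then x else f (i - 1), by simp, ?_, ?_⟩
      · simp only [Nat.add_eq_zero_iff, one_ne_zero, and_false, if_false, Nat.add_sub_cancel]
        rw [h2]; push_cast; ring
      · intro i hi
        rcases i with _ | i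
        · right; simp [h1]
        · have := h3 i (by omega)
          simpa using this
    · obtain ⟨f, h1, h2, h3⟩ := ih (x + 1) (s - 1) (by rw [abs_le]; omega) (by omega)
      refine ⟨fun i => if i = 0 then x else f (i - 1), by simp, ?_, ?_⟩
      · simp only [Nat.add_eq_zero_iff, one_ne_zero, and_false, if_false, Nat.add_sub_cancel]
        rw [h2]; push_cast; ring
      · intro i hi
        rcases i with _ | i
        · left; simp [h1]
        · have := h3 i (by omega)
          simpa using this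

theorem walk_disp {n : ℕ} (f : ℕ → ZMod n) (m : ℕ)
    (h : ∀ i < m, f (i + 1) - f i = 1 ∨ f i - f (i + 1) = 1) :
    ∃ s : ℤ, |s| ≤ m ∧ (s - m) % 2 = 0 ∧ f m = f 0 + (s : ZMod n) := by
  induction m with
  | zero => exact ⟨0, by simp, by simp, by simp⟩
  | succ m ih =>
    obtain ⟨s, h1, h2, h3⟩ := ih fun i hi => h i (by omega)
    rw [abs_le] at h1
    rcases h m (Nat.lt_succ_self m) with h4 | h4
    · refine ⟨s + 1, by rw [abs_le]; push_cast; omega, by push_cast; omega, ?_⟩
      push_cast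
      linear_combination h4 + h3
    · refine ⟨s - 1, by rw [abs_le]; push_cast; omega, by push_cast; omega, ?_⟩
      push_cast
      linear_combination -h4 + h3

theorem exists_walk_ne (hk : 2 ≤ k) (x y : ZMod (2 * k + 1)) (hxy : x ≠ y) :
    ∃ f : ℕ → ZMod (2 * k + 1), f 0 = x ∧ f (2 * k - 1) = y ∧
      ∀ i < 2 * k - 1, f (i + 1) - f i = 1 ∨ f i - f (i + 1) = 1 := by
  have hd0 : (y - x).val ≠ 0 := by
    rw [Ne, ZMod.val_eq_zero, sub_eq_zero]; exact fun h => hxy h.symm
  have hd1 := (y - x).val_lt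
  have hcast : (((y - x).val : ℤ) : ZMod (2 * k + 1)) = y - x := by
    rw [Int.cast_natCast, ZMod.natCast_zmod_val]
  have hz : ((2 * (k : ℤ) + 1 : ℤ) : ZMod (2 * k + 1)) = 0 := by
    have h : ((2 * k + 1 : ℕ) : ZMod (2 * k + 1)) = 0 := ZMod.natCast_self _
    push_cast at h ⊢
    exact h
  rcases Nat.even_or_odd (y - x).val with he | ho
  · obtain ⟨f, h1, h2, h3⟩ := exists_walk (n := 2 * k + 1) (2 * k - 1) x
      (((y - x).val : ℤ) - (2 * k + 1)) (by
        rw [abs_le]
        obtain ⟨c, hc⟩ := he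
        omega) (by
        obtain ⟨c, hc⟩ := he
        omega)
    refine ⟨f, h1, ?_, h3⟩
    rw [h2, Int.cast_sub, hcast, hz]; ring
  · obtain ⟨f, h1, h2, h3⟩ := exists_walk (n := 2 * k + 1) (2 * k - 1) x
      ((y - x).val : ℤ) (by
        rw [abs_le]
        obtain ⟨c, hc⟩ := ho
        omega) (by
        obtain ⟨c, hc⟩ := ho
        omega)
    refine ⟨f, h1, ?_, h3⟩
    rw [h2, hcast]; ring

/-- `G` is `(2k+1)`-colourable iff its subdivision maps to the cycle `C_{2k+1}`. -/
theorem colorable_iff (hk : 2 ≤ k) :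
    G.Colorable (2 * k + 1) ↔ Nonempty (subdiv k G →g cycleGraph (2 * k + 1)) := by
  constructor
  · rintro ⟨c⟩
    choose! F hF1 hF2 hF3 using fun (x y : ZMod (2 * k + 1)) (hxy : x ≠ y) =>
      exists_walk_ne hk x y hxy
    let c' : Fin N → ZMod (2 * k + 1) := fun a => c a
    have hc' : ∀ u v, G.Adj u v → c' u ≠ c' v := fun u v h => c.valid h
    let φ : (Fin N ⊕ (Fin N × Fin N × Fin (2 * k - 2))) → ZMod (2 * k + 1) := fun a =>
      match a with
      | .inl a => c' a
      | .inr (u, v, i) => F (c' u) (c' v) (i.val + 1)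
    have hφ1 : ∀ a, φ (.inl a) = c' a := fun _ => rfl
    have hφ2 : ∀ u v i, φ (.inr (u, v, i)) = F (c' u) (c' v) (i.val + 1) := fun _ _ _ => rfl
    have key : ∀ a b, subRel k G a b → φ a - φ b = 1 ∨ φ b - φ a = 1 := by
      rintro (a | ⟨u, v, i⟩) (b | ⟨u', v', j⟩) h
      · exact absurd h id
      · obtain ⟨h1, h2, h3⟩ := h
        have hne := hc' _ _ h2
        rw [hφ1, hφ2]
        rcases h3 with ⟨rfl, h4⟩ | ⟨rfl, h4⟩
        · have h5 := hF3 _ _ hne 0 (by omega)
          rw [hF1 _ _ hne] at h5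
          rw [h4]
          exact h5.symm
        · have h5 := hF3 _ _ hne (j.val + 1) (by omega)
          have h6 : j.val + 1 + 1 = 2 * k - 1 := by omega
          rw [h6, hF2 _ _ hne] at h5
          exact h5
      · exact absurd h id
      · obtain ⟨h1, h2, rfl, rfl, h3⟩ := h
        have hne := hc' _ _ h2
        rw [hφ2, hφ2, h3]
        exact (hF3 _ _ hne (i.val + 1) (by have := j.isLt; omega)).symm
    refine ⟨⟨fun a => (show Fin (2 * k + 1) from φ a), ?_⟩⟩
    intro a b hab
    rw [cycle_adj (by omega)]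
    rcases hab.2 with h | h
    · exact key a b h
    · exact (key b a h).symm
  · rintro ⟨φ⟩
    let ψ : (Fin N ⊕ (Fin N × Fin N × Fin (2 * k - 2))) → ZMod (2 * k + 1) := fun a => φ a
    have hψ : ∀ a b, (subdiv k G).Adj a b → ψ b - ψ a = 1 ∨ ψ a - ψ b = 1 := by
      intro a b hab
      have h := φ.map_adj hab
      rw [cycle_adj (by omega)] at h
      exact h.symm
    have main : ∀ u v, u < v → G.Adj u v → ψ (.inl u) ≠ ψ (.inl v) := by
      intro u v huv hadj heq
      let g : ℕ → ZMod (2 * k + 1) := fun i =>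
        if i = 0 then ψ (.inl u) else
          if h : i - 1 < 2 * k - 2 then ψ (.inr (u, v, ⟨i - 1, h⟩)) else ψ (.inl v)
      have hg0 : g 0 = ψ (.inl u) := by simp [g]
      have hgl : g (2 * k - 1) = ψ (.inl v) := by
        simp only [g]
        rw [if_neg (by omega), dif_neg (by omega)]
      have hgi : ∀ i (h : i < 2 * k - 2), g (i + 1) = ψ (.inr (u, v, ⟨i, h⟩)) := by
        intro i h
        simp only [g]
        rw [if_neg (by omega), dif_pos (by simpa using h)]
        simp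
      obtain ⟨s, h1, h2, h3⟩ := walk_disp g (2 * k - 1) (by
        intro i hi
        rcases i with _ | i
        · rw [hg0, hgi 0 (by omega)]
          exact hψ _ _ (sub_inl_inr.2 ⟨huv, hadj, Or.inl ⟨rfl, rfl⟩⟩)
        · by_cases hl : i + 1 < 2 * k - 2
          · rw [hgi i (by omega), hgi (i + 1) hl]
            exact hψ _ _ (sub_inr_inr.2 ⟨huv, hadj, rfl, rfl, Or.inl rfl⟩)
          · have h4 : i + 1 + 1 = 2 * k - 1 := by omega
            rw [hgi i (by omega), h4, hgl]
            exact hψ _ _ (sub_inl_inr.2 ⟨huv, hadj, Or.inr ⟨rfl, by simp only; omega⟩⟩).symm)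
      rw [hg0, hgl, ← heq] at h3
      have h4 : (s : ZMod (2 * k + 1)) = 0 := by
        have : ψ (Sum.inl u) + (s : ZMod (2 * k + 1)) = ψ (Sum.inl u) + 0 := by
          rw [add_zero]; exact h3.symm
        exact add_left_cancel this
      rw [ZMod.intCast_zmod_eq_zero_iff_dvd] at h4
      obtain ⟨d, hd⟩ := h4
      rw [abs_le] at h1
      push_cast at hd
      have hd0 : d = 0 := by
        by_contra hne
        rcases lt_or_gt_of_ne hne with h | h
        · have : (2 * (k : ℤ) + 1) * d ≤ (2 * (k : ℤ) + 1) * (-1) :=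
            mul_le_mul_of_nonneg_left (by omega) (by omega)
          omega
        · have : (2 * (k : ℤ) + 1) * 1 ≤ (2 * (k : ℤ) + 1) * d :=
            mul_le_mul_of_nonneg_left (by omega) (by omega)
          omega
      rw [hd0, mul_zero] at hd
      omega
    refine ⟨Coloring.mk (fun a => φ (.inl a)) ?_⟩
    intro u v huv
    rcases lt_or_gt_of_ne huv.ne with h | h
    · exact main u v h huv
    · exact (main v u h huv.symm).symm

end sub

section final

variable {V : Type u} {W : Type v} {G : SimpleGraph V} {H : SimpleGraph W}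

theorem box_cliqueFree (hG : G.CliqueFree 3) (hH : H.CliqueFree 3) : (G □ H).CliqueFree 3 := by
  intro S hS
  rw [is3Clique_iff] at hS
  obtain ⟨⟨a, a'⟩, ⟨b, b'⟩, ⟨c, c'⟩, hab, hac, hbc, -⟩ := hS
  rw [boxProd_adj] at hab hac hbc
  simp only at hab hac hbc
  rcases hab with ⟨h1, h1'⟩ | ⟨h1, h1'⟩ <;> rcases hac with ⟨h2, h2'⟩ | ⟨h2, h2'⟩ <;>
    rcases hbc with ⟨h3, h3'⟩ | ⟨h3, h3'⟩
  · exact hG {a, b, c} (is3Clique_triple_iff.2 ⟨h1, h2, h3⟩)
  · subst h1' h2' ; exact H.irrefl h3
  · subst h1' h3' ; exact H.irrefl h2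
  · subst h2' h3'; exact G.irrefl h1
  · subst h2' h3'; exact H.irrefl h1
  · subst h1' h3'; exact G.irrefl h2
  · subst h1' h2'; exact G.irrefl h3
  · exact hH {a', b', c'} (is3Clique_triple_iff.2 ⟨h1, h2, h3⟩)

/-- Cartesian products with isomorphic graphs are isomorphic -/
def boxIso {W' : Type*} {H' : SimpleGraph W'} (e : H ≃g H') :
    (SimpleGraph.boxProd G H) ≃g (SimpleGraph.boxProd G H') where
  toEquiv := Equiv.prodCongr (Equiv.refl V) e.toEquiv
  map_rel_iff' := by
    rintro ⟨a, b⟩ ⟨a', b'⟩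
    have h : H'.Adj (e b) (e b') ↔ H.Adj b b' := e.map_adj_iff
    simp [boxProd_adj, h]

end final

/-- The second factor of the reduction: `C_5^{[r]}[K_{p/q}]`. -/
def factor (r p q : ℕ) : SimpleGraph ((Fin r → Fin 5) × Fin p) :=
  lex (lexPow (cycleGraph 5) r) (circF p q)

theorem imp_factor {r p q : ℕ} (hq : 0 < q) (hpq : 2 * q ≤ p) (hpq' : p < 3 * q) :
    imp (factor r p q) = (5 / 4 : ℝ) ^ r * ((p : ℝ) / (2 * q)) := by
  unfold factor
  rw [imp_lex, imp_lexPow, imp_circF hq hpq hpq']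
  have h := imp_cycle (k := 2) le_rfl
  norm_num at h
  have h5 : imp (cycleGraph 5) = 5 / 4 := h
  rw [h5]

/-- The reduction: from `G` to the graph `(S_{2k-1}(G) □ C_{2k+1})[B]`. -/
def red (k : ℕ) {N : ℕ} (G : SimpleGraph (Fin N)) {W : Type v} (B : SimpleGraph W) :
    SimpleGraph (((Fin N ⊕ (Fin N × Fin N × Fin (2 * k - 2))) × Fin (2 * k + 1)) × W) :=
  lex (subdiv k G □ cycleGraph (2 * k + 1)) B

/-- in the box product, colourability keeps the imperfection ratio at that of the odd cycle -/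
theorem imp_box_le {k N : ℕ} (hk2 : 2 ≤ k) {G : SimpleGraph (Fin N)}
    (hc : G.Colorable (2 * k + 1)) :
    imp (subdiv k G □ cycleGraph (2 * k + 1)) ≤ (2 * k + 1) / (2 * k) := by
  have hkr : (2 : ℝ) ≤ k := by exact_mod_cast hk2
  obtain ⟨φ⟩ := (colorable_iff hk2).1 hc
  have hHcf : (subdiv k G □ cycleGraph (2 * k + 1)).CliqueFree 3 := by
    apply box_cliqueFree sub_cliqueFree
    have h1 : (circ (2 * k + 1) k).CliqueFree 3 := circ_cliqueFree (by omega)
    exact h1.comap ⟨(cycleIso (by omega : 0 < k)).toEmbedding.toCopy⟩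
  let φ' : subdiv k G →g circ (2 * k + 1) k := (cycleIso (by omega : 0 < k)).toHom.comp φ
  have h1 := (FC_box_of_hom (q := k) (by omega) (by omega) φ').iso
    (boxIso (G := subdiv k G) (cycleIso (by omega : 0 < k))).symm
  have h2 : chif (subdiv k G □ cycleGraph (2 * k + 1)) ≤ ((2 * k + 1 : ℕ) : ℝ) / k :=
    chif_le_iff.2 h1
  refine (imp_le_of_triangleFree hHcf).trans (max_le ?_ ?_)
  · rw [le_div_iff₀ (by positivity)]; linarith
  · push_cast at h2
    calc chif (subdiv k G □ cycleGraph (2 * k + 1)) / 2 ≤ ((2 * k + 1) / k) / 2 := by linarith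
      _ = _ := by field_simp

/-- Main theorem. -/
theorem reduction (t : ℝ) (ht : 1 < t) : ∃ k r : ℕ, 2 ≤ k ∧
    ∀ (N : ℕ) (G : SimpleGraph (Fin N)) (q : ℕ), q = k * (N + N * (N * (2 * k - 2))) + 1 →
      (G.Colorable (2 * k + 1) ↔
        imp (red k G (factor r ⌊2 * q * (t * (2 * k / (2 * k + 1)) / (5 / 4) ^ r)⌋₊ q)) ≤ t) ∧
      (G.Colorable (2 * k + 1) ↔ ∀ p, 2 * q ≤ p → p < 3 * q →
        imp (lex (cycleGraph (2 * k + 1)) (factor r p q)) ≤ t →
          imp (red k G (factor r p q)) ≤ t) := by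
  -- choice of k
  obtain ⟨k0, hk0⟩ := exists_nat_ge (1 / (2 * (t - 1)))
  set k := max k0 2 with hkdef
  have hk2 : 2 ≤ k := le_max_right _ _
  have hkr : (2 : ℝ) ≤ k := by exact_mod_cast hk2
  have hkt : (2 * (k : ℝ) + 1) / (2 * k) ≤ t := by
    have h1 : 1 / (2 * (t - 1)) ≤ (k : ℝ) := hk0.trans (by exact_mod_cast le_max_left _ _)
    have h2 : 0 < t - 1 := by linarith
    rw [div_le_iff₀ (by positivity)] at h1
    rw [div_le_iff₀ (by positivity)]
    nlinarith
  set s : ℝ := t * (2 * k / (2 * k + 1)) with hs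
  have hs1 : 1 ≤ s := by
    rw [div_le_iff₀ (by positivity)] at hkt
    rw [hs, ← mul_div_assoc, le_div_iff₀ (by positivity)]
    linarith
  obtain ⟨r, hr1, hr2⟩ := exists_nat_pow_near hs1 (show (1 : ℝ) < 5 / 4 by norm_num)
  refine ⟨k, r, hk2, ?_⟩
  intro N G q hq
  set σ : ℝ := s / (5 / 4) ^ r with hσ
  have hpow : (0 : ℝ) < (5 / 4) ^ r := by positivity
  have hσ1 : 1 ≤ σ := by rw [hσ, le_div_iff₀ hpow]; linarith
  have hσ2 : σ < 5 / 4 := by
    rw [hσ, div_lt_iff₀ hpow]
    rw [pow_succ] at hr2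
    linarith
  set n := N + N * (N * (2 * k - 2)) with hn
  have hcard : Fintype.card (Fin N ⊕ (Fin N × Fin N × Fin (2 * k - 2))) = n := by
    simp [hn]
  have hq0 : 0 < q := by omega
  have hqr : (0 : ℝ) < q := by exact_mod_cast hq0
  set p := ⌊2 * q * σ⌋₊ with hp
  have hp1 : (p : ℝ) ≤ 2 * q * σ := Nat.floor_le (by positivity)
  have hp2 : 2 * q * σ < p + 1 := Nat.lt_floor_add_one _
  have hpq : 2 * q ≤ p := by
    apply Nat.le_floor
    push_cast
    nlinarith
  have hpq' : p < 3 * q := by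
    have : (p : ℝ) < ((3 * q : ℕ) : ℝ) := by
      push_cast
      nlinarith
    exact_mod_cast this
  have hC : imp (cycleGraph (2 * k + 1)) = (2 * k + 1) / (2 * k) := by
    rw [imp_cycle hk2]; push_cast; ring
  have hst : s = σ * (5 / 4) ^ r := by rw [hσ]; field_simp
  have hts : t = s * ((2 * k + 1) / (2 * k)) := by
    rw [hs]; field_simp
  suffices hA : G.Colorable (2 * k + 1) ↔ imp (red k G (factor r p q)) ≤ t by
    refine ⟨hA, ?_, ?_⟩
    · intro hc p' h1 h2 h3
      rw [imp_lex, hC] at h3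
      unfold red
      rw [imp_lex]
      exact (mul_le_mul_of_nonneg_right (imp_box_le hk2 hc) (imp_nonneg _)).trans h3
    · intro h
      refine hA.2 (h p hpq hpq' ?_)
      rw [imp_lex, hC, imp_factor hq0 hpq hpq']
      have h4 : (p : ℝ) / (2 * q) ≤ σ := by
        rw [div_le_iff₀ (by positivity)]; linarith
      calc (2 * (k : ℝ) + 1) / (2 * k) * ((5 / 4) ^ r * ((p : ℝ) / (2 * q)))
          ≤ ((2 * k + 1) / (2 * k)) * ((5 / 4) ^ r * σ) :=
            mul_le_mul_of_nonneg_left (mul_le_mul_of_nonneg_left h4 hpow.le) (by positivity)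
        _ = t := by rw [hts, hst]; ring
  unfold red
  rw [imp_lex, imp_factor hq0 hpq hpq', colorable_iff hk2]
  have hHcf : (subdiv k G □ cycleGraph (2 * k + 1)).CliqueFree 3 := by
    apply box_cliqueFree sub_cliqueFree
    have h1 : (circ (2 * k + 1) k).CliqueFree 3 := circ_cliqueFree (by omega)
    exact h1.comap ⟨(cycleIso (by omega : 0 < k)).toEmbedding.toCopy⟩
  constructor
  · rintro ⟨φ⟩
    have h3 : imp (subdiv k G □ cycleGraph (2 * k + 1)) ≤ (2 * k + 1) / (2 * k) :=
      imp_box_le hk2 ((colorable_iff hk2).2 ⟨φ⟩)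
    have h4 : (p : ℝ) / (2 * q) ≤ σ := by
      rw [div_le_iff₀ (by positivity)]; linarith
    calc imp (subdiv k G □ cycleGraph (2 * k + 1)) * ((5 / 4) ^ r * ((p : ℝ) / (2 * q)))
        ≤ ((2 * k + 1) / (2 * k)) * ((5 / 4) ^ r * σ) := by
          apply mul_le_mul h3 _ (by positivity) (by positivity)
          exact mul_le_mul_of_nonneg_left h4 hpow.le
      _ = t := by rw [hts, hst]; ring
  · intro hle
    by_contra hcon
    rw [not_nonempty_iff] at hcon
    have hno : IsEmpty (subdiv k G →g circ (2 * k + 1) k) :=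
      ⟨fun φ => hcon.false ((cycleIso (by omega : 0 < k)).symm.toHom.comp φ)⟩
    have hne : Nonempty (Fin N ⊕ (Fin N × Fin N × Fin (2 * k - 2))) := by
      by_contra hc
      rw [not_nonempty_iff] at hc
      exact hno.false ⟨fun v => (hc.false v).elim, fun {v} => (hc.false v).elim⟩
    have hn1 : 1 ≤ n := by rw [← hcard]; exact Fintype.card_pos
    have hnr : (1 : ℝ) ≤ n := by exact_mod_cast hn1
    have h1 : FC (subdiv k G □ cycleGraph (2 * k + 1)) (fun _ => 1)
        (chif (subdiv k G □ cycleGraph (2 * k + 1))) := chif_le_iff.1 le_rfl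
    have h2 := FC_box_of_no_hom (q := k) (by omega) (by omega) hno
      (h1.iso (boxIso (G := subdiv k G) (cycleIso (by omega : 0 < k))))
    rw [hcard] at h2
    push_cast at h2
    have h3 := (imp_triangleFree hHcf).ge
    have h4 : chif (subdiv k G □ cycleGraph (2 * k + 1)) / 2 ≤
        imp (subdiv k G □ cycleGraph (2 * k + 1)) := (le_max_right _ _).trans h3
    set I := imp (subdiv k G □ cycleGraph (2 * k + 1)) with hI
    have hkn : (0 : ℝ) < k * n - 1 := by nlinarith
    have h5 : (2 * k + 1) * n ≤ 2 * I * (k * n - 1) := by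
      calc ((2 : ℝ) * k + 1) * n ≤ chif (subdiv k G □ cycleGraph (2 * k + 1)) * (k * n - 1) := h2
        _ ≤ 2 * I * (k * n - 1) := mul_le_mul_of_nonneg_right (by linarith) hkn.le
    have hqn : (q : ℝ) = k * n + 1 := by rw [hq]; push_cast; ring
    -- the contradiction
    have hIpos : 0 < I := by
      by_contra hc
      push Not at hc
      have : 2 * I * (k * n - 1) ≤ 0 := by nlinarith
      nlinarith
    have h6 : I * ((p : ℝ) / (2 * q)) ≤ σ * ((2 * k + 1) / (2 * k)) := by
      have h7 : I * ((5 / 4) ^ r * ((p : ℝ) / (2 * q))) ≤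
          σ * ((2 * k + 1) / (2 * k)) * (5 / 4) ^ r := by
        refine hle.trans (le_of_eq ?_)
        rw [hts, hst]; ring
      have h8 : I * ((p : ℝ) / (2 * q)) * (5 / 4) ^ r ≤
          σ * ((2 * k + 1) / (2 * k)) * (5 / 4) ^ r := by
        calc _ = I * ((5 / 4) ^ r * ((p : ℝ) / (2 * q))) := by ring
          _ ≤ _ := h7
      exact le_of_mul_le_mul_right h8 hpow
    have h9 : I * p * (2 * k) ≤ σ * (2 * k + 1) * (2 * q) := by
      have h10 : I * ((p : ℝ) / (2 * q)) * (2 * q * (2 * k)) ≤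
          σ * ((2 * k + 1) / (2 * k)) * (2 * q * (2 * k)) :=
        mul_le_mul_of_nonneg_right h6 (by positivity)
      have e1 : I * ((p : ℝ) / (2 * q)) * (2 * q * (2 * k)) = I * p * (2 * k) := by
        field_simp
      have e2 : σ * ((2 * k + 1) / (2 * k)) * (2 * q * (2 * k)) = σ * (2 * k + 1) * (2 * q) := by
        field_simp
      rw [e1, e2] at h10
      exact h10
    -- multiply by (k n - 1) n
    have h11 : (2 * k + 1) * n * (p * (2 * k)) ≤ 2 * (σ * (2 * k + 1) * (2 * q)) * (k * n - 1) := by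
      calc (2 * k + 1) * n * (p * (2 * k)) ≤ 2 * I * (k * n - 1) * (p * (2 * k)) :=
            mul_le_mul_of_nonneg_right h5 (by positivity)
        _ = 2 * (I * p * (2 * k)) * (k * n - 1) := by ring
        _ ≤ _ := by
            apply mul_le_mul_of_nonneg_right _ hkn.le
            linarith
    have h12 : n * (p * k) ≤ σ * (2 * q) * (k * n - 1) := by
      have h13 : ((2 : ℝ) * k + 1) * 2 * (n * (p * k)) ≤
          (2 * k + 1) * 2 * (σ * (2 * q) * (k * n - 1)) := by
        calc ((2 : ℝ) * k + 1) * 2 * (n * (p * k)) = (2 * k + 1) * n * (p * (2 * k)) := by ring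
          _ ≤ 2 * (σ * (2 * k + 1) * (2 * q)) * (k * n - 1) := h11
          _ = (2 * k + 1) * 2 * (σ * (2 * q) * (k * n - 1)) := by ring
      exact le_of_mul_le_mul_left h13 (by positivity)
    have h14 : (k * n : ℝ) * (2 * q * σ - 1) < σ * (2 * q) * (k * n - 1) := by
      calc (k * n : ℝ) * (2 * q * σ - 1) < (k * n) * p := by
            apply mul_lt_mul_of_pos_left _ (by positivity)
            linarith
        _ = n * (p * k) := by ring
        _ ≤ _ := h12
    -- so 2 q σ < k n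
    have h15 : σ * (2 * q) < k * n := by
      have e3 : (k * n : ℝ) * (2 * q * σ - 1) = σ * (2 * q) * (k * n) - k * n := by ring
      have e4 : σ * (2 * q) * ((k : ℝ) * n - 1) = σ * (2 * q) * (k * n) - σ * (2 * q) := by ring
      rw [e3, e4] at h14
      linarith
    have h16 : (q : ℝ) ≤ σ * (2 * q) := by
      have : (q : ℝ) * 1 ≤ q * σ := mul_le_mul_of_nonneg_left hσ1 hqr.le
      linarith
    linarith

/-- Every adjacency of the output of the reduction is constantly false, constantly true, or a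
fixed adjacency of the input. -/
theorem red_projection (k N : ℕ) {W : Type v} (B : SimpleGraph W)
    (a b : ((Fin N ⊕ (Fin N × Fin N × Fin (2 * k - 2))) × Fin (2 * k + 1)) × W) :
    (∀ G : SimpleGraph (Fin N), ¬ (red k G B).Adj a b) ∨
      (∀ G : SimpleGraph (Fin N), (red k G B).Adj a b) ∨
      ∃ u v, ∀ G : SimpleGraph (Fin N), ((red k G B).Adj a b ↔ G.Adj u v) := by
  obtain ⟨⟨x, i⟩, w⟩ := a
  obtain ⟨⟨y, j⟩, w'⟩ := b
  have key : (∀ G : SimpleGraph (Fin N), ¬ (subdiv k G).Adj x y) ∨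
      (x ≠ y ∧ ∃ u v, ∀ G : SimpleGraph (Fin N), ((subdiv k G).Adj x y ↔ G.Adj u v)) := by
    rcases x with x | ⟨u, v, l⟩ <;> rcases y with y | ⟨u', v', l'⟩
    · exact Or.inl fun G => sub_inl_inl
    · by_cases h : u' < v' ∧ ((x = u' ∧ l'.val = 0) ∨ (x = v' ∧ l'.val + 1 = 2 * k - 2))
      · refine Or.inr ⟨by simp, u', v', fun G => ?_⟩
        rw [sub_inl_inr]
        exact ⟨fun h' => h'.2.1, fun h' => ⟨h.1, h', h.2⟩⟩
      · refine Or.inl fun G h' => h ?_
        rw [sub_inl_inr] at h'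
        exact ⟨h'.1, h'.2.2⟩
    · by_cases h : u < v ∧ ((y = u ∧ l.val = 0) ∨ (y = v ∧ l.val + 1 = 2 * k - 2))
      · refine Or.inr ⟨by simp, u, v, fun G => ?_⟩
        rw [adj_comm, sub_inl_inr]
        exact ⟨fun h' => h'.2.1, fun h' => ⟨h.1, h', h.2⟩⟩
      · refine Or.inl fun G h' => h ?_
        rw [adj_comm, sub_inl_inr] at h'
        exact ⟨h'.1, h'.2.2⟩
    · by_cases h : u < v ∧ u' = u ∧ v' = v ∧ (l'.val = l.val + 1 ∨ l.val = l'.val + 1)
      · refine Or.inr ⟨?_, u, v, fun G => ?_⟩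
        · intro he
          simp only [Sum.inr.injEq, Prod.mk.injEq] at he
          have := congrArg Fin.val he.2.2
          omega
        · rw [sub_inr_inr]
          exact ⟨fun h' => h'.2.1, fun h' => ⟨h.1, h', h.2.1, h.2.2.1, h.2.2.2⟩⟩
      · refine Or.inl fun G h' => h ?_
        rw [sub_inr_inr] at h'
        exact ⟨h'.1, h'.2.2.1, h'.2.2.2.1, h'.2.2.2.2⟩
  have hred : ∀ G : SimpleGraph (Fin N), (red k G B).Adj ((x, i), w) ((y, j), w') ↔
      (((subdiv k G).Adj x y ∧ i = j) ∨ ((cycleGraph (2 * k + 1)).Adj i j ∧ x = y)) ∨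
        ((x = y ∧ i = j) ∧ B.Adj w w') := by
    intro G
    change (((subdiv k G □ cycleGraph (2 * k + 1)).Adj (x, i) (y, j) ∨
      ((x, i) = (y, j) ∧ B.Adj w w')) ↔ _)
    rw [boxProd_adj, Prod.mk.injEq]
  rcases key with key | ⟨hxy, u, v, key⟩
  · by_cases h : ((cycleGraph (2 * k + 1)).Adj i j ∧ x = y) ∨ ((x = y ∧ i = j) ∧ B.Adj w w')
    · refine Or.inr (Or.inl fun G => ?_)
      rw [hred]
      rcases h with h | h
      · exact Or.inl (Or.inr h)
      · exact Or.inr h
    · refine Or.inl fun G h' => h ?_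
      rw [hred] at h'
      rcases h' with (h' | h') | h'
      · exact absurd h'.1 (key G)
      · exact Or.inl h'
      · exact Or.inr h'
  · by_cases hij : i = j
    · refine Or.inr (Or.inr ⟨u, v, fun G => ?_⟩)
      rw [hred, key G]
      constructor
      · rintro ((h | h) | h)
        · exact h.1
        · exact absurd h.2 hxy
        · exact absurd h.1.1 hxy
      · intro h
        exact Or.inl (Or.inl ⟨h, hij⟩)
    · refine Or.inl fun G h' => ?_
      rw [hred] at h'
      rcases h' with (h' | h') | h'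
      · exact hij h'.2
      · exact hxy h'.2
      · exact hxy h'.1.1

end Pool.Agent.Helper63.Imp
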