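import Mathlib
import Pool.Agent.Helper63.ImpRed

set_option autoImplicit false

/-!
For all but countably many real thresholds `t > 1`, no algorithm at all decides `imp ≤ t`.
-/

namespace Pool.Agent.Helper63.Imp

open Finset Classical SimpleGraph

universe u v

/-- The graph on the nodes `0, …, N-1` given by the number `N` of nodes and a list of edges. -/
def graphOf (c : ℕ × List (ℕ × ℕ)) : SimpleGraph (Fin c.1) where
  Adj i j := i ≠ j ∧ ((i.val, j.val) ∈ c.2 ∨ (j.val, i.val) ∈ c.2)
  symm := ⟨fun _ _ h => ⟨h.1.symm, h.2.symm⟩⟩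
  loopless := ⟨fun _ h => h.1 rfl⟩

theorem exists_code_fin {N : ℕ} (G : SimpleGraph (Fin N)) :
    ∃ L : List (ℕ × ℕ), graphOf (N, L) = G := by
  refine ⟨(Finset.univ.filter fun e : Fin N × Fin N => G.Adj e.1 e.2).toList.map
    fun e => (e.1.val, e.2.val), ?_⟩
  ext i j
  have key : ∀ a b : Fin N, (a.val, b.val) ∈ ((Finset.univ.filter
      fun e : Fin N × Fin N => G.Adj e.1 e.2).toList.map fun e => (e.1.val, e.2.val)) ↔
      G.Adj a b := by
    intro a b
    rw [List.mem_map]
    constructor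
    · rintro ⟨⟨x, y⟩, h1, h2⟩
      rw [Finset.mem_toList, Finset.mem_filter] at h1
      simp only [Prod.mk.injEq] at h2
      have e1 : x = a := Fin.ext h2.1
      have e2 : y = b := Fin.ext h2.2
      rw [← e1, ← e2]
      exact h1.2
    · intro h
      exact ⟨(a, b), by rw [Finset.mem_toList, Finset.mem_filter]; exact ⟨Finset.mem_univ _, h⟩,
        rfl⟩
  change (i ≠ j ∧ (_ ∨ _)) ↔ _
  rw [key, key]
  constructor
  · rintro ⟨-, h | h⟩
    · exact h
    · exact h.symm
  · intro h
    exact ⟨h.ne, Or.inl h⟩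

theorem exists_code {V : Type u} [Fintype V] (G : SimpleGraph V) :
    ∃ c : ℕ × List (ℕ × ℕ), imp (graphOf c) = imp G := by
  let e : V ≃ Fin (Fintype.card V) := Fintype.equivFin V
  obtain ⟨L, hL⟩ := exists_code_fin (G.map e.toEmbedding)
  refine ⟨(Fintype.card V, L), ?_⟩
  rw [hL]
  exact (imp_iso (SimpleGraph.Iso.map e G)).symm

theorem countable_computablePred {α : Type*} [Primcodable α] :
    {P : α → Prop | ComputablePred P}.Countable := by
  have h : ∀ P : α → Prop, ComputablePred P → ∃ c : Nat.Partrec.Code, ∀ a,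
      c.eval (Encodable.encode a) = Part.some (Encodable.encode (decide (P a))) := by
    rintro P ⟨D, hD⟩
    obtain ⟨c, hc⟩ := Nat.Partrec.Code.exists_code.1 hD
    refine ⟨c, fun a => ?_⟩
    rw [hc]
    simp only [Encodable.encodek, Part.coe_some, Part.bind_some, PFun.coe_val, Part.map_some]
    congr
  choose! F hF using h
  refine Set.MapsTo.countable_of_injOn (f := F) (t := Set.univ) (fun _ _ => Set.mem_univ _) ?_
    Set.countable_univ
  intro P hP Q hQ hPQ
  funext a
  have h1 := hF P hP a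
  rw [hPQ, hF Q hQ a] at h1
  have h2 := Encodable.encode_injective (Part.some_injective h1)
  have h3 : (Q a ↔ P a) := by simpa using h2
  exact propext h3.symm

/-- the imperfection ratios are dense above one -/
theorem imp_dense {s t : ℝ} (hs : 1 ≤ s) (hst : s < t) :
    ∃ c : ℕ × List (ℕ × ℕ), s < imp (graphOf c) ∧ imp (graphOf c) ≤ t := by
  obtain ⟨r, hr1, hr2⟩ := exists_nat_pow_near hs (show (1 : ℝ) < 5 / 4 by norm_num)
  have hpow : (0 : ℝ) < (5 / 4) ^ r := by positivity
  have h1 : 1 ≤ s / (5 / 4) ^ r := by rw [le_div_iff₀ hpow]; linarith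
  have h2 : s / (5 / 4) ^ r < 5 / 4 := by
    rw [div_lt_iff₀ hpow]; rw [pow_succ] at hr2; linarith
  have h3 : s / (5 / 4) ^ r < min (t / (5 / 4) ^ r) (3 / 2) := by
    refine lt_min (div_lt_div_of_pos_right hst hpow) (by linarith)
  obtain ⟨x, hx1, hx2⟩ := exists_rat_btwn h3
  have hx0 : (1 : ℝ) < x := lt_of_le_of_lt h1 hx1
  have hx0' : (1 : ℚ) < x := by exact_mod_cast hx0
  have hxt : (x : ℝ) < t / (5 / 4) ^ r := lt_of_lt_of_le hx2 (min_le_left _ _)
  have hx3 : (x : ℝ) < 3 / 2 := lt_of_lt_of_le hx2 (min_le_right _ _)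
  have hnum : 0 < x.num := Rat.num_pos.2 (by linarith)
  set q := x.den with hq
  set p := 2 * x.num.toNat with hp
  have hq0 : 0 < q := x.den_pos
  have hqr : (0 : ℝ) < q := by exact_mod_cast hq0
  have hxr : (x : ℝ) = (x.num.toNat : ℝ) / q := by
    have e1 : ((x.num.toNat : ℤ) : ℝ) = (x.num : ℝ) := by rw [Int.toNat_of_nonneg hnum.le]
    have e2 : (x : ℝ) = (x.num : ℝ) / (x.den : ℝ) := Rat.cast_def x
    rw [e2, ← e1, hq, Int.cast_natCast]
  have hpr : (p : ℝ) / (2 * q) = x := by
    rw [hxr, hp]; push_cast; field_simp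
  have hpq : 2 * q ≤ p := by
    have : ((2 * q : ℕ) : ℝ) ≤ p := by
      push_cast
      rw [div_eq_iff (by positivity)] at hpr
      rw [hpr]
      nlinarith
    exact_mod_cast this
  have hpq' : p < 3 * q := by
    have : (p : ℝ) < ((3 * q : ℕ) : ℝ) := by
      push_cast
      rw [div_eq_iff (by positivity)] at hpr
      rw [hpr]
      nlinarith
    exact_mod_cast this
  obtain ⟨c, hc⟩ := exists_code (factor r p q)
  refine ⟨c, ?_, ?_⟩
  · rw [hc, imp_factor hq0 hpq hpq', hpr]
    rw [div_lt_iff₀ hpow] at hx1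
    linarith
  · rw [hc, imp_factor hq0 hpq hpq', hpr]
    rw [lt_div_iff₀ hpow] at hxt
    linarith

theorem countable_thresholds :
    {t : ℝ | 1 ≤ t ∧ ComputablePred fun c : ℕ × List (ℕ × ℕ) => imp (graphOf c) ≤ t}.Countable := by
  refine Set.MapsTo.countable_of_injOn
    (f := fun (t : ℝ) (c : ℕ × List (ℕ × ℕ)) => imp (graphOf c) ≤ t)
    (t := {P | ComputablePred P}) (fun t ht => ht.2) ?_ countable_computablePred
  have key : ∀ s t : ℝ, 1 ≤ s → s < t →
      (fun c : ℕ × List (ℕ × ℕ) => imp (graphOf c) ≤ s) ≠ fun c => imp (graphOf c) ≤ t := by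
    intro s t hs hst he
    obtain ⟨c, h1, h2⟩ := imp_dense hs hst
    have h3 := congrFun he c
    simp only [h2, eq_iff_iff, iff_true] at h3
    linarith
  intro s hs t ht he
  rcases lt_trichotomy s t with h | h | h
  · exact absurd he (key s t hs.1 h)
  · exact h
  · exact absurd he.symm (key t s ht.1 h)

theorem exists_undecidable {a b : ℝ} (ha : 1 ≤ a) (hab : a < b) :
    ∃ t : ℝ, a < t ∧ t < b ∧
      ¬ ComputablePred fun c : ℕ × List (ℕ × ℕ) => imp (graphOf c) ≤ t := by
  by_contra hcon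
  push Not at hcon
  have h : (Set.Ioo a b).Countable := by
    refine countable_thresholds.mono ?_
    intro t ht
    exact ⟨ha.trans ht.1.le, hcon t ht.1 ht.2⟩
  rw [Cardinal.Real.Ioo_countable_iff] at h
  exact absurd h (not_le.2 hab)

end Pool.Agent.Helper63.Imp
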