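import Pool.Agent.Helper1.LL.Defs

set_option autoImplicit false

open MeasureTheory Filter Topology
open scoped ENNReal

noncomputable section

namespace Pool.Agent.Helper63.LL

open Pool.Agent.Helper1.LL

/-- the abstract form of the Pauli principle -/
theorem pauli_abstract {H : Type*} [NormedAddCommGroup H] [InnerProductSpace ℂ H]
    {ι : Type*} [Fintype ι] [DecidableEq ι] (f : H) (g : ι → H) (c : ℝ)
    (h1 : ∀ i, inner ℂ f (g i) = (c : ℂ)) (h2 : ∀ i, inner ℂ (g i) (g i) = inner ℂ f f)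
    (h3 : ∀ i j, i ≠ j → inner ℂ (g i) (g j) = -(c : ℂ)) :
    (Fintype.card ι : ℝ) * c ≤ ‖f‖ ^ 2 := by
  set m := Fintype.card ι with hm
  have hfg : inner ℂ f (∑ i, g i) = (m : ℂ) * c := by
    rw [inner_sum, Finset.sum_congr rfl fun i _ => h1 i]
    simp [hm]
  have hff : inner ℂ f f = ((‖f‖ ^ 2 : ℝ) : ℂ) := by
    rw [inner_self_eq_norm_sq_to_K]; simp
  have hgg : inner ℂ (∑ i, g i) (∑ i, g i) = (m : ℂ) * ((‖f‖ ^ 2 : ℝ) - (m - 1) * c) := by
    rw [inner_sum]
    have h4 : ∀ j, inner ℂ (∑ i, g i) (g j) = ((‖f‖ ^ 2 : ℝ) : ℂ) - (m - 1) * c := by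
      intro j
      rw [sum_inner, ← Finset.add_sum_erase _ _ (Finset.mem_univ j), h2 j, hff]
      rw [Finset.sum_congr rfl fun i hi => h3 i j (Finset.ne_of_mem_erase hi)]
      rw [Finset.sum_const, Finset.card_erase_of_mem (Finset.mem_univ j), Finset.card_univ,
        nsmul_eq_mul]
      have hmpos : 1 ≤ m := by
        rw [hm]; exact Fintype.card_pos_iff.2 ⟨j⟩
      rw [← hm, Nat.cast_sub hmpos]
      push_cast
      ring
    rw [Finset.sum_congr rfl fun j _ => h4 j]
    simp only [Finset.sum_const, Finset.card_univ, nsmul_eq_mul, hm]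
  have hpos : 0 ≤ ‖f - ∑ i, g i‖ ^ 2 := by positivity
  rw [@norm_sub_sq ℂ, hfg] at hpos
  have hG : ‖∑ i, g i‖ ^ 2 = m * (‖f‖ ^ 2 - (m - 1) * c) := by
    have h5 : ((‖∑ i, g i‖ ^ 2 : ℝ) : ℂ) = inner ℂ (∑ i, g i) (∑ i, g i) := by
      rw [inner_self_eq_norm_sq_to_K]; simp
    rw [hgg] at h5
    exact_mod_cast h5
  rw [hG] at hpos
  have hre : RCLike.re ((m : ℂ) * (c : ℂ)) = m * c := by
    rw [← Complex.ofReal_natCast, ← Complex.ofReal_mul]
    exact Complex.ofReal_re _
  rw [hre] at hpos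
  have hm0 : (0 : ℝ) ≤ m := Nat.cast_nonneg _
  have : 0 ≤ (m + 1) * (‖f‖ ^ 2 - m * c) := by
    calc (0 : ℝ) ≤ ‖f‖ ^ 2 - 2 * (m * c) + m * (‖f‖ ^ 2 - (m - 1) * c) := hpos
      _ = (m + 1) * (‖f‖ ^ 2 - m * c) := by ring
  have h6 : 0 ≤ ‖f‖ ^ 2 - m * c := nonneg_of_mul_nonneg_right this (by positivity)
  linarith

section

variable {X : Type*} [MeasureSpace X] [SigmaFinite (volume : Measure X)]

/-- permuting the coordinates, as a measurable equivalence -/
def permE {m : ℕ} (σ : Equiv.Perm (Fin m)) : (Fin m → X) ≃ᵐ (Fin m → X) :=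
  MeasurableEquiv.arrowCongr' σ.symm (MeasurableEquiv.refl X)

theorem permE_apply {m : ℕ} (σ : Equiv.Perm (Fin m)) (z : Fin m → X) : permE σ z = z ∘ σ := by
  ext i
  rfl

theorem permE_mp {m : ℕ} (σ : Equiv.Perm (Fin m)) :
    MeasurePreserving (permE σ : (Fin m → X) ≃ᵐ (Fin m → X)) :=
  volume_preserving_arrowCongr' _ _ (MeasurePreserving.id _)

/-- adding a first coordinate -/
def consE (X : Type*) [MeasureSpace X] (m : ℕ) : (X × (Fin m → X)) ≃ᵐ (Fin (m + 1) → X) :=
  (MeasurableEquiv.piFinSuccAbove (fun _ => X) 0).symm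

theorem consE_apply {m : ℕ} (p : X × (Fin m → X)) :
    consE X m p = (Fin.cons p.1 p.2 : Fin (m + 1) → X) := by
  ext i
  refine Fin.cases ?_ (fun i => ?_) i
  · rfl
  · rfl

theorem consE_mp {m : ℕ} : MeasurePreserving (consE X m) :=
  (volume_preserving_piFinSuccAbove (fun _ => X) 0).symm

/-- regrouping of coordinates -/
def regE (X : Type*) [MeasureSpace X] (n : ℕ) :
    ((Fin n → X) × (X × X)) ≃ᵐ (Fin (n + 1 + 1) → X) :=
  ((MeasurableEquiv.prodComm.trans MeasurableEquiv.prodAssoc).trans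
    (MeasurableEquiv.prodCongr (MeasurableEquiv.refl X) (consE X n))).trans (consE X (n + 1))

theorem regE_apply {n : ℕ} (y : Fin n → X) (a b : X) :
    regE X n (y, (a, b)) =
      (Fin.cons a (Fin.cons b y : Fin (n + 1) → X) : Fin (n + 1 + 1) → X) := by
  have h : regE X n (y, (a, b)) = consE X (n + 1) (a, consE X n (b, y)) := rfl
  rw [h, consE_apply, consE_apply]

theorem regE_mp {n : ℕ} : MeasurePreserving (regE X n) := by
  have h1 : MeasurePreserving (MeasurableEquiv.prodComm :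
      ((Fin n → X) × (X × X)) ≃ᵐ ((X × X) × (Fin n → X))) := Measure.measurePreserving_swap
  have h2 : MeasurePreserving (MeasurableEquiv.prodAssoc :
      ((X × X) × (Fin n → X)) ≃ᵐ X × X × (Fin n → X)) := volume_preserving_prodAssoc
  have h3 : MeasurePreserving (MeasurableEquiv.prodCongr (MeasurableEquiv.refl X) (consE X n)) :=
    (MeasurePreserving.id (volume : Measure X)).prod (consE_mp (X := X) (m := n))
  exact (consE_mp (X := X) (m := n + 1)).comp (h3.comp (h2.comp h1))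

/-- inner product of functions -/
def ip {Z : Type*} [MeasureSpace Z] (f g : Z → ℂ) : ℂ := ∫ z, star (f z) * g z

theorem ip_comp {Z : Type*} [MeasureSpace Z] (T : Z ≃ᵐ Z) (hT : MeasurePreserving T)
    (f g : Z → ℂ) : ip (fun z => f (T z)) (fun z => g (T z)) = ip f g :=
  hT.integral_comp' (g := fun z => star (f z) * g z)

theorem ip_congr {Z : Type*} [MeasureSpace Z] {f g f' g' : Z → ℂ}
    (hf : f =ᵐ[volume] f') (hg : g =ᵐ[volume] g') : ip f g = ip f' g' := by
  refine integral_congr_ae ?_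
  filter_upwards [hf, hg] with z h1 h2
  rw [h1, h2]

theorem inner_toLp {Z : Type*} [MeasureSpace Z] {f g : Z → ℂ} (hf : MemLp f 2 volume)
    (hg : MemLp g 2 volume) : inner ℂ (hf.toLp f) (hg.toLp g) = ip f g := by
  rw [L2.inner_def]
  refine integral_congr_ae ?_
  filter_upwards [hf.coeFn_toLp, hg.coeFn_toLp] with z h1 h2
  rw [h1, h2, RCLike.inner_apply, mul_comm]
  rfl

theorem ip_self {Z : Type*} [MeasureSpace Z] (f : Z → ℂ) :
    ip f f = ((∫ z, ‖f z‖ ^ 2 : ℝ) : ℂ) := by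
  have h1 : ∫ z, ((‖f z‖ ^ 2 : ℝ) : ℂ) = ((∫ z, ‖f z‖ ^ 2 : ℝ) : ℂ) := integral_ofReal
  rw [← h1]
  unfold ip
  congr 1
  ext z
  rw [mul_comm]
  have := Complex.mul_conj (f z)
  rw [Complex.normSq_eq_norm_sq] at this
  exact this

end

section main

variable {X : Type*} [MeasureSpace X] [SigmaFinite (volume : Measure X)] {n : ℕ}

/-- `e ⊗ Ψ` -/
def tens (e : X → ℂ) (Ψ : (Fin (n + 1) → X) → ℂ) : (Fin (n + 1 + 1) → X) → ℂ :=
  fun z => e (z 0) * Ψ (Fin.tail z)

theorem tens_consE (e : X → ℂ) (Ψ : (Fin (n + 1) → X) → ℂ) (p : X × (Fin (n + 1) → X)) :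
    tens e Ψ (consE X (n + 1) p) = e p.1 * Ψ p.2 := by
  rw [consE_apply]
  simp [tens]

theorem tens_eq (e : X → ℂ) (Ψ : (Fin (n + 1) → X) → ℂ) :
    tens e Ψ = (fun p : X × (Fin (n + 1) → X) => e p.1 * Ψ p.2) ∘ (consE X (n + 1)).symm := by
  ext z
  have h := tens_consE e Ψ ((consE X (n + 1)).symm z)
  rw [MeasurableEquiv.apply_symm_apply] at h
  exact h

theorem tens_memLp {e : X → ℂ} {Ψ : (Fin (n + 1) → X) → ℂ} (he : MemLp e 2 volume)
    (hΨ : MemLp Ψ 2 volume) : MemLp (tens e Ψ) 2 volume := by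
  rw [tens_eq]
  refine MemLp.comp_measurePreserving (ν := volume) ?_ (consE_mp (X := X) (m := n + 1)).symm
  have h1 : AEStronglyMeasurable (fun p : X × (Fin (n + 1) → X) => e p.1 * Ψ p.2)
      (volume.prod volume) := he.1.comp_fst.mul hΨ.1.comp_snd
  change MemLp (fun p : X × (Fin (n + 1) → X) => e p.1 * Ψ p.2) 2 (volume.prod volume)
  rw [memLp_two_iff_integrable_sq_norm h1]
  have h2 := Integrable.mul_prod ((memLp_two_iff_integrable_sq_norm he.1).1 he)
    ((memLp_two_iff_integrable_sq_norm hΨ.1).1 hΨ)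
  refine h2.congr (ae_of_all _ fun p => ?_)
  simp only [norm_mul, mul_pow]

theorem tens_norm (e : X → ℂ) (Ψ : (Fin (n + 1) → X) → ℂ) :
    ∫ z, ‖tens e Ψ z‖ ^ 2 = (∫ x, ‖e x‖ ^ 2) * ∫ x, ‖Ψ x‖ ^ 2 := by
  have h := (consE_mp (X := X) (m := n + 1)).integral_comp' (g := fun z => ‖tens e Ψ z‖ ^ 2)
  rw [← h]
  simp only [tens_consE, norm_mul, mul_pow]
  exact integral_prod_mul (fun x => ‖e x‖ ^ 2) fun x => ‖Ψ x‖ ^ 2

/-- the exchange inner product -/
theorem tens_exchange {e : X → ℂ} {Ψ : (Fin (n + 1) → X) → ℂ} (he : MemLp e 2 volume)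
    (hΨ : MemLp Ψ 2 volume) :
    ip (tens e Ψ) (fun z => tens e Ψ (z ∘ Equiv.swap 0 1)) =
      ((∫ y : Fin n → X, ‖∫ x, star (e x) * Ψ (Fin.cons x y)‖ ^ 2 : ℝ) : ℂ) := by
  set F : (Fin n → X) → ℂ := fun y => ∫ x, star (e x) * Ψ (Fin.cons x y) with hF
  have hf := tens_memLp he hΨ
  have hg : MemLp (fun z => tens e Ψ (z ∘ Equiv.swap (0 : Fin (n + 1 + 1)) 1)) 2 volume := by
    have := hf.comp_measurePreserving (permE_mp (X := X) (Equiv.swap (0 : Fin (n + 1 + 1)) 1))
    exact this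
  have hint : Integrable (fun z => star (tens e Ψ z) *
      tens e Ψ (z ∘ Equiv.swap (0 : Fin (n + 1 + 1)) 1)) := by
    have := (MemLp.star hf).integrable_mul hg
    exact this
  have hval : ∀ (y : Fin n → X) (a b : X), star (tens e Ψ (regE X n (y, (a, b)))) *
      tens e Ψ ((regE X n (y, (a, b))) ∘ Equiv.swap (0 : Fin (n + 1 + 1)) 1) =
      (star (e a) * Ψ (Fin.cons a y)) * (star (Ψ (Fin.cons b y)) * e b) := by
    intro y a b
    rw [regE_apply]
    have h1 : (Fin.cons a (Fin.cons b y : Fin (n + 1) → X) : Fin (n + 1 + 1) → X) ∘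
        Equiv.swap (0 : Fin (n + 1 + 1)) 1 =
        (Fin.cons b (Fin.cons a y : Fin (n + 1) → X) : Fin (n + 1 + 1) → X) := by
      ext i
      refine Fin.cases ?_ (fun i => ?_) i
      · simp only [Function.comp_apply, Equiv.swap_apply_left, Fin.cons_zero]
        rfl
      · refine Fin.cases ?_ (fun i => ?_) i
        · have : (Equiv.swap (0 : Fin (n + 1 + 1)) 1) (Fin.succ 0) = 0 :=
            Equiv.swap_apply_right _ _
          simp only [Function.comp_apply, this, Fin.cons_zero, Fin.cons_succ]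
        · have : (Equiv.swap (0 : Fin (n + 1 + 1)) 1) (Fin.succ (Fin.succ i)) =
              Fin.succ (Fin.succ i) := by
            refine Equiv.swap_apply_of_ne_of_ne (Fin.succ_ne_zero _) ?_
            intro h
            have : (1 : Fin (n + 1 + 1)) = Fin.succ 0 := rfl
            rw [this] at h
            exact Fin.succ_ne_zero _ (Fin.succ_injective _ h)
          simp only [Function.comp_apply, this, Fin.cons_succ]
    rw [h1]
    simp only [tens, Fin.cons_zero, Fin.tail_cons, star_mul']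
    ring
  have hint' : Integrable (fun p : (Fin n → X) × (X × X) =>
      (star (e p.2.1) * Ψ (Fin.cons p.2.1 p.1)) * (star (Ψ (Fin.cons p.2.2 p.1)) * e p.2.2))
      (volume.prod volume) := by
    have h1 := (regE_mp (X := X) (n := n)).integrable_comp_of_integrable hint
    refine h1.congr (ae_of_all _ ?_)
    rintro ⟨y, a, b⟩
    exact hval y a b
  unfold ip
  rw [← (regE_mp (X := X) (n := n)).integral_comp' (g := fun z => star (tens e Ψ z) *
      tens e Ψ (z ∘ Equiv.swap (0 : Fin (n + 1 + 1)) 1))]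
  have h2 : ∫ p : (Fin n → X) × (X × X), star (tens e Ψ (regE X n p)) *
      tens e Ψ ((regE X n p) ∘ Equiv.swap (0 : Fin (n + 1 + 1)) 1) =
      ∫ p : (Fin n → X) × (X × X), (star (e p.2.1) * Ψ (Fin.cons p.2.1 p.1)) *
        (star (Ψ (Fin.cons p.2.2 p.1)) * e p.2.2) := by
    congr 1
    ext ⟨y, a, b⟩
    exact hval y a b
  rw [h2]
  change ∫ p, _ ∂(volume.prod volume) = _
  rw [integral_prod _ hint']
  have h3 : ∀ y : Fin n → X, ∫ q : X × X, (star (e q.1) * Ψ (Fin.cons q.1 y)) *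
      (star (Ψ (Fin.cons q.2 y)) * e q.2) = ((‖F y‖ ^ 2 : ℝ) : ℂ) := by
    intro y
    have h4 := integral_prod_mul (μ := (volume : Measure X)) (ν := (volume : Measure X))
      (fun a => star (e a) * Ψ (Fin.cons a y)) (fun b => star (Ψ (Fin.cons b y)) * e b)
    have h5 : ∫ b, star (Ψ (Fin.cons b y)) * e b = star (F y) := by
      rw [hF]
      change _ = (starRingEnd ℂ) (∫ x, star (e x) * Ψ (Fin.cons x y))
      rw [← integral_conj]
      congr 1
      ext b
      change _ = (starRingEnd ℂ) (star (e b) * Ψ (Fin.cons b y))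
      rw [map_mul]
      change _ = (starRingEnd ℂ) ((starRingEnd ℂ) (e b)) * _
      rw [Complex.conj_conj, mul_comm]
      rfl
    rw [h5] at h4
    refine h4.trans ?_
    have := Complex.mul_conj (F y)
    rw [Complex.normSq_eq_norm_sq] at this
    exact this
  simp only [h3]
  exact integral_ofReal

/-- H1. Pauli principle. -/
theorem pauli {X : Type*} [MeasureSpace X] [SigmaFinite (volume : Measure X)] {n : ℕ}
    (Ψ : (Fin (n + 1) → X) → ℂ) (hΨ : MemLp Ψ 2 volume)
    (anti : ∀ σ : Equiv.Perm (Fin (n + 1)),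
      ∀ᵐ x, Ψ (x ∘ σ) = ((Equiv.Perm.sign σ : ℤ) : ℂ) * Ψ x)
    (e : X → ℂ) (he : MemLp e 2 volume) (he1 : ∫ x, ‖e x‖ ^ 2 ≤ 1) :
    (n + 1 : ℝ) * ∫ y : Fin n → X, ‖∫ x, star (e x) * Ψ (Fin.cons x y)‖ ^ 2 ≤
      ∫ x, ‖Ψ x‖ ^ 2 := by
  set c : ℝ := ∫ y : Fin n → X, ‖∫ x, star (e x) * Ψ (Fin.cons x y)‖ ^ 2 with hc
  let f := tens e Ψ
  have hf : MemLp f 2 volume := tens_memLp he hΨ
  let s : Fin (n + 1) → Equiv.Perm (Fin (n + 1 + 1)) := fun i => Equiv.swap 0 i.succ
  let g : Fin (n + 1) → (Fin (n + 1 + 1) → X) → ℂ := fun i z => f (z ∘ s i)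
  have hg : ∀ i, MemLp (g i) 2 volume := fun i =>
    hf.comp_measurePreserving (permE_mp (X := X) (s i))
  -- antisymmetry under permutations of the last coordinates
  have hanti : ∀ i j : Fin (n + 1), i ≠ j →
      ∀ᵐ z, f (z ∘ Equiv.swap i.succ j.succ) = - f z := by
    intro i j hij
    have h1 := anti (Equiv.swap i j)
    have h2 : ∀ᵐ p : X × (Fin (n + 1) → X) ∂(volume.prod volume),
        Ψ (p.2 ∘ Equiv.swap i j) = ((Equiv.Perm.sign (Equiv.swap i j) : ℤ) : ℂ) * Ψ p.2 :=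
      (Measure.quasiMeasurePreserving_snd).ae h1
    have h3 : ∀ᵐ z : Fin (n + 1 + 1) → X,
        Ψ (((consE X (n + 1)).symm z).2 ∘ Equiv.swap i j) =
          ((Equiv.Perm.sign (Equiv.swap i j) : ℤ) : ℂ) * Ψ ((consE X (n + 1)).symm z).2 :=
      ((consE_mp (X := X) (m := n + 1)).symm).quasiMeasurePreserving.ae h2
    filter_upwards [h3] with z hz
    have h4 : ((consE X (n + 1)).symm z).2 = Fin.tail z := rfl
    rw [h4, Equiv.Perm.sign_swap hij] at hz
    change e ((z ∘ Equiv.swap i.succ j.succ) 0) * Ψ (Fin.tail (z ∘ Equiv.swap i.succ j.succ)) =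
      -(e (z 0) * Ψ (Fin.tail z))
    have h5 : (z ∘ Equiv.swap i.succ j.succ) 0 = z 0 := by
      simp only [Function.comp_apply]
      rw [Equiv.swap_apply_of_ne_of_ne (Fin.succ_ne_zero _).symm (Fin.succ_ne_zero _).symm]
    have h6 : Fin.tail (z ∘ Equiv.swap i.succ j.succ) = Fin.tail z ∘ Equiv.swap i j := by
      ext l
      simp only [Fin.tail, Function.comp_apply]
      congr 1
      by_cases h7 : l = i
      · subst h7; simp
      · by_cases h8 : l = j
        · subst h8; simp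
        · rw [Equiv.swap_apply_of_ne_of_ne h7 h8, Equiv.swap_apply_of_ne_of_ne]
          · exact fun h => h7 (Fin.succ_injective _ h)
          · exact fun h => h8 (Fin.succ_injective _ h)
    rw [h5, h6, hz]
    push_cast
    ring
  -- the first inner product
  have h0 : ip f (g 0) = (c : ℂ) := tens_exchange he hΨ
  have hfg : ∀ i, ip f (g i) = (c : ℂ) := by
    intro i
    by_cases hi : i = 0
    · rw [hi]; exact h0
    · rw [← h0]
      rw [← ip_comp (permE (Equiv.swap (Fin.succ 0) (Fin.succ i)))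
        (permE_mp (X := X) (Equiv.swap (Fin.succ 0) (Fin.succ i))) f (g i)]
      have h1 : (fun z => f (permE (Equiv.swap (Fin.succ 0) (Fin.succ i)) z)) =ᵐ[volume]
          fun z => - f z := by
        filter_upwards [hanti 0 i (Ne.symm hi)] with z hz
        rw [permE_apply]; exact hz
      have h2 : (fun z => g i (permE (Equiv.swap (Fin.succ 0) (Fin.succ i)) z)) =ᵐ[volume]
          fun z => - g 0 z := by
        have h3 := (permE_mp (X := X) (s 0)).quasiMeasurePreserving.ae (hanti 0 i (Ne.symm hi))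
        filter_upwards [h3] with z hz
        rw [permE_apply] at hz
        rw [permE_apply]
        change f ((z ∘ Equiv.swap (Fin.succ 0) (Fin.succ i)) ∘ s i) = - f (z ∘ s 0)
        rw [← hz]
        congr 1
        change z ∘ (Equiv.swap (Fin.succ 0) (Fin.succ i) * s i) =
          z ∘ (s 0 * Equiv.swap (Fin.succ 0) (Fin.succ i))
        congr 2
        have h4 : Equiv.swap (Fin.succ (0 : Fin (n + 1))) (Fin.succ i) * s i *
            (Equiv.swap (Fin.succ 0) (Fin.succ i))⁻¹ = s 0 := by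
          rw [← Equiv.swap_apply_apply]
          have e1 : Equiv.swap (Fin.succ (0 : Fin (n + 1))) (Fin.succ i) 0 = 0 :=
            Equiv.swap_apply_of_ne_of_ne (Fin.succ_ne_zero _).symm (Fin.succ_ne_zero _).symm
          rw [e1, Equiv.swap_apply_right]
        rw [← h4]
        group
      rw [ip_congr h1 h2]
      unfold ip
      congr 1
      ext z
      simp
  have hgg : ∀ i, ip (g i) (g i) = ip f f := fun i =>
    ip_comp (permE (s i)) (permE_mp (X := X) (s i)) f f
  have hgij : ∀ i j, i ≠ j → ip (g i) (g j) = -(c : ℂ) := by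
    intro i j hij
    rw [← hfg j, ← ip_comp (permE (s i)) (permE_mp (X := X) (s i)) (g i) (g j)]
    have h1 : (fun z => g i (permE (s i) z)) = f := by
      ext z
      rw [permE_apply]
      change f ((z ∘ s i) ∘ s i) = f z
      congr 1
      ext l
      simp [s]
    have h2 : (fun z => g j (permE (s i) z)) =ᵐ[volume] fun z => - g j z := by
      have h3 := (permE_mp (X := X) (s j)).quasiMeasurePreserving.ae (hanti j i (Ne.symm hij))
      filter_upwards [h3] with z hz
      rw [permE_apply] at hz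
      rw [permE_apply]
      change f ((z ∘ s i) ∘ s j) = - f (z ∘ s j)
      rw [← hz]
      congr 1
      change z ∘ (s i * s j) = z ∘ (s j * Equiv.swap (Fin.succ j) (Fin.succ i))
      congr 2
      have h4 : s j * s i * (s j)⁻¹ = Equiv.swap (Fin.succ j) (Fin.succ i) := by
        rw [← Equiv.swap_apply_apply]
        have e1 : s j 0 = Fin.succ j := Equiv.swap_apply_left _ _
        have e2 : s j (Fin.succ i) = Fin.succ i :=
          Equiv.swap_apply_of_ne_of_ne (Fin.succ_ne_zero _) fun h => hij (Fin.succ_injective _ h)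
        rw [e1, e2]
      have h5 : (s j)⁻¹ = s j := Equiv.swap_inv _ _
      have h6 : s j * s j = 1 := Equiv.swap_mul_self _ _
      rw [← h4, h5, ← mul_assoc, ← mul_assoc, h6, one_mul]
    rw [h1, ip_congr (Filter.EventuallyEq.refl _ f) h2]
    unfold ip
    rw [← integral_neg]
    congr 1
    ext z
    simp
  have key := pauli_abstract (hf.toLp f) (fun i => (hg i).toLp (g i)) c
    (fun i => by rw [inner_toLp]; exact hfg i)
    (fun i => by rw [inner_toLp, inner_toLp]; exact hgg i)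
    (fun i j hij => by rw [inner_toLp]; exact hgij i j hij)
  rw [Fintype.card_fin] at key
  have hnorm : ‖hf.toLp f‖ ^ 2 = (∫ x, ‖e x‖ ^ 2) * ∫ x, ‖Ψ x‖ ^ 2 := by
    have h1 : ((‖hf.toLp f‖ ^ 2 : ℝ) : ℂ) = ip f f := by
      rw [← inner_toLp hf hf, inner_self_eq_norm_sq_to_K]; simp
    rw [ip_self] at h1
    have h2 : ‖hf.toLp f‖ ^ 2 = ∫ z, ‖f z‖ ^ 2 := by exact_mod_cast h1
    rw [h2]
    exact tens_norm e Ψ
  rw [hnorm] at key
  have h7 : 0 ≤ ∫ x, ‖Ψ x‖ ^ 2 := integral_nonneg fun x => by positivity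
  calc (n + 1 : ℝ) * c = ((n + 1 : ℕ) : ℝ) * c := by push_cast; ring
    _ ≤ (∫ x, ‖e x‖ ^ 2) * ∫ x, ‖Ψ x‖ ^ 2 := key
    _ ≤ 1 * ∫ x, ‖Ψ x‖ ^ 2 := mul_le_mul_of_nonneg_right he1 h7
    _ = _ := one_mul _

end main

end Pool.Agent.Helper63.LL
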